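import Mathlib

/-!
# Word-avoidance dimension bound (subtask R695-A, by helper193)
-/

namespace Pool.Agent.R695

open Module

variable {R L : Type} [Field R] [Fintype L] [DecidableEq L]

/-- all solutions of the avoidance condition -/
def wSol {N : ℕ} (g : (Fin N → L) → R) (n : ℕ) : Submodule R ((Fin n → L) → R) where
  carrier := {v | ∀ s : Fin N ↪o Fin n, ∀ W : Fin n → L,
      ∑ u : Fin N → L, g u * v (Function.extend s u W) = 0}
  zero_mem' := by
    intro s W
    simp
  add_mem' := by
    intro a b ha hb s W
    simp only [Pi.add_apply, mul_add, Finset.sum_add_distrib, ha s W, hb s W, add_zero]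
  smul_mem' := by
    intro c a ha s W
    simp only [Pi.smul_apply, smul_eq_mul, mul_left_comm _ c, ← Finset.mul_sum, ha s W, mul_zero]

omit [DecidableEq L] in
theorem mem_wSol {N n : ℕ} {g : (Fin N → L) → R} {v : (Fin n → L) → R} :
    v ∈ wSol g n ↔ ∀ s : Fin N ↪o Fin n, ∀ W : Fin n → L,
      ∑ u : Fin N → L, g u * v (Function.extend s u W) = 0 := Iff.rfl

/-- slice at first letter -/
def slice (n : ℕ) (l : L) : ((Fin (n + 1) → L) → R) →ₗ[R] ((Fin n → L) → R) where
  toFun v := fun W => v (Fin.cons l W)
  map_add' _ _ := rfl
  map_smul' _ _ := rfl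

/-- the order embedding `0 ↦ 0`, `i+1 ↦ s i + 1` -/
def consEmb {N n : ℕ} (s : Fin N ↪o Fin n) : Fin (N + 1) ↪o Fin (n + 1) :=
  OrderEmbedding.ofStrictMono (Fin.cons 0 (fun i => (s i).succ) : Fin (N + 1) → Fin (n + 1)) (by
    intro i j hij
    induction i using Fin.cases with
    | zero =>
      induction j using Fin.cases with
      | zero => exact absurd hij (lt_irrefl _)
      | succ j => simp
    | succ i =>
      induction j using Fin.cases with
      | zero => exact absurd hij (by simp)
      | succ j => simpa using hij)

omit [Fintype L] [DecidableEq L] in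
theorem extend_succ {N n : ℕ} (s : Fin N ↪o Fin n) (u : Fin N → L) (l : L) (W : Fin n → L) :
    Function.extend (s.trans (Fin.succOrderEmb n)) u (Fin.cons l W : Fin (n + 1) → L) =
      Fin.cons l (Function.extend s u W) := by
  funext i
  induction i using Fin.cases with
  | zero =>
    rw [Function.extend_apply']
    · simp
    · rintro ⟨a, ha⟩
      simp at ha
  | succ i =>
    rw [Fin.cons_succ]
    by_cases h : ∃ a, s a = i
    · obtain ⟨a, rfl⟩ := h
      rw [s.injective.extend_apply]
      have := (s.trans (Fin.succOrderEmb n)).injective.extend_apply u (Fin.cons l W : Fin (n + 1) → L) a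
      simpa using this
    · rw [Function.extend_apply' _ _ _ h, Function.extend_apply']
      · simp
      · rintro ⟨a, ha⟩
        apply h
        refine ⟨a, ?_⟩
        simpa using ha

omit [Fintype L] [DecidableEq L] in
theorem extend_cons {N n : ℕ} (s : Fin N ↪o Fin n) (u : Fin N → L) (l l' : L) (W : Fin n → L) :
    Function.extend (consEmb s) (Fin.cons l u : Fin (N + 1) → L) (Fin.cons l' W : Fin (n + 1) → L) =
      Fin.cons l (Function.extend s u W) := by
  funext i
  induction i using Fin.cases with
  | zero =>
    have := (consEmb s).injective.extend_apply (Fin.cons l u : Fin (N + 1) → L)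
      (Fin.cons l' W : Fin (n + 1) → L) 0
    simpa [consEmb] using this
  | succ i =>
    rw [Fin.cons_succ]
    by_cases h : ∃ a, s a = i
    · obtain ⟨a, rfl⟩ := h
      rw [s.injective.extend_apply]
      have := (consEmb s).injective.extend_apply (Fin.cons l u : Fin (N + 1) → L)
        (Fin.cons l' W : Fin (n + 1) → L) a.succ
      simpa [consEmb] using this
    · rw [Function.extend_apply' _ _ _ h, Function.extend_apply']
      · simp
      · rintro ⟨a, ha⟩
        apply h
        induction a using Fin.cases with
        | zero =>
          simp [consEmb] at ha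
          exact absurd ha (Fin.succ_ne_zero i).symm
        | succ a =>
          refine ⟨a, ?_⟩
          simpa [consEmb] using ha

theorem slice_mem {N n : ℕ} {g : (Fin N → L) → R} {v : (Fin (n + 1) → L) → R}
    (hv : v ∈ wSol g (n + 1)) (l : L) : slice n l v ∈ wSol g n := by
  rw [mem_wSol] at hv ⊢
  intro s W
  have := hv (s.trans (Fin.succOrderEmb n)) (Fin.cons l W)
  simp only [extend_succ] at this
  exact this

theorem sum_slice {N n : ℕ} {g : (Fin (N + 1) → L) → R} {v : (Fin (n + 1) → L) → R}
    (hv : v ∈ wSol g (n + 1)) (s : Fin N ↪o Fin n) (W : Fin n → L) (l' : L) :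
    ∑ l : L, ∑ u : Fin N → L, g (Fin.cons l u) * slice n l v (Function.extend s u W) = 0 := by
  rw [mem_wSol] at hv
  have := hv (consEmb s) (Fin.cons l' W)
  rw [← (Fin.consEquiv (fun _ : Fin (N + 1) => L)).sum_comp, Fintype.sum_prod_type] at this
  have h2 : ∀ (l : L) (u : Fin N → L), (Fin.consEquiv (fun _ : Fin (N + 1) => L)) (l, u) = Fin.cons l u :=
    fun _ _ => rfl
  simp only [h2, extend_cons] at this
  exact this

theorem wSol_bound (hL : 2 ≤ Fintype.card L) (n : ℕ) : ∀ (N : ℕ) (g : (Fin N → L) → R), g ≠ 0 →
    finrank R (wSol g n) ≤ (n + 1) ^ N * (Fintype.card L - 1) ^ n := by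
  induction n with
  | zero =>
    intro N g hg
    refine (Submodule.finrank_le _).trans ?_
    simp
  | succ n ih =>
    intro N g hg
    cases N with
    | zero =>
      have : wSol g (n + 1) = ⊥ := by
        rw [eq_bot_iff]
        intro v hv
        rw [Submodule.mem_bot]
        rw [mem_wSol] at hv
        obtain ⟨u0, hu0⟩ := Function.ne_iff.mp hg
        funext W
        have h1 := hv (Fin.castLEOrderEmb (Nat.zero_le _)) W
        rw [Fintype.sum_unique] at h1
        have h2 : g default ≠ 0 := by
          have : (default : Fin 0 → L) = u0 := Subsingleton.elim _ _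
          rw [this]
          simpa using hu0
        have h3 := (mul_eq_zero.mp h1).resolve_left h2
        have h4 : Function.extend (Fin.castLEOrderEmb (Nat.zero_le (n + 1))) (default : Fin 0 → L) W = W := by
          funext i
          rw [Function.extend_apply']
          rintro ⟨a, _⟩
          exact a.elim0
        rw [h4] at h3
        simpa using h3
      rw [this]
      simp
    | succ N =>
      obtain ⟨u0, hu0⟩ := Function.ne_iff.mp hg
      set l0 : L := u0 0 with hl0
      set g0 : (Fin N → L) → R := fun u => g (Fin.cons l0 u) with hg0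
      have hg0' : g0 ≠ 0 := by
        intro h
        apply hu0
        have := congrFun h (Fin.tail u0)
        simp only [hg0, hl0, Fin.cons_self_tail] at this
        simpa using this
      -- the map to the other slices
      let Φ : wSol g (n + 1) →ₗ[R] ({l : L // l ≠ l0} → wSol g n) :=
        LinearMap.pi (fun l => LinearMap.codRestrict (wSol g n)
          ((slice n l.1).comp (wSol g (n + 1)).subtype) (fun v => slice_mem v.2 l.1))
      have hΦ : ∀ v l, ((Φ v l : wSol g n) : (Fin n → L) → R) = slice n l.1 v.1 := fun _ _ => rfl
      let Ψ : LinearMap.ker Φ →ₗ[R] wSol g0 n :=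
        LinearMap.codRestrict (wSol g0 n)
          ((slice n l0).comp ((wSol g (n + 1)).subtype.comp (LinearMap.ker Φ).subtype)) (by
            intro v
            rw [mem_wSol]
            intro s W
            have h1 := sum_slice v.1.2 s W l0
            rw [Finset.sum_eq_single l0] at h1
            · exact h1
            · intro l _ hl
              apply Finset.sum_eq_zero
              intro u _
              have h2 : Φ v.1 ⟨l, hl⟩ = 0 := by
                rw [show Φ v.1 = 0 from v.2]
                rfl
              have h3 : slice n l v.1.1 = 0 := by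
                have := hΦ v.1 ⟨l, hl⟩
                rw [h2] at this
                exact this.symm
              rw [h3]
              simp
            · intro h
              exact absurd (Finset.mem_univ _) h)
      have hΨ : Function.Injective Ψ := by
        rw [injective_iff_map_eq_zero]
        intro v hv
        apply Subtype.ext
        apply Subtype.ext
        funext w
        have h1 : ∀ l, slice n l v.1.1 = 0 := by
          intro l
          by_cases hl : l = l0
          · subst hl
            exact congrArg Subtype.val hv
          · have h2 : Φ v.1 ⟨l, hl⟩ = 0 := by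
              rw [show Φ v.1 = 0 from v.2]
              rfl
            have := hΦ v.1 ⟨l, hl⟩
            rw [h2] at this
            exact this.symm
        have h3 := congrFun (h1 (w 0)) (Fin.tail w)
        have h4 : slice n (w 0) v.1.1 (Fin.tail w) = v.1.1 w := by
          show v.1.1 (Fin.cons (w 0) (Fin.tail w)) = _
          rw [Fin.cons_self_tail]
        rw [h4] at h3
        exact h3
      have e1 : finrank R (LinearMap.ker Φ) ≤ finrank R (wSol g0 n) :=
        LinearMap.finrank_le_finrank_of_injective hΨ
      have e2 : finrank R (LinearMap.range Φ) ≤ (Fintype.card L - 1) * finrank R (wSol g n) := by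
        refine (Submodule.finrank_le _).trans ?_
        rw [Module.finrank_pi_fintype]
        simp [Fintype.card_subtype_compl]
      have e3 := LinearMap.finrank_range_add_finrank_ker Φ
      have e4 := ih (N + 1) g hg
      have e5 := ih N g0 hg0'
      obtain ⟨d, hd⟩ : ∃ d, Fintype.card L - 1 = d + 1 := ⟨Fintype.card L - 2, by omega⟩
      rw [hd] at e2 e4 e5 ⊢
      calc finrank R (wSol g (n + 1))
          = finrank R (LinearMap.range Φ) + finrank R (LinearMap.ker Φ) := e3.symm
        _ ≤ (d + 1) * ((n + 1) ^ (N + 1) * (d + 1) ^ n) + (n + 1) ^ N * (d + 1) ^ n := by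
            refine add_le_add (e2.trans ?_) (e1.trans e5)
            exact Nat.mul_le_mul_left _ e4
        _ ≤ (d + 1) * ((n + 1) ^ (N + 1) * (d + 1) ^ n) + (d + 1) * ((n + 1) ^ N * (d + 1) ^ n) := by
            refine Nat.add_le_add_left ?_ _
            exact Nat.le_mul_of_pos_left _ (by omega)
        _ = (n + 1) ^ N * (n + 1 + 1) * (d + 1) ^ (n + 1) := by ring
        _ ≤ (n + 1 + 1) ^ N * (n + 1 + 1) * (d + 1) ^ (n + 1) := by
            gcongr
            omega
        _ = (n + 1 + 1) ^ (N + 1) * (d + 1) ^ (n + 1) := by ring

theorem wordBound (hL : 2 ≤ Fintype.card L)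
    (N n : ℕ) (g : (Fin N → L) → R) (hg : g ≠ 0) (X : Submodule R ((Fin n → L) → R))
    (hX : ∀ v ∈ X, ∀ s : Fin N ↪o Fin n, ∀ W : Fin n → L,
      ∑ u : Fin N → L, g u * v (Function.extend s u W) = 0) :
    Module.finrank R X ≤ (n + 1) ^ N * (Fintype.card L - 1) ^ n := by
  have h1 : X ≤ wSol g n := fun v hv => hX v hv
  exact (Submodule.finrank_mono h1).trans (wSol_bound hL n N g hg)

end Pool.Agent.R695
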