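import Pool.Agent.R695.Basic
import Pool.Agent.R695.A

/-! Contraction closure of the span of permutation tensors, and the orthogonality argument. -/

set_option autoImplicit false

namespace Pool.Agent.R695
open Equiv

variable {k : ℕ}

theorem sum_option_fun {α β M : Type*} [Fintype α] [Fintype β] [DecidableEq α]
    [DecidableEq (Option α)] [AddCommMonoid M]
    (F : (Option α → β) → M) :
    ∑ a : Option α → β, F a = ∑ c : β, ∑ a : α → β, F (fun o => o.elim c a) := by
  rw [← Fintype.sum_prod_type']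
  refine Fintype.sum_equiv (Equiv.piOptionEquivProd (β := fun _ => β)) _ _ ?_
  intro a
  congr 1
  funext o
  rcases o with _ | i <;> rfl

def optSum (α κ : Type) : Option α ⊕ κ ≃ Option (α ⊕ κ) where
  toFun := Sum.elim (fun o => o.elim none (fun i => some (Sum.inl i))) (fun j => some (Sum.inr j))
  invFun := fun o => o.elim (Sum.inl none) (Sum.elim (fun i => Sum.inl (some i)) Sum.inr)
  left_inv := by rintro ((_ | i) | j) <;> rfl
  right_inv := by rintro (_ | (i | j)) <;> rfl

/-- partial trace over all slots of `ι₁`. -/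
theorem AA_ptrace_all (ι₁ : Type) [Fintype ι₁] :
    ∀ [DecidableEq ι₁] (κ : Type) [Fintype κ] [DecidableEq κ]
    {v : (ι₁ ⊕ κ → Fin k × Fin k) → ℝ} (_ : v ∈ AA ℝ k (ι₁ ⊕ κ)),
    (fun w : κ → Fin k × Fin k => ∑ a : ι₁ → Fin k,
      v (Sum.elim (fun i => (a i, a i)) w)) ∈ AA ℝ k κ := by
  refine Fintype.induction_empty_option (P := fun ι₁ _ => ∀ [DecidableEq ι₁] (κ : Type) [Fintype κ] [DecidableEq κ]
    {v : (ι₁ ⊕ κ → Fin k × Fin k) → ℝ} (_ : v ∈ AA ℝ k (ι₁ ⊕ κ)),
    (fun w : κ → Fin k × Fin k => ∑ a : ι₁ → Fin k,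
      v (Sum.elim (fun i => (a i, a i)) w)) ∈ AA ℝ k κ) ?_ ?_ ?_ ι₁
  · intro α β _ e ih _ κ _ _ v hv
    let _ : DecidableEq α := e.decidableEq
    let _ : Fintype α := Fintype.ofEquiv β e.symm
    have h1 := AA_relabel (Equiv.sumCongr e.symm (Equiv.refl κ)) hv
    have h2 := ih κ h1
    convert h2 using 1
    funext w
    refine Fintype.sum_equiv (e.symm.arrowCongr (Equiv.refl (Fin k))) _ _ ?_
    intro a
    congr 1
    funext o
    rcases o with i | i
    · simp
    · simp
  · intro _ κ _ _ v hv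
    have h1 := AA_relabel (Equiv.emptySum PEmpty κ) hv
    convert h1 using 1
    funext w
    rw [Fintype.sum_unique]
    congr 1
    funext o
    rcases o with i | i
    · exact i.elim
    · simp
  · intro α _ ih _ κ _ _ v hv
    classical
    have h1 := AA_relabel (optSum α κ) hv
    have h2 := AA_ptrace h1
    have h3 := ih κ h2
    convert h3 using 1
    funext w
    rw [sum_option_fun, Finset.sum_comm]
    refine Finset.sum_congr rfl fun a _ => Finset.sum_congr rfl fun c _ => ?_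
    congr 1
    funext o
    rcases o with (_ | i) | i <;> rfl

def swapCopies (ι₀ κ : Type) : Perm ((ι₀ ⊕ ι₀) ⊕ κ) :=
  Equiv.sumCongr (Equiv.sumComm ι₀ ι₀) (Equiv.refl κ)

/-- contraction of `v` with `g` (standard inner product in the slots of `ι₀`). -/
theorem AA_contract {ι₀ κ : Type} [Fintype ι₀] [DecidableEq ι₀] [Fintype κ] [DecidableEq κ]
    {g : (ι₀ → Fin k × Fin k) → ℝ} (hg : g ∈ AA ℝ k ι₀)
    {v : (ι₀ ⊕ κ → Fin k × Fin k) → ℝ} (hv : v ∈ AA ℝ k (ι₀ ⊕ κ)) :
    (fun w : κ → Fin k × Fin k => ∑ u : ι₀ → Fin k × Fin k,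
      g u * v (Sum.elim u w)) ∈ AA ℝ k κ := by
  have h1 := AA_prod_right (AA_swap hg) hv
  have h2 := AA_relabel (Equiv.sumAssoc ι₀ ι₀ κ).symm h1
  have h3 := AA_colperm (swapCopies ι₀ κ) h2
  have h4 := AA_ptrace_all (ι₀ ⊕ ι₀) κ h3
  convert h4 using 1
  funext w
  let E : (ι₀ ⊕ ι₀ → Fin k) ≃ (ι₀ → Fin k × Fin k) :=
    { toFun := fun a i => (a (Sum.inr i), a (Sum.inl i))
      invFun := fun u => Sum.elim (fun i => (u i).2) (fun i => (u i).1)
      left_inv := by
        intro a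
        funext o
        rcases o with i | i <;> rfl
      right_inv := by
        intro u
        rfl }
  refine (Fintype.sum_equiv E _ _ ?_).symm
  intro a
  congr 1
  congr 1
  funext o
  rcases o with i | i <;> rfl

/-- the span of the tensors `g ⊗ b` (`b` a combination of permutation tensors), placed in all
possible ways. -/
def II (k : ℕ) {N : ℕ} (g : (Fin N → Fin k × Fin k) → ℝ) (n : ℕ) :
    Submodule ℝ ((Fin n → Fin k × Fin k) → ℝ) :=
  Submodule.span ℝ {v | ∃ (m : ℕ) (e : Fin N ⊕ Fin m ≃ Fin n), ∃ b ∈ AA ℝ k (Fin m),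
    v = fun u => g (fun i => u (e (Sum.inl i))) * b (fun i => u (e (Sum.inr i)))}

theorem II_le {N : ℕ} {g : (Fin N → Fin k × Fin k) → ℝ} (hg : g ∈ AA ℝ k (Fin N)) (n : ℕ) :
    II k g n ≤ AA ℝ k (Fin n) := by
  refine Submodule.span_le.mpr ?_
  rintro _ ⟨m, e, b, hb, rfl⟩
  exact AA_relabel e (AA_prod_right hg hb)

/-- the pairing `v ↦ (w ↦ ∑ v u * w u)` restricted to `AA` and `II`. -/
noncomputable def pairing {U : Type} [Fintype U] (A I : Submodule ℝ (U → ℝ)) :
    A →ₗ[ℝ] (I →ₗ[ℝ] ℝ) :=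
  LinearMap.mk₂ ℝ (fun v w => ∑ u, v.1 u * w.1 u)
    (by intro a b c; simp [add_mul, Finset.sum_add_distrib])
    (by intro a b c; simp [mul_assoc, Finset.mul_sum])
    (by intro a b c; simp [mul_add, Finset.sum_add_distrib])
    (by intro a b c; simp [mul_left_comm, Finset.mul_sum])

theorem finrank_le_of_orth {U : Type} [Fintype U] (A I : Submodule ℝ (U → ℝ)) (b : ℕ)
    (h : ∀ X : Submodule ℝ (U → ℝ), X ≤ A → (∀ v ∈ X, ∀ w ∈ I, ∑ u, v u * w u = 0) →
      Module.finrank ℝ X ≤ b) :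
    Module.finrank ℝ A ≤ Module.finrank ℝ I + b := by
  have h1 := LinearMap.finrank_range_add_finrank_ker (pairing A I)
  have h2 : Module.finrank ℝ (LinearMap.range (pairing A I)) ≤ Module.finrank ℝ I := by
    calc _ ≤ Module.finrank ℝ (I →ₗ[ℝ] ℝ) := Submodule.finrank_le _
      _ = Module.finrank ℝ I := Subspace.dual_finrank_eq
  have h3 : Module.finrank ℝ (LinearMap.ker (pairing A I)) ≤ b := by
    have h4 : Module.finrank ℝ ((LinearMap.ker (pairing A I)).map A.subtype) =
        Module.finrank ℝ (LinearMap.ker (pairing A I)) :=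
      Submodule.finrank_map_subtype_eq A _
    rw [← h4]
    refine h _ ?_ ?_
    · rintro _ ⟨v, -, rfl⟩
      exact v.2
    · rintro _ ⟨v, hv, rfl⟩ w hw
      have := LinearMap.congr_fun (LinearMap.mem_ker.mp hv) ⟨w, hw⟩
      exact this
  omega

theorem exists_split {N n : ℕ} (s : Fin N ↪o Fin n) :
    ∃ (m : ℕ) (e : Fin N ⊕ Fin m ≃ Fin n), ∀ j, e (Sum.inl j) = s j := by
  classical
  let A : Set (Fin n) := Set.range s
  obtain ⟨m, ⟨f⟩⟩ : ∃ m, Nonempty (Fin m ≃ (Aᶜ : Set (Fin n))) :=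
    ⟨_, ⟨(Fintype.equivFin _).symm⟩⟩
  refine ⟨m, (Equiv.sumCongr (Equiv.ofInjective s s.injective) f).trans (Equiv.Set.sumCompl A), ?_⟩
  intro j
  simp [A]

/-- the main bound: almost all of `AA` is in `II`. -/
theorem finrank_AA_le {N : ℕ} {g : (Fin N → Fin k × Fin k) → ℝ} (hg : g ∈ AA ℝ k (Fin N))
    (hg0 : g ≠ 0) (hk : 2 ≤ k) (n : ℕ) :
    Module.finrank ℝ (AA ℝ k (Fin n)) ≤ Module.finrank ℝ (II k g n) +
      (n + 1) ^ N * (k ^ 2 - 1) ^ n := by
  apply finrank_le_of_orth
  intro X hXA hXI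
  have hL : 2 ≤ Fintype.card (Fin k × Fin k) := by
    rw [Fintype.card_prod, Fintype.card_fin]
    nlinarith
  have := wordBound hL N n g hg0 X ?_
  · simpa [Fintype.card_prod, sq] using this
  intro v hv s W
  obtain ⟨m, e, he⟩ := exists_split s
  have h1 := AA_relabel e.symm (hXA hv)
  have h2 := AA_contract hg h1
  set c : (Fin m → Fin k × Fin k) → ℝ := fun w => ∑ u : Fin N → Fin k × Fin k,
      g u * v (fun i => (Sum.elim u w : Fin N ⊕ Fin m → Fin k × Fin k) (e.symm i)) with hc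
  have h3 := hXI v hv _ (Submodule.subset_span ⟨m, e, c, h2, rfl⟩)
  have h4 : ∑ w : Fin m → Fin k × Fin k, c w * c w = 0 := by
    rw [← h3]
    have h5 : ∀ w, c w * c w = ∑ u : Fin N → Fin k × Fin k,
      v (fun i => (Sum.elim u w : Fin N ⊕ Fin m → Fin k × Fin k) (e.symm i)) * (g u * c w) := by
      intro w
      conv_lhs => rw [hc]
      simp only [Finset.sum_mul]
      refine Finset.sum_congr rfl fun u _ => by ring
    simp only [h5]
    rw [Finset.sum_comm, ← Fintype.sum_prod_type']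
    refine Fintype.sum_equiv ((Equiv.sumArrowEquivProdArrow (Fin N) (Fin m) _).symm.trans
      (e.arrowCongr (Equiv.refl _))) _ _ ?_
    rintro ⟨u, w⟩
    simp [Equiv.sumArrowEquivProdArrow, Equiv.arrowCongr, Function.comp_def]
  have h6 : c = 0 := by
    funext w
    have := (Finset.sum_eq_zero_iff_of_nonneg (fun w _ => mul_self_nonneg (c w))).mp h4 w
      (Finset.mem_univ w)
    simpa using this
  have h7 := congrFun h6 (fun i => W (e (Sum.inr i)))
  rw [hc] at h7
  simp only [Pi.zero_apply] at h7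
  rw [← h7]
  refine Finset.sum_congr rfl fun u _ => ?_
  congr 2
  funext i
  obtain ⟨o, rfl⟩ := e.surjective i
  rw [Equiv.symm_apply_apply]
  rcases o with j | j
  · rw [he, s.injective.extend_apply]
    rfl
  · rw [Function.extend_apply']
    · rfl
    · rintro ⟨a, ha⟩
      rw [← he] at ha
      simpa using e.injective ha

end Pool.Agent.R695
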