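import Pool.Agent.R695.Defs

/-! Basic closure properties of the span of permutation tensors. -/

set_option autoImplicit false

namespace Pool.Agent.R695
open Equiv

variable {k : ℕ}

theorem span_map_mem {V W : Type*} [AddCommGroup V] [Module ℝ V] [AddCommGroup W] [Module ℝ W]
    (Φ : V →ₗ[ℝ] W) {S : Set V} {T : Submodule ℝ W} (h : ∀ s ∈ S, Φ s ∈ T) {v : V}
    (hv : v ∈ Submodule.span ℝ S) : Φ v ∈ T :=
  (Submodule.span_le.mpr (show S ⊆ T.comap Φ from h)) hv

theorem Pm_mem {ι : Type} [Fintype ι] (τ : Perm ι) : Pm ℝ k τ ∈ AA ℝ k ι :=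
  Submodule.subset_span ⟨τ, rfl⟩

theorem AA_map_mem {ι : Type} [Fintype ι] {W : Type*} [AddCommGroup W] [Module ℝ W]
    (Φ : ((ι → Fin k × Fin k) → ℝ) →ₗ[ℝ] W) {T : Submodule ℝ W}
    (h : ∀ τ : Perm ι, Φ (Pm ℝ k τ) ∈ T) {v : (ι → Fin k × Fin k) → ℝ}
    (hv : v ∈ AA ℝ k ι) : Φ v ∈ T :=
  span_map_mem Φ (by rintro _ ⟨τ, rfl⟩; exact h τ) hv

theorem AA_relabel {ι κ : Type} [Fintype ι] [Fintype κ] (e : ι ≃ κ)
    {v : (ι → Fin k × Fin k) → ℝ} (hv : v ∈ AA ℝ k ι) :
    (fun u : κ → Fin k × Fin k => v (fun i => u (e i))) ∈ AA ℝ k κ := by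
  refine AA_map_mem (LinearMap.funLeft ℝ ℝ
    (fun u : κ → Fin k × Fin k => (fun i => u (e i)))) ?_ hv
  intro τ
  have : LinearMap.funLeft ℝ ℝ (fun u : κ → Fin k × Fin k => (fun i => u (e i)))
      (Pm ℝ k τ) = Pm ℝ k (e.permCongr τ) := by
    funext u
    simp only [LinearMap.funLeft_apply, Pm]
    congr 1
    apply propext
    constructor
    · intro h i
      have := h (e.symm i)
      simpa [Equiv.permCongr_apply] using this
    · intro h i
      have := h (e i)
      simpa [Equiv.permCongr_apply] using this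
  rw [this]
  exact Pm_mem _

theorem AA_swap {ι : Type} [Fintype ι]
    {v : (ι → Fin k × Fin k) → ℝ} (hv : v ∈ AA ℝ k ι) :
    (fun u : ι → Fin k × Fin k => v (fun i => (u i).swap)) ∈ AA ℝ k ι := by
  refine AA_map_mem (LinearMap.funLeft ℝ ℝ
    (fun u : ι → Fin k × Fin k => (fun i => (u i).swap))) ?_ hv
  intro τ
  have : LinearMap.funLeft ℝ ℝ (fun u : ι → Fin k × Fin k => (fun i => (u i).swap))
      (Pm ℝ k τ) = Pm ℝ k τ⁻¹ := by
    funext u
    simp only [LinearMap.funLeft_apply, Pm]
    congr 1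
    apply propext
    constructor
    · intro h i
      have := h (τ⁻¹ i)
      simpa using this.symm
    · intro h i
      have := h (τ i)
      simpa using this.symm
  rw [this]
  exact Pm_mem _

theorem AA_colperm {ι : Type} [Fintype ι] (π : Perm ι)
    {v : (ι → Fin k × Fin k) → ℝ} (hv : v ∈ AA ℝ k ι) :
    (fun u : ι → Fin k × Fin k => v (fun i => ((u i).1, (u (π i)).2))) ∈ AA ℝ k ι := by
  refine AA_map_mem (LinearMap.funLeft ℝ ℝ
    (fun u : ι → Fin k × Fin k => (fun i => ((u i).1, (u (π i)).2)))) ?_ hv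
  intro τ
  have : LinearMap.funLeft ℝ ℝ (fun u : ι → Fin k × Fin k => (fun i => ((u i).1, (u (π i)).2)))
      (Pm ℝ k τ) = Pm ℝ k (τ * π⁻¹) := by
    funext u
    simp only [LinearMap.funLeft_apply, Pm]
    congr 1
    apply propext
    constructor
    · intro h i
      have := h (π⁻¹ i)
      simpa using this
    · intro h i
      have := h (π i)
      simpa using this
  rw [this]
  exact Pm_mem _

theorem AA_prod_right {ι κ : Type} [Fintype ι] [Fintype κ]
    {v : (ι → Fin k × Fin k) → ℝ} (hv : v ∈ AA ℝ k ι)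
    {w : (κ → Fin k × Fin k) → ℝ} (hw : w ∈ AA ℝ k κ) :
    (fun u : ι ⊕ κ → Fin k × Fin k => v (fun i => u (Sum.inl i)) * w (fun i => u (Sum.inr i))) ∈
      AA ℝ k (ι ⊕ κ) := by
  have key : ∀ (σ : Perm ι) (τ : Perm κ), (fun u : ι ⊕ κ → Fin k × Fin k =>
      Pm ℝ k σ (fun i => u (Sum.inl i)) * Pm ℝ k τ (fun i => u (Sum.inr i))) ∈
      AA ℝ k (ι ⊕ κ) := by
    intro σ τ
    have : (fun u : ι ⊕ κ → Fin k × Fin k =>
      Pm ℝ k σ (fun i => u (Sum.inl i)) * Pm ℝ k τ (fun i => u (Sum.inr i))) =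
      Pm ℝ k (Equiv.sumCongr σ τ) := by
      funext u
      simp only [Pm]
      rw [ite_zero_mul_ite_zero]
      simp only [mul_one]
      congr 1
      apply propext
      constructor
      · rintro ⟨h1, h2⟩ i
        rcases i with i | i
        · simpa using h1 i
        · simpa using h2 i
      · intro h
        exact ⟨fun i => by simpa using h (Sum.inl i), fun i => by simpa using h (Sum.inr i)⟩
    rw [this]
    exact Pm_mem _
  have key2 : ∀ (τ : Perm κ), (fun u : ι ⊕ κ → Fin k × Fin k =>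
      v (fun i => u (Sum.inl i)) * Pm ℝ k τ (fun i => u (Sum.inr i))) ∈
      AA ℝ k (ι ⊕ κ) := by
    intro τ
    have := AA_map_mem ((LinearMap.mulRight ℝ (fun u : ι ⊕ κ → Fin k × Fin k =>
        Pm ℝ k τ (fun i => u (Sum.inr i)))).comp
      (LinearMap.funLeft ℝ ℝ (fun u : ι ⊕ κ → Fin k × Fin k => (fun i => u (Sum.inl i)))))
      (T := AA ℝ k (ι ⊕ κ)) (fun σ => key σ τ) hv
    exact this
  have := AA_map_mem ((LinearMap.mulLeft ℝ (fun u : ι ⊕ κ → Fin k × Fin k =>
        v (fun i => u (Sum.inl i)))).comp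
      (LinearMap.funLeft ℝ ℝ (fun u : ι ⊕ κ → Fin k × Fin k => (fun i => u (Sum.inr i)))))
      (T := AA ℝ k (ι ⊕ κ)) (fun τ => key2 τ) hw
  exact this

/-- every permutation of `Option κ` is `optionCongr τ'` or `swap none (some j) * optionCongr τ'`. -/
theorem perm_option_cases {κ : Type} [DecidableEq κ] (τ : Perm (Option κ)) :
    ∃ τ' : Perm κ, τ = Equiv.optionCongr τ' ∨
      ∃ j, τ = swap none (some j) * Equiv.optionCongr τ' := by
  refine ⟨(Equiv.Perm.decomposeOption τ).2, ?_⟩
  have h := (Equiv.Perm.decomposeOption.symm_apply_apply τ).symm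
  rw [Equiv.Perm.decomposeOption_symm_apply] at h
  rcases h1 : (Equiv.Perm.decomposeOption τ).1 with _ | j
  · left
    rw [h1] at h
    rw [h]
    simp
    rfl
  · right
    refine ⟨j, ?_⟩
    rw [h1] at h
    exact h

theorem perm_option_cases' {κ : Type} [DecidableEq κ] (τ : Perm (Option κ)) :
    ∃ τ' : Perm κ, τ = Equiv.optionCongr τ' ∨
      ∃ j, τ = Equiv.optionCongr τ' * swap (some j) none := by
  obtain ⟨τ', h | ⟨j, h⟩⟩ := perm_option_cases τ⁻¹
  · refine ⟨τ'⁻¹, Or.inl ?_⟩
    rw [← inv_inv τ, h]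
    rfl
  · refine ⟨τ'⁻¹, Or.inr ⟨j, ?_⟩⟩
    rw [← inv_inv τ, h, mul_inv_rev, swap_inv, swap_comm]
    rfl

theorem AA_ptrace {κ : Type} [Fintype κ] [DecidableEq κ]
    {v : (Option κ → Fin k × Fin k) → ℝ} (hv : v ∈ AA ℝ k (Option κ)) :
    (fun w : κ → Fin k × Fin k => ∑ c : Fin k, v (fun o => o.elim (c, c) w)) ∈ AA ℝ k κ := by
  let Φ : ((Option κ → Fin k × Fin k) → ℝ) →ₗ[ℝ] ((κ → Fin k × Fin k) → ℝ) :=
    ∑ c : Fin k, LinearMap.funLeft ℝ ℝ
      (fun (w : κ → Fin k × Fin k) (o : Option κ) => o.elim (c, c) w)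
  have hΦ : ∀ v, Φ v = (fun w : κ → Fin k × Fin k => ∑ c : Fin k, v (fun o => o.elim (c, c) w)) := by
    intro v
    funext w
    simp [Φ, LinearMap.funLeft_apply]
  rw [← hΦ]
  refine AA_map_mem Φ ?_ hv
  intro τ
  rw [hΦ]
  obtain ⟨τ', h | ⟨j, h⟩⟩ := perm_option_cases τ
  · have : (fun w : κ → Fin k × Fin k => ∑ c : Fin k, Pm ℝ k τ (fun o => o.elim (c, c) w)) =
        (k : ℝ) • Pm ℝ k τ' := by
      funext w
      have h1 : ∀ c : Fin k, Pm ℝ k τ (fun o => o.elim (c, c) w) = Pm ℝ k τ' w := by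
        intro c
        simp only [Pm]
        congr 1
        apply propext
        rw [h]
        constructor
        · intro h i
          simpa using h (some i)
        · intro h o
          rcases o with _ | i
          · simp
          · simpa using h i
      simp [h1]
    rw [this]
    exact Submodule.smul_mem _ _ (Pm_mem _)
  · have : (fun w : κ → Fin k × Fin k => ∑ c : Fin k, Pm ℝ k τ (fun o => o.elim (c, c) w)) =
        Pm ℝ k τ' := by
      funext w
      have h1 : ∀ c : Fin k, Pm ℝ k τ (fun o => o.elim (c, c) w) =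
          if c = (w j).1 then Pm ℝ k τ' w else 0 := by
        intro c
        simp only [Pm]
        rw [← ite_and]
        congr 1
        apply propext
        rw [h]
        constructor
        · intro h
          have h0 : c = (w j).1 := by simpa using h none
          refine ⟨h0, fun i => ?_⟩
          have h2 := h (some i)
          simp only [Option.elim, Perm.coe_mul, Function.comp, Equiv.optionCongr_apply,
            Option.map_some] at h2
          by_cases hj : τ' i = j
          · rw [hj, swap_apply_right] at h2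
            rw [h2, hj]
            exact h0
          · rw [swap_apply_of_ne_of_ne (by simp) (by simpa using hj)] at h2
            exact h2
        · rintro ⟨h0, h⟩ o
          rcases o with _ | i
          · simpa using h0
          · simp only [Option.elim, Perm.coe_mul, Function.comp, Equiv.optionCongr_apply,
              Option.map_some]
            by_cases hj : τ' i = j
            · rw [hj, swap_apply_right]
              rw [h i, hj]
              exact h0.symm
            · rw [swap_apply_of_ne_of_ne (by simp) (by simpa using hj)]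
              exact h i
      simp [h1]
    rw [this]
    exact Pm_mem _

end Pool.Agent.R695
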