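import Mathlib

/-! Definitions for the ratio of central to ordinary codimensions of matrix algebras. -/

set_option autoImplicit false

namespace Pool.Agent.R695

/-- The permutation tensor: its value at the word `u` of index pairs is `1` if the second index at
each place `i` is the first index at the place `τ i`, and `0` otherwise. -/
def Pm (R : Type) [CommRing R] (k : ℕ) {ι : Type} [Fintype ι] (τ : Equiv.Perm ι) :
    (ι → Fin k × Fin k) → R :=
  fun u => if ∀ i, (u i).2 = (u (τ i)).1 then 1 else 0

/-- The span of all permutation tensors. -/
def AA (R : Type) [CommRing R] (k : ℕ) (ι : Type) [Fintype ι] :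
    Submodule R ((ι → Fin k × Fin k) → R) :=
  Submodule.span R (Set.range fun τ : Equiv.Perm ι => Pm R k τ)

end Pool.Agent.R695
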