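import Mathlib
import Pool.Agent.R695.Defs

/-! Lower bound for the dimension of the span of the permutation tensors, by the Gram matrix of the
permutation tensors and the orbit counting lemma. -/

set_option autoImplicit false

namespace Pool.Agent.R695

open Finset

/-- The square of the trace of a Gram matrix is at most the rank times the sum of the squares of
its entries. -/
theorem gram_rank {S E : Type} [Fintype S] [NormedAddCommGroup E] [InnerProductSpace ℝ E]
    [FiniteDimensional ℝ E] (W : Submodule ℝ E) (v : S → E) (hv : ∀ s, v s ∈ W) :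
    (∑ s, inner ℝ (v s) (v s)) ^ 2 ≤
      (Module.finrank ℝ W : ℝ) * ∑ s, ∑ s', (inner ℝ (v s) (v s')) ^ 2 := by
  classical
  set b := stdOrthonormalBasis ℝ W with hb
  let w : S → W := fun s => ⟨v s, hv s⟩
  have hw : ∀ s s', inner ℝ (v s) (v s') = ∑ i, inner ℝ (w s) (b i) * inner ℝ (w s') (b i) := by
    intro s s'
    have h1 : inner ℝ (v s) (v s') = inner ℝ (w s) (w s') := rfl
    rw [h1, ← b.sum_inner_mul_inner (w s) (w s')]
    refine Finset.sum_congr rfl fun i _ => ?_
    rw [real_inner_comm (w s') (b i)]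
  let M : Fin (Module.finrank ℝ W) → Fin (Module.finrank ℝ W) → ℝ :=
    fun i j => ∑ s, inner ℝ (w s) (b i) * inner ℝ (w s) (b j)
  have h1 : ∑ s, inner ℝ (v s) (v s) = ∑ i, M i i := by
    rw [Finset.sum_comm]
    exact Finset.sum_congr rfl fun s _ => hw s s
  have h2 : ∑ s, ∑ s', (inner ℝ (v s) (v s')) ^ 2 = ∑ i, ∑ j, (M i j) ^ 2 := by
    have h3 : ∀ s s', (inner ℝ (v s) (v s')) ^ 2 = ∑ i, ∑ j,
        (inner ℝ (w s) (b i) * inner ℝ (w s) (b j)) *
          (inner ℝ (w s') (b i) * inner ℝ (w s') (b j)) := by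
      intro s s'
      rw [hw s s', sq, Finset.sum_mul_sum]
      refine Finset.sum_congr rfl fun i _ => Finset.sum_congr rfl fun j _ => ?_
      ring
    have h4 : ∀ i j, (M i j) ^ 2 = ∑ s, ∑ s',
        (inner ℝ (w s) (b i) * inner ℝ (w s) (b j)) *
          (inner ℝ (w s') (b i) * inner ℝ (w s') (b j)) := by
      intro i j
      rw [sq, Finset.sum_mul_sum]
    simp_rw [h3, h4]
    calc ∑ s, ∑ s', ∑ i, ∑ j, (inner ℝ (w s) (b i) * inner ℝ (w s) (b j)) *
          (inner ℝ (w s') (b i) * inner ℝ (w s') (b j))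
        = ∑ s, ∑ i, ∑ s', ∑ j, (inner ℝ (w s) (b i) * inner ℝ (w s) (b j)) *
          (inner ℝ (w s') (b i) * inner ℝ (w s') (b j)) :=
          Finset.sum_congr rfl fun s _ => Finset.sum_comm
      _ = ∑ i, ∑ s, ∑ s', ∑ j, (inner ℝ (w s) (b i) * inner ℝ (w s) (b j)) *
          (inner ℝ (w s') (b i) * inner ℝ (w s') (b j)) := Finset.sum_comm
      _ = ∑ i, ∑ s, ∑ j, ∑ s', (inner ℝ (w s) (b i) * inner ℝ (w s) (b j)) *
          (inner ℝ (w s') (b i) * inner ℝ (w s') (b j)) :=
          Finset.sum_congr rfl fun i _ => Finset.sum_congr rfl fun s _ => Finset.sum_comm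
      _ = _ := Finset.sum_congr rfl fun i _ => Finset.sum_comm
  rw [h1, h2]
  have h5 : (∑ i, M i i) ^ 2 ≤ (Module.finrank ℝ W : ℝ) * ∑ i, (M i i) ^ 2 := by
    have := sq_sum_le_card_mul_sum_sq (s := (Finset.univ : Finset (Fin (Module.finrank ℝ W))))
      (f := fun i => M i i)
    simpa using this
  refine h5.trans (mul_le_mul_of_nonneg_left ?_ (Nat.cast_nonneg _))
  refine Finset.sum_le_sum fun i _ => ?_
  exact Finset.single_le_sum (f := fun j => (M i j) ^ 2) (fun j _ => sq_nonneg _)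
    (Finset.mem_univ i)

/-- functions that are composed in the same way with two permutations -/
def Agree {n : ℕ} (C : Type) (σ τ : Equiv.Perm (Fin n)) : Type :=
  {p : Fin n → C // ∀ i, p (σ i) = p (τ i)}

noncomputable instance {n : ℕ} (C : Type) [Fintype C] (σ τ : Equiv.Perm (Fin n)) :
    Fintype (Agree C σ τ) := by
  classical
  exact Subtype.fintype _

/-- The Gram matrix of the permutation tensors. -/
theorem sum_Pm (k n : ℕ) (σ τ : Equiv.Perm (Fin n)) :
    ∑ u, Pm ℝ k σ u * Pm ℝ k τ u = (Fintype.card (Agree (Fin k) σ τ) : ℝ) := by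
  classical
  have h1 : ∀ u : Fin n → Fin k × Fin k, Pm ℝ k σ u * Pm ℝ k τ u =
      if ((∀ i, (u i).2 = (u (σ i)).1) ∧ ∀ i, (u i).2 = (u (τ i)).1) then (1 : ℝ) else 0 := by
    intro u
    unfold Pm
    rw [ite_zero_mul_ite_zero, mul_one]
    congr
  simp_rw [h1]
  rw [Finset.sum_boole]
  norm_cast
  rw [← Fintype.card_subtype]
  refine Fintype.card_congr
    { toFun := fun u => ⟨fun i => (u.1 i).1, fun i => by
        show (u.1 (σ i)).1 = (u.1 (τ i)).1
        rw [← u.2.1 i, ← u.2.2 i]⟩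
      invFun := fun p => ⟨fun i => (p.1 i, p.1 (σ i)), fun i => rfl, fun i => p.2 i⟩
      left_inv := ?_
      right_inv := ?_ }
  · rintro ⟨u, hu⟩
    apply Subtype.ext
    funext i
    exact Prod.ext rfl (hu.1 i).symm
  · rintro ⟨p, hp⟩
    rfl

theorem card_sq (k n : ℕ) (σ τ : Equiv.Perm (Fin n)) :
    Fintype.card (Agree (Fin k) σ τ) ^ 2 = Fintype.card (Agree (Fin k × Fin k) σ τ) := by
  classical
  rw [sq, ← Fintype.card_prod]
  refine Fintype.card_congr
    { toFun := fun q => ⟨fun i => (q.1.1 i, q.2.1 i), fun i => Prod.ext (q.1.2 i) (q.2.2 i)⟩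
      invFun := fun q => (⟨fun i => (q.1 i).1, fun i => congrArg Prod.fst (q.2 i)⟩,
        ⟨fun i => (q.1 i).2, fun i => congrArg Prod.snd (q.2 i)⟩)
      left_inv := fun q => rfl
      right_inv := fun q => rfl }

theorem card_agree_self (k n : ℕ) (σ : Equiv.Perm (Fin n)) :
    Fintype.card (Agree (Fin k) σ σ) = k ^ n := by
  classical
  have : Fintype.card (Agree (Fin k) σ σ) = Fintype.card (Fin n → Fin k) :=
    Fintype.card_congr
      { toFun := fun p => p.1
        invFun := fun p => ⟨p, fun i => rfl⟩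
        left_inv := fun p => rfl
        right_inv := fun p => rfl }
  rw [this]
  simp

theorem card_agree_mul {n : ℕ} (C : Type) [Fintype C] (σ τ : Equiv.Perm (Fin n)) :
    Fintype.card (Agree C (σ * τ) τ) = Fintype.card (Agree C σ 1) := by
  classical
  refine Fintype.card_congr
    { toFun := fun p => ⟨p.1, fun i => ?_⟩
      invFun := fun p => ⟨p.1, fun i => ?_⟩
      left_inv := fun p => rfl
      right_inv := fun p => rfl }
  · have h := p.2 (τ⁻¹ i)
    simpa using h
  · have h := p.2 (τ i)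
    simpa using h

/-- orbit counting -/
theorem burnside_le (n : ℕ) (C : Type) [Fintype C] :
    ∑ σ : Equiv.Perm (Fin n), Fintype.card (Agree C σ 1) ≤
      (n + 1) ^ Fintype.card C * Nat.factorial n := by
  classical
  let act : MulAction (Equiv.Perm (Fin n)) (Fin n → C) := arrowAction
  let _ := act
  have hsm : ∀ (σ : Equiv.Perm (Fin n)) (q : Fin n → C) (i : Fin n), (σ • q) i = q (σ⁻¹ i) :=
    fun _ _ _ => rfl
  have : Finite (Quotient (MulAction.orbitRel (Equiv.Perm (Fin n)) (Fin n → C))) :=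
    Quotient.finite _
  let _ : Fintype (Quotient (MulAction.orbitRel (Equiv.Perm (Fin n)) (Fin n → C))) :=
    Fintype.ofFinite _
  have hB := MulAction.sum_card_fixedBy_eq_card_orbits_mul_card_group (Equiv.Perm (Fin n))
    (Fin n → C)
  have h1 : ∑ σ : Equiv.Perm (Fin n), Fintype.card (Agree C σ 1) =
      ∑ σ : Equiv.Perm (Fin n), Fintype.card (MulAction.fixedBy (Fin n → C) σ) := by
    refine Finset.sum_congr rfl fun σ _ => ?_
    refine Fintype.card_congr
      { toFun := fun p => ⟨p.1, ?_⟩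
        invFun := fun p => ⟨p.1, fun i => ?_⟩
        left_inv := fun p => rfl
        right_inv := fun p => rfl }
    · rw [MulAction.mem_fixedBy]
      funext i
      rw [hsm]
      have h := p.2 (σ⁻¹ i)
      simpa using h.symm
    · have h := p.2
      rw [MulAction.mem_fixedBy] at h
      have h' := congrFun h (σ i)
      rw [hsm] at h'
      simpa using h'.symm
  rw [h1, hB]
  have h2 : Fintype.card (Equiv.Perm (Fin n)) = Nat.factorial n := by
    rw [Fintype.card_perm, Fintype.card_fin]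
  rw [h2]
  refine Nat.mul_le_mul_right _ ?_
  have hcnt : ∀ (q : Fin n → C) (c : C), (Finset.univ.filter fun i => q i = c).card < n + 1 := by
    intro q c
    exact Nat.lt_succ_of_le ((Finset.card_le_univ _).trans (by simp))
  let F : Quotient (MulAction.orbitRel (Equiv.Perm (Fin n)) (Fin n → C)) → (C → Fin (n + 1)) :=
    fun x => fun c => ⟨(Finset.univ.filter fun i => x.out i = c).card, hcnt _ _⟩
  have hF : Function.Injective F := by
    intro x y hxy
    have h3 : ∀ c, (Finset.univ.filter fun i => x.out i = c).card =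
        (Finset.univ.filter fun i => y.out i = c).card := by
      intro c
      have := congrFun hxy c
      exact congrArg Fin.val this
    have h4 : ∀ c, Nonempty ({i // x.out i = c} ≃ {i // y.out i = c}) := by
      intro c
      refine ⟨Fintype.equivOfCardEq ?_⟩
      rw [Fintype.card_subtype, Fintype.card_subtype]
      exact h3 c
    let e : ∀ c, {i // x.out i = c} ≃ {i // y.out i = c} := fun c => (h4 c).some
    let σ : Equiv.Perm (Fin n) := Equiv.ofFiberEquiv e
    have h5 : ∀ i, y.out (σ i) = x.out i := fun i => Equiv.ofFiberEquiv_map e i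
    rw [← Quotient.out_eq x, ← Quotient.out_eq y]
    apply Quotient.sound
    rw [← Quotient.eq_iff_equiv] 
    apply Quotient.sound
    show x.out ∈ MulAction.orbit _ y.out
    refine ⟨σ⁻¹, ?_⟩
    funext i
    show (σ⁻¹ • y.out) i = x.out i
    rw [hsm, inv_inv, h5]
  have h6 := Fintype.card_le_of_injective F hF
  simpa using h6

theorem dimLower (k n : ℕ) : k ^ (2 * n) ≤ Module.finrank ℝ (AA ℝ k (Fin n)) * (n + 1) ^ (k ^ 2) := by
  classical
  let U := Fin n → Fin k × Fin k
  let L : (U → ℝ) ≃ₗ[ℝ] EuclideanSpace ℝ U := (WithLp.linearEquiv 2 ℝ (U → ℝ)).symm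
  let W : Submodule ℝ (EuclideanSpace ℝ U) := (AA ℝ k (Fin n)).map L.toLinearMap
  have hdim : Module.finrank ℝ W = Module.finrank ℝ (AA ℝ k (Fin n)) := L.finrank_map_eq _
  let v : Equiv.Perm (Fin n) → EuclideanSpace ℝ U := fun τ => L (Pm ℝ k τ)
  have hv : ∀ τ, v τ ∈ W := fun τ =>
    Submodule.mem_map_of_mem (Submodule.subset_span (Set.mem_range_self τ))
  have hin : ∀ σ τ, inner ℝ (v σ) (v τ) = (Fintype.card (Agree (Fin k) σ τ) : ℝ) := by
    intro σ τ
    rw [← sum_Pm k n σ τ, EuclideanSpace.inner_eq_star_dotProduct]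
    simp only [v, L, dotProduct]
    refine Finset.sum_congr rfl fun u _ => ?_
    simp [mul_comm]
  have hG := gram_rank W v hv
  rw [hdim] at hG
  simp_rw [hin] at hG
  have h1 : ∑ τ : Equiv.Perm (Fin n), (Fintype.card (Agree (Fin k) τ τ) : ℝ) =
      (Nat.factorial n : ℝ) * (k : ℝ) ^ n := by
    simp_rw [card_agree_self]
    rw [Finset.sum_const, Finset.card_univ, Fintype.card_perm, Fintype.card_fin, nsmul_eq_mul]
    push_cast
    ring
  have h2 : ∑ σ : Equiv.Perm (Fin n), ∑ τ : Equiv.Perm (Fin n),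
      (Fintype.card (Agree (Fin k) σ τ) : ℝ) ^ 2 ≤
        (Nat.factorial n : ℝ) ^ 2 * ((n : ℝ) + 1) ^ (k ^ 2) := by
    have h3 : ∑ σ : Equiv.Perm (Fin n), ∑ τ : Equiv.Perm (Fin n),
        (Fintype.card (Agree (Fin k) σ τ)) ^ 2 ≤ (Nat.factorial n) ^ 2 * (n + 1) ^ (k ^ 2) := by
      rw [Finset.sum_comm]
      have h4 : ∀ τ : Equiv.Perm (Fin n), ∑ σ : Equiv.Perm (Fin n),
          (Fintype.card (Agree (Fin k) σ τ)) ^ 2 ≤ (n + 1) ^ (k ^ 2) * Nat.factorial n := by
        intro τ
        calc ∑ σ : Equiv.Perm (Fin n), (Fintype.card (Agree (Fin k) σ τ)) ^ 2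
            = ∑ σ : Equiv.Perm (Fin n), Fintype.card (Agree (Fin k × Fin k) σ τ) :=
              Finset.sum_congr rfl fun σ _ => card_sq k n σ τ
          _ = ∑ σ : Equiv.Perm (Fin n),
                Fintype.card (Agree (Fin k × Fin k) (Equiv.mulRight τ σ) τ) :=
              (Equiv.sum_comp (Equiv.mulRight τ)
                fun σ => Fintype.card (Agree (Fin k × Fin k) σ τ)).symm
          _ = ∑ σ : Equiv.Perm (Fin n), Fintype.card (Agree (Fin k × Fin k) σ 1) :=
              Finset.sum_congr rfl fun σ _ => card_agree_mul (Fin k × Fin k) σ τ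
          _ ≤ (n + 1) ^ (k ^ 2) * Nat.factorial n := by
              have := burnside_le n (Fin k × Fin k)
              simpa [sq] using this
      refine (Finset.sum_le_sum fun τ _ => h4 τ).trans (le_of_eq ?_)
      rw [Finset.sum_const, Finset.card_univ, Fintype.card_perm, Fintype.card_fin, smul_eq_mul]
      ring
    exact_mod_cast h3
  rw [h1] at hG
  have hf : (0 : ℝ) < (Nat.factorial n : ℝ) := by exact_mod_cast Nat.factorial_pos n
  have h5 : ((Nat.factorial n : ℝ) * (k : ℝ) ^ n) ^ 2 ≤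
      (Module.finrank ℝ (AA ℝ k (Fin n)) : ℝ) *
        ((Nat.factorial n : ℝ) ^ 2 * ((n : ℝ) + 1) ^ (k ^ 2)) :=
    hG.trans (mul_le_mul_of_nonneg_left h2 (Nat.cast_nonneg _))
  have h6 : (k : ℝ) ^ (2 * n) ≤
      (Module.finrank ℝ (AA ℝ k (Fin n)) : ℝ) * ((n : ℝ) + 1) ^ (k ^ 2) := by
    have h7 : (Nat.factorial n : ℝ) ^ 2 * (k : ℝ) ^ (2 * n) ≤ (Nat.factorial n : ℝ) ^ 2 *
        ((Module.finrank ℝ (AA ℝ k (Fin n)) : ℝ) * ((n : ℝ) + 1) ^ (k ^ 2)) := by
      calc (Nat.factorial n : ℝ) ^ 2 * (k : ℝ) ^ (2 * n)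
          = ((Nat.factorial n : ℝ) * (k : ℝ) ^ n) ^ 2 := by ring
        _ ≤ _ := h5
        _ = _ := by ring
    exact le_of_mul_le_mul_left h7 (by positivity)
  exact_mod_cast h6

end Pool.Agent.R695
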