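import Mathlib

/-!
# A dimension inequality for an idempotent in a transpose-closed real matrix algebra

For a unital subalgebra `E` of `Matrix Y Y ℝ` closed under transposition and a symmetric idempotent
`e ∈ E`: `(dim eE)^2 ≤ dim E * dim eEe`.
-/

namespace Pool.Agent.R695

open Matrix

section OrthoBasis

variable {Y : Type} [Fintype Y] [DecidableEq Y]

/-- The trace form `⟨a,b⟩ = tr (a bᵀ)`. -/
private noncomputable def ip (a b : Matrix Y Y ℝ) : ℝ := (a * b.transpose).trace

omit [DecidableEq Y] in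
private theorem ip_eq (a b : Matrix Y Y ℝ) : ip a b = ∑ p : Y × Y, a p.1 p.2 * b p.1 p.2 := by
  simp only [ip, Matrix.trace, Matrix.diag, Matrix.mul_apply, Matrix.transpose_apply]
  rw [Fintype.sum_prod_type]

private noncomputable def toE : Matrix Y Y ℝ ≃ₗ[ℝ] EuclideanSpace ℝ (Y × Y) where
  toFun a := WithLp.toLp 2 (fun p => a p.1 p.2)
  invFun v := Matrix.of (fun i j => v (i, j))
  map_add' a b := by ext p; simp
  map_smul' c a := by ext p; simp
  left_inv a := by ext i j; simp
  right_inv v := by ext p; simp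

omit [DecidableEq Y] in
private theorem inner_toE (a b : Matrix Y Y ℝ) : inner ℝ (toE a) (toE b) = ip a b := by
  rw [ip_eq, PiLp.inner_apply]
  refine Finset.sum_congr rfl fun p _ => ?_
  simp [toE, mul_comm]

omit [DecidableEq Y] in
/-- An orthonormal basis of `E` for the trace form. -/
private theorem exists_onb (E : Submodule ℝ (Matrix Y Y ℝ)) :
    ∃ b : Module.Basis (Fin (Module.finrank ℝ E)) ℝ E,
      (∀ i j, ip (b i : Matrix Y Y ℝ) (b j) = if i = j then 1 else 0) ∧
      (∀ x : E, ∀ i, b.repr x i = ip (x : Matrix Y Y ℝ) (b i)) := by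
  classical
  let F := E.map (toE (Y := Y)).toLinearMap
  let φ : E ≃ₗ[ℝ] F := (toE (Y := Y)).submoduleMap E
  have hfr : Module.finrank ℝ E = Module.finrank ℝ F := φ.finrank_eq
  let o := (stdOrthonormalBasis ℝ F).reindex (finCongr hfr.symm)
  let b : Module.Basis (Fin (Module.finrank ℝ E)) ℝ E := o.toBasis.map φ.symm
  have hφ : ∀ x : E, ((φ x : F) : EuclideanSpace ℝ (Y × Y)) = toE (x : Matrix Y Y ℝ) := fun x => rfl
  have hip : ∀ x y : E, ip (x : Matrix Y Y ℝ) (y : Matrix Y Y ℝ) = inner ℝ (φ x) (φ y) := by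
    intro x y
    rw [Submodule.coe_inner, hφ, hφ, inner_toE]
  have hb : ∀ i, φ (b i) = o i := by
    intro i
    simp [b]
  refine ⟨b, ?_, ?_⟩
  · intro i j
    rw [hip, hb, hb]
    exact orthonormal_iff_ite.1 o.orthonormal i j
  · intro x i
    rw [hip, hb, real_inner_comm, ← o.repr_apply_apply]
    simp [b]

end OrthoBasis

variable {Y : Type} [Fintype Y] [DecidableEq Y]

omit [DecidableEq Y] in
/-- The dimension of the image of `E` under a projection preserving `E`, as a trace. -/
private theorem finrank_map_proj (E : Submodule ℝ (Matrix Y Y ℝ))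
    (b : Module.Basis (Fin (Module.finrank ℝ E)) ℝ E)
    (hb : ∀ x : E, ∀ i, b.repr x i = ip (x : Matrix Y Y ℝ) (b i))
    (P : Matrix Y Y ℝ →ₗ[ℝ] Matrix Y Y ℝ) (hP : ∀ x ∈ E, P x ∈ E) (hPP : ∀ x ∈ E, P (P x) = P x) :
    (Module.finrank ℝ (E.map P) : ℝ) = ∑ i, ip (P (b i)) (b i) := by
  classical
  let f : E →ₗ[ℝ] E := P.restrict hP
  have hproj : LinearMap.IsProj (LinearMap.range f) f := by
    refine ⟨fun x => LinearMap.mem_range_self f x, ?_⟩
    rintro _ ⟨x, rfl⟩
    apply Subtype.ext
    exact hPP x x.2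
  have : Module.Free ℝ (LinearMap.range f) := Module.Free.of_divisionRing ℝ (LinearMap.range f)
  have : Module.Free ℝ (LinearMap.ker f) := Module.Free.of_divisionRing ℝ (LinearMap.ker f)
  have h1 : LinearMap.trace ℝ E f = Module.finrank ℝ (LinearMap.range f) := hproj.trace
  have h2 : Module.finrank ℝ (LinearMap.range f) = Module.finrank ℝ (E.map P) := by
    have : (LinearMap.range f).map E.subtype = E.map P := by
      ext y
      constructor
      · rintro ⟨_, ⟨x, rfl⟩, rfl⟩
        exact ⟨x, x.2, rfl⟩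
      · rintro ⟨x, hx, rfl⟩
        exact ⟨f ⟨x, hx⟩, ⟨⟨x, hx⟩, rfl⟩, rfl⟩
    rw [← this]
    exact (LinearEquiv.finrank_eq (Submodule.equivMapOfInjective _ E.injective_subtype _))
  rw [← h2, ← h1, LinearMap.trace_eq_matrix_trace ℝ b f, Matrix.trace]
  refine Finset.sum_congr rfl fun i _ => ?_
  rw [Matrix.diag_apply, LinearMap.toMatrix_apply, hb]
  rfl


theorem idem_ineq {Y : Type} [Fintype Y] [DecidableEq Y] (E : Submodule ℝ (Matrix Y Y ℝ))
    (h1 : (1 : Matrix Y Y ℝ) ∈ E) (hmul : ∀ a ∈ E, ∀ b ∈ E, a * b ∈ E)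
    (htr : ∀ a ∈ E, a.transpose ∈ E) (e : Matrix Y Y ℝ) (he : e ∈ E) (hee : e * e = e)
    (hsym : e.transpose = e) :
    Module.finrank ℝ (E.map (LinearMap.mulLeft ℝ e)) ^ 2 ≤
      Module.finrank ℝ E * Module.finrank ℝ (E.map ((LinearMap.mulRight ℝ e).comp (LinearMap.mulLeft ℝ e))) := by
  classical
  obtain ⟨b, hon, hrep⟩ := exists_onb E
  let g : Fin (Module.finrank ℝ E) → Matrix Y Y ℝ := fun i => (b i : Matrix Y Y ℝ)
  have hgE : ∀ i, g i ∈ E := fun i => (b i).2
  -- expansion of an element of `E`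
  have hexp : ∀ x ∈ E, x = ∑ i, ip x (g i) • g i := by
    intro x hx
    have := congrArg (Subtype.val) (b.sum_repr ⟨x, hx⟩)
    simp only [hrep, Submodule.coe_sum, Submodule.coe_smul] at this
    exact this.symm
  -- `φ M = ∑ gᵀ M g` commutes with `E`
  let φ : Matrix Y Y ℝ → Matrix Y Y ℝ := fun M => ∑ i, (g i).transpose * M * g i
  have hcomm : ∀ M, ∀ x ∈ E, φ M * x = x * φ M := by
    intro M x hx
    have hA : φ M * x = ∑ i, ∑ j, ip (g i * x) (g j) • ((g i).transpose * M * g j) := by
      rw [Finset.sum_mul]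
      refine Finset.sum_congr rfl fun i _ => ?_
      conv_lhs => rw [Matrix.mul_assoc, hexp (g i * x) (hmul _ (hgE i) _ hx)]
      rw [Finset.mul_sum]
      refine Finset.sum_congr rfl fun j _ => ?_
      rw [Matrix.mul_smul]
    have hB : x * φ M = ∑ j, ∑ i, ip (g j * x.transpose) (g i) • ((g i).transpose * M * g j) := by
      rw [Finset.mul_sum]
      refine Finset.sum_congr rfl fun j _ => ?_
      have h2 : x * (g j).transpose = ∑ i, ip (g j * x.transpose) (g i) • (g i).transpose := by
        have h3 : x * (g j).transpose = (g j * x.transpose).transpose := by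
          rw [Matrix.transpose_mul, Matrix.transpose_transpose]
        rw [h3]
        conv_lhs => rw [hexp (g j * x.transpose) (hmul _ (hgE j) _ (htr _ hx))]
        rw [Matrix.transpose_sum]
        refine Finset.sum_congr rfl fun i _ => ?_
        rw [Matrix.transpose_smul]
      rw [← Matrix.mul_assoc, ← Matrix.mul_assoc, h2, Finset.sum_mul, Finset.sum_mul]
      refine Finset.sum_congr rfl fun i _ => ?_
      rw [Matrix.smul_mul, Matrix.smul_mul]
    rw [hA, hB, Finset.sum_comm]
    refine Finset.sum_congr rfl fun j _ => Finset.sum_congr rfl fun i _ => ?_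
    congr 1
    unfold ip
    rw [← Matrix.trace_transpose (g i * x * (g j).transpose)]
    rw [Matrix.transpose_mul, Matrix.transpose_mul, Matrix.transpose_transpose, Matrix.mul_assoc]
  -- `∑ g gᵀ = ∑ gᵀ g`
  have hyy : ∑ i, g i * (g i).transpose = φ 1 := by
    have hA : ∑ i, g i * (g i).transpose = ∑ i, ∑ j, ip (g i).transpose (g j) • (g i * g j) := by
      refine Finset.sum_congr rfl fun i _ => ?_
      conv_lhs => rw [hexp (g i).transpose (htr _ (hgE i))]
      rw [Finset.mul_sum]
      refine Finset.sum_congr rfl fun j _ => ?_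
      rw [Matrix.mul_smul]
    have hB : φ 1 = ∑ j, ∑ i, ip (g j).transpose (g i) • (g i * g j) := by
      refine Finset.sum_congr rfl fun j _ => ?_
      rw [Matrix.mul_one]
      conv_lhs => rw [hexp (g j).transpose (htr _ (hgE j))]
      rw [Finset.sum_mul]
      refine Finset.sum_congr rfl fun i _ => ?_
      rw [Matrix.smul_mul]
    rw [hA, hB, Finset.sum_comm]
    refine Finset.sum_congr rfl fun j _ => Finset.sum_congr rfl fun i _ => ?_
    congr 1
    unfold ip
    rw [← Matrix.trace_transpose, Matrix.transpose_mul, Matrix.transpose_transpose,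
      Matrix.transpose_transpose, Matrix.trace_mul_comm, ← Matrix.trace_transpose,
      Matrix.transpose_mul]
  set y := φ 1 with hy
  set z := φ e with hz
  -- traces
  have htry : y.trace = Module.finrank ℝ E := by
    rw [hy]
    simp only [φ, Matrix.mul_one, Matrix.trace_sum]
    have : ∀ i, ((g i).transpose * g i).trace = 1 := by
      intro i
      rw [Matrix.trace_mul_comm]
      have := hon i i
      rw [if_pos rfl] at this
      exact this
    simp [this]
  have htrz : (Module.finrank ℝ (E.map (LinearMap.mulLeft ℝ e)) : ℝ) = z.trace := by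
    rw [finrank_map_proj E b hrep (LinearMap.mulLeft ℝ e) (fun x hx => hmul e he x hx)
      (fun x _ => by simp [← Matrix.mul_assoc, hee])]
    rw [hz]
    simp only [φ, Matrix.trace_sum]
    refine Finset.sum_congr rfl fun i _ => ?_
    unfold ip
    rw [LinearMap.mulLeft_apply, Matrix.trace_mul_comm, ← Matrix.mul_assoc]
  have htrez : (Module.finrank ℝ (E.map ((LinearMap.mulRight ℝ e).comp (LinearMap.mulLeft ℝ e))) : ℝ)
      = (e * z).trace := by
    rw [finrank_map_proj E b hrep _ (fun x hx => hmul _ (hmul e he x hx) e he)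
      (fun x _ => by
        simp only [LinearMap.comp_apply, LinearMap.mulLeft_apply, LinearMap.mulRight_apply]
        rw [← Matrix.mul_assoc, ← Matrix.mul_assoc, hee, Matrix.mul_assoc (e * x), hee])]
    rw [hz]
    simp only [φ, Finset.mul_sum, Matrix.trace_sum]
    refine Finset.sum_congr rfl fun i _ => ?_
    unfold ip
    rw [LinearMap.comp_apply, LinearMap.mulLeft_apply, LinearMap.mulRight_apply]
    change (e * g i * e * (g i).transpose).trace = _
    rw [Matrix.mul_assoc, Matrix.trace_mul_comm (e * g i)]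
    simp only [Matrix.mul_assoc]
  have hcy : ∀ x ∈ E, y * x = x * y := hcomm 1
  have hcz : ∀ x ∈ E, z * x = x * z := hcomm e
  have hysym : y.transpose = y := by
    rw [hy]
    simp only [φ, Matrix.mul_one, Matrix.transpose_sum, Matrix.transpose_mul,
      Matrix.transpose_transpose]
  have hzsym : z.transpose = z := by
    rw [hz]
    simp only [φ, Matrix.transpose_sum, Matrix.transpose_mul,
      Matrix.transpose_transpose, hsym, Matrix.mul_assoc]
  -- positive definiteness of `y`
  have hpd : y.PosDef := by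
    have hform : ∀ v : Y → ℝ, v ⬝ᵥ (y *ᵥ v) = ∑ i, (g i *ᵥ v) ⬝ᵥ (g i *ᵥ v) := by
      intro v
      rw [hy]
      simp only [φ, Matrix.mul_one, Matrix.sum_mulVec, dotProduct_sum]
      refine Finset.sum_congr rfl fun i _ => ?_
      rw [← Matrix.mulVec_mulVec, Matrix.dotProduct_mulVec, Matrix.vecMul_transpose]
    refine Matrix.PosDef.of_dotProduct_mulVec_pos ?_ ?_
    · rw [Matrix.IsHermitian, Matrix.conjTranspose_eq_transpose_of_trivial, hysym]
    · intro v hv
      rw [star_trivial, hform]
      have hnn : ∀ i ∈ Finset.univ, 0 ≤ (g i *ᵥ v) ⬝ᵥ (g i *ᵥ v) := fun i _ =>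
        Finset.sum_nonneg fun j _ => mul_self_nonneg _
      rcases (Finset.sum_nonneg hnn).lt_or_eq with h | h
      · exact h
      · exfalso
        apply hv
        have h0 := (Finset.sum_eq_zero_iff_of_nonneg hnn).1 h.symm
        have h0' : ∀ i, g i *ᵥ v = 0 := fun i => dotProduct_self_eq_zero.1 (h0 i (Finset.mem_univ i))
        have : (1 : Matrix Y Y ℝ) *ᵥ v = 0 := by
          rw [hexp 1 h1, Matrix.sum_mulVec]
          refine Finset.sum_eq_zero fun i _ => ?_
          rw [Matrix.smul_mulVec, h0' i, smul_zero]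
        simpa using this
  have hunit : IsUnit y.det := hpd.isUnit.map Matrix.detMonoidHom |> fun h => by simpa using h
  have hyi : y * y⁻¹ = 1 := Matrix.mul_nonsing_inv _ hunit
  have hiy : y⁻¹ * y = 1 := Matrix.nonsing_inv_mul _ hunit
  have hcyi : ∀ x ∈ E, y⁻¹ * x = x * y⁻¹ := by
    intro x hx
    calc y⁻¹ * x = y⁻¹ * (x * (y * y⁻¹)) := by rw [hyi, Matrix.mul_one]
      _ = y⁻¹ * ((x * y) * y⁻¹) := by rw [Matrix.mul_assoc]
      _ = y⁻¹ * ((y * x) * y⁻¹) := by rw [hcy x hx]
      _ = (y⁻¹ * y) * x * y⁻¹ := by simp only [Matrix.mul_assoc]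
      _ = x * y⁻¹ := by rw [hiy, Matrix.one_mul]
  -- `tr (z y⁻¹ z) = tr (e z)`
  have hkey : (z * y⁻¹ * z).trace = (e * z).trace := by
    rw [Matrix.mul_assoc, Matrix.trace_mul_comm]
    have hzz : z * z = ∑ i, (g i).transpose * (e * z) * g i := by
      conv_lhs => enter [1]; rw [hz]
      simp only [φ, Finset.sum_mul]
      refine Finset.sum_congr rfl fun i _ => ?_
      rw [Matrix.mul_assoc _ (g i) z, ← hcz (g i) (hgE i)]
      simp only [Matrix.mul_assoc]
    rw [Matrix.mul_assoc, hzz, Finset.mul_sum, Matrix.trace_sum]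
    have : ∀ i, (y⁻¹ * ((g i).transpose * (e * z) * g i)).trace =
        (y⁻¹ * (g i * (g i).transpose) * (e * z)).trace := by
      intro i
      calc (y⁻¹ * ((g i).transpose * (e * z) * g i)).trace
          = ((y⁻¹ * (g i).transpose * (e * z)) * g i).trace := by simp only [Matrix.mul_assoc]
        _ = (g i * (y⁻¹ * (g i).transpose * (e * z))).trace := Matrix.trace_mul_comm _ _
        _ = ((g i * y⁻¹) * (g i).transpose * (e * z)).trace := by simp only [Matrix.mul_assoc]
        _ = (y⁻¹ * (g i * (g i).transpose) * (e * z)).trace := by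
            rw [← hcyi (g i) (hgE i)]; simp only [Matrix.mul_assoc]
    simp only [this]
    rw [← Matrix.trace_sum, ← Finset.sum_mul, ← Finset.mul_sum, hyy, hiy, Matrix.one_mul]
  have hpos : ∀ s : ℝ, 0 ≤ y.trace * (s * s) + (-(2 * z.trace)) * s + (e * z).trace := by
    intro s
    have hps : ((z - s • y).transpose * y⁻¹ * (z - s • y)).PosSemidef := by
      have := (hpd.inv.posSemidef).conjTranspose_mul_mul_same (z - s • y)
      rwa [Matrix.conjTranspose_eq_transpose_of_trivial] at this
    have h0 := hps.trace_nonneg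
    have hexpd : (z - s • y).transpose * y⁻¹ * (z - s • y) =
        z * y⁻¹ * z - s • z - s • z + (s * s) • y := by
      rw [Matrix.transpose_sub, Matrix.transpose_smul, hzsym, hysym]
      have e1 : (z - s • y) * y⁻¹ = z * y⁻¹ - s • (1 : Matrix Y Y ℝ) := by
        rw [Matrix.sub_mul, Matrix.smul_mul, hyi]
      have e2 : z * y⁻¹ * y = z := by rw [Matrix.mul_assoc, hiy, Matrix.mul_one]
      rw [e1, Matrix.sub_mul, Matrix.mul_sub, Matrix.mul_sub, Matrix.mul_smul, e2, Matrix.smul_mul,
        Matrix.one_mul, Matrix.smul_mul, Matrix.one_mul, smul_smul]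
      abel
    rw [hexpd] at h0
    simp only [Matrix.trace_add, Matrix.trace_sub, Matrix.trace_smul, smul_eq_mul, hkey] at h0
    linarith
  have hd := discrim_le_zero hpos
  rw [discrim] at hd
  have hfin : (Module.finrank ℝ (E.map (LinearMap.mulLeft ℝ e)) : ℝ) ^ 2 ≤
      (Module.finrank ℝ E : ℝ) * (Module.finrank ℝ (E.map ((LinearMap.mulRight ℝ e).comp (LinearMap.mulLeft ℝ e))) : ℝ) := by
    rw [htrz, htrez, ← htry]
    nlinarith
  exact_mod_cast hfin

end Pool.Agent.R695
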