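import Pool.Agent.R695.Basic
import Pool.Agent.R695.B
import Pool.Agent.R695.D1

/-! Log-convexity of the dimensions of the spans of permutation tensors. -/

set_option autoImplicit false
set_option linter.unusedSectionVars false

namespace Pool.Agent.R695
open Equiv

variable {k : ℕ}

/-- the tensor index of a row index `y` and a column index `y'` (partial transposition in the slot
`none`). -/
def uu {J : Type} (y y' : Option J → Fin k) : Option J → Fin k × Fin k :=
  fun o => o.elim (y' none, y none) (fun j => (y (some j), y' (some j)))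

noncomputable def toMat (k : ℕ) (J : Type) :
    ((Option J → Fin k × Fin k) → ℝ) →ₗ[ℝ] Matrix (Option J → Fin k) (Option J → Fin k) ℝ where
  toFun a := fun y y' => a (uu y y')
  map_add' := by intro a b; rfl
  map_smul' := by intro a b; rfl

@[simp] theorem toMat_apply {J : Type} (a : (Option J → Fin k × Fin k) → ℝ)
    (y y' : Option J → Fin k) : toMat k J a y y' = a (uu y y') := rfl

theorem toMat_inj (J : Type) : Function.Injective (toMat k J) := by
  intro a b h
  funext u
  have := congrFun (congrFun h (fun o => o.elim (u none).2 (fun j => (u (some j)).1)))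
    (fun o => o.elim (u none).1 (fun j => (u (some j)).2))
  simp only [toMat_apply] at this
  convert this using 2 <;>
  · funext o
    rcases o with _ | j <;> rfl

variable {J : Type} [Fintype J] [DecidableEq J]

theorem toMat_one : toMat k J (Pm ℝ k 1) = 1 := by
  ext y y'
  simp only [toMat_apply, Pm, Matrix.one_apply]
  congr 1
  apply propext
  constructor
  · intro h
    funext o
    rcases o with _ | j
    · exact (h none)
    · exact (h (some j)).symm
  · rintro rfl o
    rcases o with _ | j <;> rfl

theorem toMat_transpose (a : (Option J → Fin k × Fin k) → ℝ) :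
    (toMat k J a).transpose = toMat k J (fun u => a (fun i => (u i).swap)) := by
  ext y y'
  simp only [toMat_apply, Matrix.transpose_apply]
  congr 1
  funext o
  rcases o with _ | j <;> rfl

def th (J : Type) [DecidableEq J] : Perm (Option (Option J)) := swap (some none) none

theorem mul_gen (σ τ : Perm (Option J)) :
    toMat k J (Pm ℝ k σ) * toMat k J (Pm ℝ k τ) =
      toMat k J (fun w => ∑ c : Fin k,
        Pm ℝ k (th J * optionCongr σ * th J * optionCongr τ * th J)
          (fun o => o.elim (c, c) w)) := by
  ext y y'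
  rw [Matrix.mul_apply]
  simp only [toMat_apply]
  rw [sum_option_fun]
  refine Finset.sum_congr rfl fun t _ => ?_
  set A : Option J → Fin k := fun o => o.elim t (fun j => y (some j)) with hA
  set m0 : J → Fin k := fun j => A (σ (some j)) with hm0
  set B : Option J → Fin k := fun o => o.elim (y' none) m0 with hB
  have g1 : ∀ (m : J → Fin k) (o : Option J), (uu y (fun o => o.elim t m) o).1 = A o := by
    rintro m (_ | j) <;> rfl
  have g2 : ∀ o : Option J, (uu (fun o => o.elim t m0) y' o).1 = B o := by
    rintro (_ | j) <;> rfl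
  rw [Finset.sum_eq_single m0]
  · simp only [Pm]
    rw [ite_zero_mul_ite_zero, mul_one]
    congr 1
    apply propext
    -- the first components at the five places
    set F : Option (Option J) → Fin k := fun o => ((o.elim (t, t) (uu y y') : Fin k × Fin k)).1
      with hF
    have f1 : ∀ o, F (th J (some o)) = A o := by
      intro o
      rcases o with _ | j
      · simp [hF, hA, th]
      · simp [hF, hA, th, swap_apply_of_ne_of_ne, uu]
    have f2 : ∀ o, F (th J (optionCongr σ (th J (some o)))) = B o := by
      intro o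
      rcases o with _ | j
      · simp [hF, hB, th, uu]
      · have : th J (some (some j)) = some (some j) := by
          simp [th, swap_apply_of_ne_of_ne]
        rw [this]
        simp only [optionCongr_apply, Option.map_some]
        rw [f1]
        rfl
    have f3 : th J none = some none := by simp [th]
    have f4 : th J (some none) = none := by simp [th]
    have f5 : ∀ j, th J (some (some j)) = some (some j) := by
      intro j; simp [th, swap_apply_of_ne_of_ne]
    have f6 : ∀ o, (o.elim (t, t) (uu y y') : Fin k × Fin k).1 = F o := fun o => rfl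
    simp only [g1, g2, f6, Perm.coe_mul, Function.comp]
    have c1 : ((∀ i, (uu y (fun o => o.elim t m0) i).2 = A (σ i)) ∧
        ∀ i, (uu (fun o => o.elim t m0) y' i).2 = B (τ i)) ↔
        (y none = A (σ none)) ∧ (t = B (τ none)) ∧ ∀ j, y' (some j) = B (τ (some j)) := by
      constructor
      · rintro ⟨h1, h2⟩
        exact ⟨h1 none, h2 none, fun j => h2 (some j)⟩
      · rintro ⟨h1, h2, h3⟩
        refine ⟨?_, ?_⟩
        · rintro (_ | j)
          · exact h1
          · rfl
        · rintro (_ | j)
          · exact h2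
          · exact h3 j
    have oc1 : ∀ (π : Perm (Option J)) (o : Option J), optionCongr π (some o) = some (π o) :=
      fun _ _ => rfl
    have oc0 : ∀ (π : Perm (Option J)), optionCongr π none = none := fun _ => rfl
    rw [c1]
    constructor
    · rintro ⟨h1, h2, h3⟩ (_ | _ | j)
      · rw [f3, oc1, f2]
        exact h2
      · rw [f4, oc0, f3, oc1, f1]
        exact h1
      · rw [f5, oc1, f2]
        exact h3 j
    · intro h
      refine ⟨?_, ?_, ?_⟩
      · have := h (some none)
        rw [f4, oc0, f3, oc1, f1]
          at this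
        exact this
      · have := h none
        rw [f3, oc1, f2] at this
        exact this
      · intro j
        have := h (some (some j))
        rw [f5, oc1, f2] at this
        exact this
  · intro m _ hm
    simp only [Pm]
    rw [ite_zero_mul_ite_zero, if_neg]
    rintro ⟨h1, -⟩
    apply hm
    funext j
    have := h1 (some j)
    rw [g1] at this
    exact this
  · intro h
    exact absurd (Finset.mem_univ _) h

/-- the algebra of `GL_k`-equivariant endomorphisms. -/
noncomputable def EE (k : ℕ) (J : Type) [Fintype J] :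
    Submodule ℝ (Matrix (Option J → Fin k) (Option J → Fin k) ℝ) :=
  (AA ℝ k (Option J)).map (toMat k J)

theorem EE_one : (1 : Matrix (Option J → Fin k) (Option J → Fin k) ℝ) ∈ EE k J :=
  ⟨_, Pm_mem 1, toMat_one⟩

theorem EE_transpose (a : Matrix (Option J → Fin k) (Option J → Fin k) ℝ) (ha : a ∈ EE k J) :
    a.transpose ∈ EE k J := by
  obtain ⟨v, hv, rfl⟩ := ha
  rw [toMat_transpose]
  exact ⟨_, AA_swap hv, rfl⟩

theorem EE_mul (a : Matrix (Option J → Fin k) (Option J → Fin k) ℝ) (ha : a ∈ EE k J)
    (b : Matrix (Option J → Fin k) (Option J → Fin k) ℝ) (hb : b ∈ EE k J) :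
    a * b ∈ EE k J := by
  obtain ⟨v, hv, rfl⟩ := ha
  obtain ⟨w, hw, rfl⟩ := hb
  have key : ∀ σ τ : Perm (Option J), toMat k J (Pm ℝ k σ) * toMat k J (Pm ℝ k τ) ∈ EE k J := by
    intro σ τ
    rw [mul_gen]
    exact ⟨_, AA_ptrace (Pm_mem _), rfl⟩
  have key2 : ∀ τ : Perm (Option J), toMat k J v * toMat k J (Pm ℝ k τ) ∈ EE k J := by
    intro τ
    exact AA_map_mem ((LinearMap.mulRight ℝ (toMat k J (Pm ℝ k τ))).comp (toMat k J))
      (T := EE k J) (fun σ => key σ τ) hv
  exact AA_map_mem ((LinearMap.mulLeft ℝ (toMat k J v)).comp (toMat k J))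
      (T := EE k J) (fun τ => key2 τ) hw

theorem finrank_EE : Module.finrank ℝ (EE k J) = Module.finrank ℝ (AA ℝ k (Option J)) :=
  (Submodule.equivMapOfInjective _ (toMat_inj J) _).finrank_eq.symm

section idem

variable {κ : Type} [Fintype κ] [DecidableEq κ]

def mk3 (a b : Fin k) (p : κ → Fin k) : Option (Option κ) → Fin k :=
  fun o => o.elim a (fun o' => o'.elim b p)

def res (y : Option (Option κ) → Fin k) : κ → Fin k := fun i => y (some (some i))

theorem mk3_eta (y : Option (Option κ) → Fin k) : mk3 (y none) (y (some none)) (res y) = y := by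
  funext o
  rcases o with _ | _ | i <;> rfl

noncomputable def ee (k : ℕ) (κ : Type) [Fintype κ] [DecidableEq κ] :
    Matrix (Option (Option κ) → Fin k) (Option (Option κ) → Fin k) ℝ :=
  toMat k (Option κ) ((1 / (k : ℝ)) • Pm ℝ k (swap none (some none)))

theorem ee_mem : ee k κ ∈ EE k (Option κ) :=
  ⟨_, Submodule.smul_mem _ _ (Pm_mem _), rfl⟩

theorem ee_apply (y y' : Option (Option κ) → Fin k) :
    ee k κ y y' = if y none = y (some none) ∧ y' none = y' (some none) ∧ res y = res y'
      then 1 / (k : ℝ) else 0 := by
  simp only [ee, toMat_apply, Pi.smul_apply, Pm, smul_eq_mul, mul_ite, mul_one, mul_zero]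
  congr 1
  apply propext
  constructor
  · intro h
    refine ⟨?_, ?_, ?_⟩
    · simpa [uu] using h none
    · simpa [uu] using (h (some none)).symm
    · funext i
      simpa [uu, swap_apply_of_ne_of_ne, res] using (h (some (some i))).symm
  · rintro ⟨h1, h2, h3⟩ (_ | _ | i)
    · simpa [uu] using h1
    · simpa [uu] using h2.symm
    · simpa [uu, swap_apply_of_ne_of_ne, res] using (congrFun h3 i).symm

theorem ee_symm : (ee k κ).transpose = ee k κ := by
  ext y y'
  rw [Matrix.transpose_apply, ee_apply, ee_apply]
  congr 1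
  apply propext
  constructor
  · rintro ⟨h1, h2, h3⟩; exact ⟨h2, h1, h3.symm⟩
  · rintro ⟨h1, h2, h3⟩; exact ⟨h2, h1, h3.symm⟩

theorem sum_three {M : Type*} [AddCommMonoid M] (F : (Option (Option κ) → Fin k) → M) :
    ∑ m, F m = ∑ a : Fin k, ∑ b : Fin k, ∑ p : κ → Fin k, F (mk3 a b p) := by
  rw [sum_option_fun]
  refine Finset.sum_congr rfl fun a _ => ?_
  rw [sum_option_fun]
  rfl

theorem ee_mul_apply (X : Matrix (Option (Option κ) → Fin k) (Option (Option κ) → Fin k) ℝ)
    (y y' : Option (Option κ) → Fin k) :
    (ee k κ * X) y y' = if y none = y (some none) then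
      (1 / (k : ℝ)) * ∑ c : Fin k, X (mk3 c c (res y)) y' else 0 := by
  rw [Matrix.mul_apply, sum_three]
  simp only [ee_apply]
  split_ifs with h
  · rw [Finset.mul_sum]
    refine Finset.sum_congr rfl fun a _ => ?_
    rw [Finset.sum_eq_single a]
    · rw [Finset.sum_eq_single (res y)]
      · rw [if_pos ⟨h, rfl, rfl⟩]
      · intro p _ hp
        rw [if_neg, zero_mul]
        rintro ⟨-, -, h3⟩
        exact hp h3.symm
      · intro h; exact absurd (Finset.mem_univ _) h
    · intro b _ hb
      refine Finset.sum_eq_zero fun p _ => ?_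
      rw [if_neg, zero_mul]
      rintro ⟨-, h2, -⟩
      exact hb h2.symm
    · intro h; exact absurd (Finset.mem_univ _) h
  · refine Finset.sum_eq_zero fun a _ => Finset.sum_eq_zero fun b _ =>
      Finset.sum_eq_zero fun p _ => ?_
    rw [if_neg, zero_mul]
    rintro ⟨h1, -⟩
    exact h h1

theorem mul_ee_apply (X : Matrix (Option (Option κ) → Fin k) (Option (Option κ) → Fin k) ℝ)
    (y y' : Option (Option κ) → Fin k) :
    (X * ee k κ) y y' = if y' none = y' (some none) then
      (1 / (k : ℝ)) * ∑ c : Fin k, X y (mk3 c c (res y')) else 0 := by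
  have := ee_mul_apply X.transpose y' y
  rw [← ee_symm, ← Matrix.transpose_mul, Matrix.transpose_apply] at this
  exact this

theorem ee_idem (hk : k ≠ 0) : ee k κ * ee k κ = ee k κ := by
  ext y y'
  rw [ee_mul_apply]
  have h : ∀ c : Fin k, ee k κ (mk3 c c (res y)) y' =
      if y' none = y' (some none) ∧ res y = res y' then 1 / (k : ℝ) else 0 := by
    intro c
    rw [ee_apply]
    congr 1
    apply propext
    constructor
    · rintro ⟨-, h⟩; exact h
    · intro h; exact ⟨rfl, h⟩
  simp only [h]
  rw [ee_apply]
  have hk' : (k : ℝ) ≠ 0 := Nat.cast_ne_zero.mpr hk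
  by_cases h1 : y none = y (some none)
  · rw [if_pos h1, Finset.sum_const, Finset.card_univ, Fintype.card_fin]
    simp only [h1, true_and]
    split_ifs
    · simp [hk']
    · simp
  · rw [if_neg h1, if_neg]
    rintro ⟨h, -⟩; exact h1 h

/-- extension by a fixed point. -/
theorem AA_ext {b : (κ → Fin k × Fin k) → ℝ} (hb : b ∈ AA ℝ k κ) :
    (fun u : Option κ → Fin k × Fin k =>
      if (u none).1 = (u none).2 then b (fun i => u (some i)) else 0) ∈ AA ℝ k (Option κ) := by
  let Φ : ((κ → Fin k × Fin k) → ℝ) →ₗ[ℝ] ((Option κ → Fin k × Fin k) → ℝ) :=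
    { toFun := fun b u => if (u none).1 = (u none).2 then b (fun i => u (some i)) else 0
      map_add' := by
        intro a b
        funext u
        simp only [Pi.add_apply]
        split_ifs <;> simp
      map_smul' := by
        intro a b
        funext u
        simp only [Pi.smul_apply, RingHom.id_apply]
        split_ifs <;> simp }
  refine AA_map_mem Φ ?_ hb
  intro τ
  have : Φ (Pm ℝ k τ) = Pm ℝ k (optionCongr τ) := by
    funext u
    change (if (u none).1 = (u none).2 then Pm ℝ k τ (fun i => u (some i)) else 0) = _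
    simp only [Pm]
    rw [← ite_and]
    congr 1
    apply propext
    constructor
    · rintro ⟨h1, h2⟩ (_ | i)
      · exact h1.symm
      · exact h2 i
    · intro h
      exact ⟨(h none).symm, fun i => h (some i)⟩
  rw [this]
  exact Pm_mem _

/-- the matrix in `e E` of a tensor in `AA (Option κ)`. -/
noncomputable def FB (k : ℕ) (κ : Type) : ((Option κ → Fin k × Fin k) → ℝ) →ₗ[ℝ]
    Matrix (Option (Option κ) → Fin k) (Option (Option κ) → Fin k) ℝ where
  toFun b := Matrix.of fun y y' => if y none = y (some none) then
    b (fun o => o.elim (y' none, y' (some none)) (fun i => (y (some (some i)), y' (some (some i)))))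
    else 0
  map_add' := by
    intro a b
    ext y y'
    simp only [Matrix.of_apply, Pi.add_apply, Matrix.add_apply]
    split_ifs <;> simp
  map_smul' := by
    intro a b
    ext y y'
    simp only [Matrix.of_apply, Pi.smul_apply, RingHom.id_apply, Matrix.smul_apply]
    split_ifs <;> simp

theorem FB_apply (b : (Option κ → Fin k × Fin k) → ℝ) (y y' : Option (Option κ) → Fin k) :
    FB k κ b y y' = if y none = y (some none) then
    b (fun o => o.elim (y' none, y' (some none)) (fun i => (y (some (some i)), y' (some (some i)))))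
    else 0 := rfl

theorem FB_inj : Function.Injective (FB k κ) := by
  intro a b h
  funext u
  have h2 := congrFun (congrFun h (mk3 (u none).1 (u none).1 (fun i => (u (some i)).1)))
    (mk3 (u none).1 (u none).2 (fun i => (u (some i)).2))
  have h3 : (fun o : Option κ => o.elim ((u none).1, (u none).2)
      (fun i => ((u (some i)).1, (u (some i)).2))) = u := by
    funext o
    rcases o with _ | i <;> rfl
  simp only [FB_apply, mk3, Option.elim, if_true] at h2
  convert h2 using 1
  · congr 1
    funext o
    rcases o with _ | i <;> rfl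
  · congr 1
    funext o
    rcases o with _ | i <;> rfl

theorem FB_mem {b : (Option κ → Fin k × Fin k) → ℝ} (hb : b ∈ AA ℝ k (Option κ)) :
    FB k κ b ∈ EE k (Option κ) := by
  have h1 := AA_ext hb
  have h2 := AA_relabel (swap none (some none) : Perm (Option (Option κ))) h1
  have h3 := AA_colperm (swap none (some none) : Perm (Option (Option κ))) h2
  refine ⟨_, h3, ?_⟩
  ext y y'
  simp only [toMat_apply, FB_apply]
  simp only [swap_apply_left, swap_apply_right]
  have h4 : (uu y y' (some none)).1 = y (some none) := rfl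
  have h5 : (uu y y' none).2 = y none := rfl
  rw [h4, h5]
  by_cases h : y none = y (some none)
  · rw [if_pos h, if_pos h.symm]
    congr 1
    funext o
    rcases o with _ | i
    · simp [uu]
    · simp [uu, swap_apply_of_ne_of_ne]
  · rw [if_neg h, if_neg (fun h' => h h'.symm)]

theorem ee_mul_FB (hk : k ≠ 0) (b : (Option κ → Fin k × Fin k) → ℝ) :
    ee k κ * FB k κ b = FB k κ b := by
  ext y y'
  rw [ee_mul_apply]
  have hk' : (k : ℝ) ≠ 0 := Nat.cast_ne_zero.mpr hk
  by_cases h : y none = y (some none)
  · rw [if_pos h]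
    simp only [FB_apply, mk3, res, Option.elim, if_true]
    rw [if_pos h, Finset.sum_const, Finset.card_univ, Fintype.card_fin]
    simp [hk']
  · rw [if_neg h]
    rw [FB_apply, if_neg h]

noncomputable def GB (k : ℕ) (κ : Type) : ((κ → Fin k × Fin k) → ℝ) →ₗ[ℝ]
    Matrix (Option (Option κ) → Fin k) (Option (Option κ) → Fin k) ℝ where
  toFun b := Matrix.of fun y y' => if y' none = y' (some none) then
    (if y none = y (some none) then
    b (fun i => (y (some (some i)), y' (some (some i)))) else 0) else 0
  map_add' := by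
    intro a b
    ext y y'
    simp only [Matrix.of_apply, Pi.add_apply, Matrix.add_apply]
    split_ifs <;> simp
  map_smul' := by
    intro a b
    ext y y'
    simp only [Matrix.of_apply, Pi.smul_apply, RingHom.id_apply, Matrix.smul_apply]
    split_ifs <;> simp

theorem GB_apply (b : (κ → Fin k × Fin k) → ℝ) (y y' : Option (Option κ) → Fin k) :
    GB k κ b y y' = if y' none = y' (some none) then
    (if y none = y (some none) then
    b (fun i => (y (some (some i)), y' (some (some i)))) else 0) else 0 := rfl

theorem eEe_le : (EE k (Option κ)).map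
    ((LinearMap.mulRight ℝ (ee k κ)).comp (LinearMap.mulLeft ℝ (ee k κ))) ≤
    (AA ℝ k κ).map (GB k κ) := by
  rintro _ ⟨_, ⟨a, ha, rfl⟩, rfl⟩
  have h1 := AA_colperm (swap none (some none) : Perm (Option (Option κ))) ha
  have h2 := AA_ptrace (AA_ptrace h1)
  refine ⟨_, Submodule.smul_mem _ ((1 / (k : ℝ)) * (1 / (k : ℝ))) h2, ?_⟩
  ext y y'
  simp only [LinearMap.comp_apply, LinearMap.mulLeft_apply, LinearMap.mulRight_apply]
  rw [mul_ee_apply]
  simp only [ee_mul_apply]
  rw [GB_apply]
  simp only [Pi.smul_apply, smul_eq_mul]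
  refine if_congr Iff.rfl ?_ rfl
  by_cases h4 : y none = y (some none)
  · simp only [if_pos h4]
    rw [mul_assoc]
    congr 1
    rw [← Finset.mul_sum]
    congr 1
    rw [Finset.sum_comm]
    refine Finset.sum_congr rfl fun c _ => Finset.sum_congr rfl fun c' _ => ?_
    rw [toMat_apply]
    congr 1
    funext o
    rcases o with _ | _ | i
    · simp [uu, mk3]
    · simp [uu, mk3]
    · simp [uu, mk3, swap_apply_of_ne_of_ne, res]
  · simp [h4]

/-- log-convexity -/
theorem logconvex (hk : k ≠ 0) (κ : Type) [Fintype κ] [DecidableEq κ] :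
    Module.finrank ℝ (AA ℝ k (Option κ)) ^ 2 ≤
      Module.finrank ℝ (AA ℝ k (Option (Option κ))) * Module.finrank ℝ (AA ℝ k κ) := by
  have h1 := idem_ineq (EE k (Option κ)) EE_one EE_mul EE_transpose (ee k κ) ee_mem
    (ee_idem hk) ee_symm
  rw [finrank_EE] at h1
  have h2 : Module.finrank ℝ (AA ℝ k (Option κ)) ≤
      Module.finrank ℝ ((EE k (Option κ)).map (LinearMap.mulLeft ℝ (ee k κ))) := by
    rw [(Submodule.equivMapOfInjective _ (FB_inj (k := k) (κ := κ)) (AA ℝ k (Option κ))).finrank_eq]
    refine Submodule.finrank_mono ?_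
    rintro _ ⟨b, hb, rfl⟩
    exact ⟨_, FB_mem hb, ee_mul_FB hk b⟩
  have h3 : Module.finrank ℝ ((EE k (Option κ)).map
      ((LinearMap.mulRight ℝ (ee k κ)).comp (LinearMap.mulLeft ℝ (ee k κ)))) ≤
      Module.finrank ℝ (AA ℝ k κ) :=
    (Submodule.finrank_mono eEe_le).trans (Submodule.finrank_map_le _ _)
  calc _ ≤ _ := Nat.pow_le_pow_left h2 2
    _ ≤ _ := h1
    _ ≤ _ := Nat.mul_le_mul_left _ h3

end idem

theorem finrank_AA_congr {ι κ : Type} [Fintype ι] [Fintype κ] (e : ι ≃ κ) :
    Module.finrank ℝ (AA ℝ k ι) = Module.finrank ℝ (AA ℝ k κ) := by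
  have key : ∀ {ι κ : Type} [Fintype ι] [Fintype κ] (e : ι ≃ κ),
      Module.finrank ℝ (AA ℝ k ι) ≤ Module.finrank ℝ (AA ℝ k κ) := by
    intro ι κ _ _ e
    let Φ := LinearMap.funLeft ℝ ℝ (fun u : κ → Fin k × Fin k => (fun i => u (e i)))
    have hΦ : Function.Injective Φ := by
      apply LinearMap.funLeft_injective_of_surjective
      intro w
      refine ⟨fun j => w (e.symm j), ?_⟩
      funext i
      simp
    rw [(Submodule.equivMapOfInjective _ hΦ (AA ℝ k ι)).finrank_eq]
    refine Submodule.finrank_mono ?_
    rintro _ ⟨b, hb, rfl⟩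
    exact AA_relabel e hb
  exact le_antisymm (key e) (key e.symm)

theorem logconvex_fin (hk : k ≠ 0) (n : ℕ) :
    Module.finrank ℝ (AA ℝ k (Fin (n + 1))) ^ 2 ≤
      Module.finrank ℝ (AA ℝ k (Fin (n + 2))) * Module.finrank ℝ (AA ℝ k (Fin n)) := by
  have h := logconvex (k := k) hk (Fin n)
  rw [finrank_AA_congr (finSuccEquiv n), finrank_AA_congr ((finSuccEquiv (n + 1)).trans
    (finSuccEquiv n).optionCongr)]
  exact h

end Pool.Agent.R695
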