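import Pool.Agent.R695.DaoComb

namespace Pool.Agent.R695.Dao

open AddMonoidAlgebra

/-- the affine semigroup -/
def S : AddSubmonoid (ℕ × ℕ) where
  carrier := {p | P p.1 p.2}
  add_mem' := fun h h' => P_add h h'
  zero_mem' := P_zero

lemma mem_S {p : ℕ × ℕ} : p ∈ S ↔ P p.1 p.2 := Iff.rfl

/-- the degree -/
def deg (s : S) : ℕ := s.1.1
/-- the position -/
def pos (s : S) : ℕ := s.1.2

@[simp] lemma deg_add (s t : S) : deg (s + t) = deg s + deg t := rfl
@[simp] lemma pos_add (s t : S) : pos (s + t) = pos s + pos t := rfl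
@[simp] lemma deg_zero : deg 0 = 0 := rfl
@[simp] lemma pos_zero : pos 0 = 0 := rfl

lemma ext_S {s t : S} (h : deg s = deg t) (h' : pos s = pos t) : s = t :=
  Subtype.ext (Prod.ext h h')

lemma P_S (s : S) : P (deg s) (pos s) := s.2

lemma eq_zero_of_deg {s : S} (h : deg s = 0) : s = 0 := by
  refine ext_S h ?_
  have := P_S s
  rw [h] at this
  exact P_deg_zero this

lemma deg_pos {s : S} (h : s ≠ 0) : 1 ≤ deg s := by
  by_contra hc
  exact h (eq_zero_of_deg (by omega))

/-- make an element -/
def mkS (n u : ℕ) (h : P n u) : S := ⟨(n, u), h⟩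

@[simp] lemma deg_mkS (n u : ℕ) (h : P n u) : deg (mkS n u h) = n := rfl
@[simp] lemma pos_mkS (n u : ℕ) (h : P n u) : pos (mkS n u h) = u := rfl

def e1 : S := mkS 1 0 P_e1
def e2 : S := mkS 1 35 P_e2

@[simp] lemma deg_e1 : deg e1 = 1 := rfl
@[simp] lemma deg_e2 : deg e2 = 1 := rfl
@[simp] lemma pos_e1 : pos e1 = 0 := rfl
@[simp] lemma pos_e2 : pos e2 = 35 := rfl

lemma S_fg : S.FG := by
  refine ⟨insert (1, 0) (insert (1, 35) ((Finset.range 35).image
    (fun c => ((b1 c + b2 c) / 35, b2 c)))), ?_⟩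
  apply le_antisymm
  · rw [AddSubmonoid.closure_le]
    intro p hp
    simp only [Finset.coe_insert, Finset.coe_image, Set.mem_insert_iff, Set.mem_image,
      Finset.coe_range, Set.mem_Iio] at hp
    rcases hp with rfl | rfl | ⟨c, hc, rfl⟩
    · exact P_e1
    · exact P_e2
    · exact P_corner c hc
  · intro p hp
    obtain ⟨a, b, h1, h2⟩ := P_decomp hp
    set T : Set (ℕ × ℕ) := ((insert (1, 0) (insert (1, 35) ((Finset.range 35).image
      (fun c => ((b1 c + b2 c) / 35, b2 c)))) : Finset (ℕ × ℕ)) : Set (ℕ × ℕ)) with hT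
    have hx : ((1, 0) : ℕ × ℕ) ∈ AddSubmonoid.closure T :=
      AddSubmonoid.subset_closure (by simp [hT])
    have hy : ((1, 35) : ℕ × ℕ) ∈ AddSubmonoid.closure T :=
      AddSubmonoid.subset_closure (by simp [hT])
    have hz : (((b1 (p.2 % 35) + b2 (p.2 % 35)) / 35, b2 (p.2 % 35)) : ℕ × ℕ) ∈
        AddSubmonoid.closure T := by
      apply AddSubmonoid.subset_closure
      simp only [hT, Finset.coe_insert, Finset.coe_image, Set.mem_insert_iff, Set.mem_image,
        Finset.coe_range, Set.mem_Iio]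
      right; right
      exact ⟨p.2 % 35, Nat.mod_lt _ (by norm_num), rfl⟩
    have : p = ((b1 (p.2 % 35) + b2 (p.2 % 35)) / 35, b2 (p.2 % 35)) +
        (a • ((1, 0) : ℕ × ℕ) + b • ((1, 35) : ℕ × ℕ)) := by
      refine Prod.ext ?_ ?_
      · simp only [Prod.fst_add, Prod.smul_mk, smul_eq_mul, mul_one, mul_zero]
        omega
      · simp only [Prod.snd_add, Prod.smul_mk, smul_eq_mul, mul_one, mul_zero]
        omega
    rw [this]
    exact add_mem hz (add_mem (nsmul_mem hx a) (nsmul_mem hy b))

/-- the semigroup ring -/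
abbrev B := AddMonoidAlgebra ℚ S

instance : AddMonoid.FG S := (AddMonoid.fg_iff_addSubmonoid_fg S).2 S_fg

instance : IsNoetherianRing B := Algebra.FiniteType.isNoetherianRing ℚ B

/-- the augmentation -/
noncomputable def aug : B →ₐ[ℚ] ℚ :=
  AddMonoidAlgebra.lift ℚ ℚ S
    { toFun := fun s => if Multiplicative.toAdd s = 0 then 1 else 0
      map_one' := by simp
      map_mul' := by
        intro s t
        by_cases hs : Multiplicative.toAdd s = 0
        · simp [hs]
        · have : Multiplicative.toAdd s + Multiplicative.toAdd t ≠ 0 := by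
            intro h
            have h1 := congrArg deg h
            have h2 := deg_pos hs
            simp only [deg_add, deg_zero] at h1
            omega
          simp [hs, this] }

lemma aug_apply (f : B) : aug f = f.coeff 0 := by
  induction f using AddMonoidAlgebra.induction_linear with
  | zero => simp
  | add x y hx hy => simp [hx, hy]
  | single m r =>
    rw [aug, AddMonoidAlgebra.lift_single, coeff_single, Finsupp.single_apply]
    by_cases h : m = 0 <;> simp [h]

/-- the maximal ideal of the origin -/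
noncomputable def MM : Ideal B := RingHom.ker (aug : B →+* ℚ)

lemma mem_MM {f : B} : f ∈ MM ↔ f.coeff 0 = 0 := by
  rw [MM, RingHom.mem_ker]
  change aug f = 0 ↔ _
  rw [aug_apply]

instance MM_max : MM.IsMaximal := by
  apply RingHom.ker_isMaximal_of_surjective
  intro r
  refine ⟨single 0 r, ?_⟩
  change aug (single 0 r) = r
  rw [aug_apply]
  simp

/-- sums of `n` nonzero elements -/
def W : ℕ → Set S
  | 0 => {0}
  | n + 1 => {x | ∃ a ∈ W n, ∃ b : S, b ≠ 0 ∧ x = a + b}

lemma MM_eq : MM = Ideal.span (of' ℚ S '' {s : S | s ≠ 0}) := by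
  ext f
  rw [mem_ideal_span_of'_image, mem_MM]
  constructor
  · intro h m hm
    refine ⟨m, ?_, 0, by simp⟩
    rintro rfl
    simp [h] at hm
  · intro h
    by_contra hc
    obtain ⟨m', hm', d, hd⟩ := h 0 (by simpa using hc)
    have h1 := congrArg deg hd
    have h2 := deg_pos hm'
    simp only [deg_add, deg_zero] at h1
    omega

lemma MM_pow (n : ℕ) : MM ^ n = Ideal.span (of' ℚ S '' W n) := by
  induction n with
  | zero =>
    rw [pow_zero, W, Set.image_singleton]
    symm
    rw [Ideal.one_eq_top, Ideal.span_singleton_eq_top]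
    simp [of', ← one_def]
  | succ n ih =>
    rw [pow_succ, ih, MM_eq, Ideal.span_mul_span']
    congr 1
    ext x
    constructor
    · rintro ⟨_, ⟨a, ha, rfl⟩, _, ⟨b, hb, rfl⟩, rfl⟩
      exact ⟨a + b, ⟨a, ha, b, hb, rfl⟩, by simp [of']⟩
    · rintro ⟨_, ⟨a, ha, b, hb, rfl⟩, rfl⟩
      exact ⟨_, ⟨a, ha, rfl⟩, _, ⟨b, hb, rfl⟩, by simp [of']⟩

/-- the parameter ideal -/
noncomputable def JJ : Ideal B := Ideal.span {single e1 1, single e2 1}

lemma JJ_eq : JJ = Ideal.span (of' ℚ S '' {e1, e2}) := by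
  rw [JJ, Set.image_pair]
  rfl

lemma JJ_mul (n : ℕ) : JJ * MM ^ n =
    Ideal.span (of' ℚ S '' {x | ∃ a ∈ ({e1, e2} : Set S), ∃ b ∈ W n, x = a + b}) := by
  rw [MM_pow, JJ_eq, Ideal.span_mul_span']
  congr 1
  ext x
  constructor
  · rintro ⟨_, ⟨a, ha, rfl⟩, _, ⟨b, hb, rfl⟩, rfl⟩
    exact ⟨a + b, ⟨a, ha, b, hb, rfl⟩, by simp [of']⟩
  · rintro ⟨_, ⟨a, ha, b, hb, rfl⟩, rfl⟩
    exact ⟨_, ⟨a, ha, rfl⟩, _, ⟨b, hb, rfl⟩, by simp [of']⟩

lemma W_deg (n : ℕ) : ∀ s ∈ W n, n ≤ deg s ∧ (deg s = n → NA n (pos s)) := by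
  induction n with
  | zero =>
    intro s hs
    rw [W, Set.mem_singleton_iff] at hs
    subst hs
    exact ⟨le_rfl, fun _ => NA.zero⟩
  | succ n ih =>
    rintro s ⟨a, ha, b, hb, rfl⟩
    obtain ⟨h1, h2⟩ := ih a ha
    have h3 := deg_pos hb
    rw [deg_add, pos_add]
    refine ⟨by omega, fun h => ?_⟩
    have hb1 : deg b = 1 := by omega
    have ha1 : deg a = n := by omega
    refine NA.step (h2 ha1) ?_
    have := P_S b
    rw [hb1] at this
    exact P_one this

lemma W_NA {n u : ℕ} (h : NA n u) : ∀ s : S, deg s = n → pos s = u → s ∈ W n := by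
  induction h with
  | zero =>
    intro s h1 _
    rw [eq_zero_of_deg h1]
    rfl
  | @step n u a h ha ih =>
    intro s h1 h2
    have hPa : P 1 a := by
      simp only [A, List.mem_cons, List.not_mem_nil, or_false] at ha
      rcases ha with rfl | rfl | rfl | rfl | rfl | rfl <;> decide
    refine ⟨mkS n u (NA_P h), ih _ rfl rfl, mkS 1 a hPa, ?_, ?_⟩
    · intro hc
      have := congrArg deg hc
      simp at this
    · exact ext_S (by simp [h1]) (by simp [h2])

lemma W_big (n : ℕ) (hn : 7 ≤ n) : ∀ s : S, deg s = n → s ∈ W n := by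
  induction n, hn using Nat.le_induction with
  | base =>
    intro s h
    have h1 := P_S s
    rw [h] at h1
    exact W_NA (P_seven h1) s h rfl
  | succ n hn ih =>
    intro s h
    have h1 := P_S s
    rw [h] at h1
    rcases P_step hn h1 with h2 | ⟨h2, h3⟩
    · refine ⟨mkS n (pos s) h2, ih _ rfl, e1, ?_, ext_S ?_ ?_⟩
      · intro hc
        have := congrArg deg hc
        simp at this
      · simp [h]
      · simp
    · refine ⟨mkS n (pos s - 35) h3, ih _ rfl, e2, ?_, ext_S ?_ ?_⟩
      · intro hc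
        have := congrArg deg hc
        simp at this
      · simp [h]
      · simp only [pos_add, pos_mkS, pos_e2]; omega

lemma of_mem_pow_of_W {n k : ℕ} (hk : k ≤ n) {s : S} (h : s ∈ W n) :
    (single s 1 : B) ∈ MM ^ k := by
  apply Ideal.pow_le_pow_right hk
  rw [MM_pow]
  exact Ideal.subset_span ⟨s, h, rfl⟩

/-- (F2) -/
lemma of_mem_pow {s : S} {k : ℕ} (h7 : 7 ≤ deg s) (hk : k ≤ deg s) :
    (single s 1 : B) ∈ MM ^ k := of_mem_pow_of_W hk (W_big _ h7 s rfl)

lemma mem_of_support {I : Ideal B} {f : B} (h : ∀ s ∈ f.coeff.support, (single s 1 : B) ∈ I) :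
    f ∈ I := by
  rw [← sum_coeff_single f]
  apply Ideal.sum_mem
  intro s hs
  have : (single s (f.coeff s) : B) = single 0 (f.coeff s) * single s 1 := by simp
  change (single s (f.coeff s) : B) ∈ I
  rw [this]
  exact I.mul_mem_left _ (h s hs)

/-- the reduction number is at most 5 -/
lemma MM_six : MM ^ 6 = JJ * MM ^ 5 := by
  apply le_antisymm
  · rw [MM_pow 6, Ideal.span_le]
    rintro _ ⟨s, hs, rfl⟩
    change (single s 1 : B) ∈ JJ * MM ^ 5
    obtain ⟨h1, h2⟩ := W_deg 6 s hs
    have hP := P_S s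
    -- a divisor suffices
    have key : ∀ (e t : S), (single e 1 : B) ∈ JJ → s = e + t → (single t 1 : B) ∈ MM ^ 5 →
        (single s 1 : B) ∈ JJ * MM ^ 5 := by
      intro e t he hst ht
      have : (single s 1 : B) = single e 1 * single t 1 := by simp [hst]
      rw [this]
      exact Ideal.mul_mem_mul he ht
    have he1 : (single e1 1 : B) ∈ JJ := Ideal.subset_span (by simp)
    have he2 : (single e2 1 : B) ∈ JJ := Ideal.subset_span (by simp)
    by_cases h6 : deg s = 6
    · rcases NA_six (h2 h6) with h | ⟨h, h'⟩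
      · refine key e1 (mkS 5 (pos s) (NA_P h)) he1 (ext_S ?_ ?_) ?_
        · simp [h6]
        · simp
        · exact of_mem_pow_of_W le_rfl (W_NA h _ rfl rfl)
      · refine key e2 (mkS 5 (pos s - 35) (NA_P h')) he2 (ext_S ?_ ?_) ?_
        · simp [h6]
        · simp only [pos_add, pos_mkS, pos_e2]; omega
        · exact of_mem_pow_of_W le_rfl (W_NA h' _ rfl rfl)
    · by_cases h7 : deg s = 7
      · -- degree 7
        rw [h7] at hP
        have h := P_seven hP
        obtain ⟨q, hq⟩ : ∃ q, pos s = q := ⟨_, rfl⟩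
        rw [hq] at h
        cases h with
        | @step n u a hNA ha =>
          rcases NA_six hNA with h | ⟨h, h'⟩
          · have h5 := NA.step h ha
            refine key e1 (mkS 6 (u + a) (NA_P h5)) he1 (ext_S ?_ ?_) ?_
            · simp [h7]
            · simp [hq]
            · exact of_mem_pow_of_W (by norm_num) (W_NA h5 _ rfl rfl)
          · have h5 := NA.step h' ha
            refine key e2 (mkS 6 (u - 35 + a) (NA_P h5)) he2 (ext_S ?_ ?_) ?_
            · simp [h7]
            · simp only [pos_add, pos_mkS, pos_e2]; omega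
            · exact of_mem_pow_of_W (by norm_num) (W_NA h5 _ rfl rfl)
      · obtain ⟨m, hm⟩ : ∃ m, deg s = m + 1 := ⟨deg s - 1, by omega⟩
        have hm7 : 7 ≤ m := by omega
        rw [hm] at hP
        rcases P_step hm7 hP with h | ⟨h, h'⟩
        · refine key e1 (mkS m (pos s) h) he1 (ext_S ?_ ?_) ?_
          · simp [hm]; omega
          · simp
          · exact of_mem_pow (by simpa using hm7) (by simp; omega)
        · refine key e2 (mkS m (pos s - 35) h') he2 (ext_S ?_ ?_) ?_
          · simp [hm]; omega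
          · simp only [pos_add, pos_mkS, pos_e2]; omega
          · exact of_mem_pow (by simpa using hm7) (by simp; omega)
  · have hJ : JJ ≤ MM := by
      rw [JJ, Ideal.span_le]
      intro x hx
      simp only [Set.mem_insert_iff, Set.mem_singleton_iff] at hx
      rcases hx with rfl | rfl
      · rw [SetLike.mem_coe, mem_MM, coeff_single, Finsupp.single_apply, if_neg]
        intro h
        have := congrArg deg h
        simp at this
      · rw [SetLike.mem_coe, mem_MM, coeff_single, Finsupp.single_apply, if_neg]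
        intro h
        have := congrArg deg h
        simp at this
    calc JJ * MM ^ 5 ≤ MM * MM ^ 5 := Ideal.mul_mono_left hJ
      _ = MM ^ 6 := by rw [← pow_succ']

end Pool.Agent.R695.Dao
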