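import Mathlib

/-!
The affine semigroup `S ⊆ ℕ × ℕ` used for the counterexample to the third Dao number of a minimal
reduction of the maximal ideal is its reduction number.  A pair `(n, u)` is the monomial of
degree `n` and position `u`.  The degree one part is `{0, 3, 18, 21, 27, 35}`; the semigroup is the
Cohen-Macaulay closure of the semigroup generated by its degree one part.
-/

namespace Pool.Agent.R695.Dao

/-- distance from the right end, by class modulo 35 -/
def l1 : List ℕ := [0, 34, 33, 32, 31, 30, 64, 28, 62, 61, 25, 24, 58, 22, 56, 55, 54, 53, 17, 16,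
  50, 14, 48, 47, 46, 45, 44, 8, 42, 41, 40, 39, 38, 72, 36]

/-- least position, by class modulo 35 -/
def l2 : List ℕ := [0, 36, 72, 3, 39, 75, 6, 42, 78, 9, 45, 81, 12, 48, 84, 15, 51, 87, 18, 54,
  90, 21, 57, 93, 24, 60, 96, 27, 63, 99, 30, 66, 102, 33, 69]

def b1 (c : ℕ) : ℕ := l1.getD c 0
def b2 (c : ℕ) : ℕ := l2.getD c 0

/-- membership in the semigroup -/
def P (n u : ℕ) : Prop := b2 (u % 35) ≤ u ∧ u + b1 (u % 35) ≤ 35 * n

instance (n u : ℕ) : Decidable (P n u) := by unfold P; infer_instance

lemma b_sub : ∀ c < 35, ∀ d < 35, b2 ((c + d) % 35) ≤ b2 c + b2 d ∧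
    b1 ((c + d) % 35) ≤ b1 c + b1 d := by decide +kernel

lemma b_bound : ∀ c < 35, b1 c + b2 c ≤ 140 := by decide +kernel

lemma b_cong : ∀ c < 35, b2 c % 35 = c ∧ (b1 c + b2 c) % 35 = 0 := by decide +kernel

lemma P_zero : P 0 0 := by decide

lemma P_add {n u m v : ℕ} (h : P n u) (h' : P m v) : P (n + m) (u + v) := by
  have hb := b_sub (u % 35) (Nat.mod_lt _ (by norm_num)) (v % 35) (Nat.mod_lt _ (by norm_num))
  rw [← Nat.add_mod] at hb
  obtain ⟨h1, h2⟩ := h
  obtain ⟨h3, h4⟩ := h'
  constructor
  · omega
  · omega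

lemma P_deg_zero {u : ℕ} (h : P 0 u) : u = 0 := by
  have := h.2
  omega

lemma P_e1 : P 1 0 := by decide
lemma P_e2 : P 1 35 := by decide

/-- Cohen-Macaulay property -/
lemma P_cm {n u : ℕ} (h : P n u) (h' : P n (u + 35)) : 1 ≤ n ∧ P (n - 1) u := by
  have hm : (u + 35) % 35 = u % 35 := by omega
  obtain ⟨h1, h2⟩ := h
  obtain ⟨h3, h4⟩ := h'
  rw [hm] at h3 h4
  refine ⟨by omega, h1, by omega⟩

/-- every element is a corner plus multiples of the two parameters -/
lemma P_decomp {n u : ℕ} (h : P n u) :
    ∃ p q : ℕ, n = (b1 (u % 35) + b2 (u % 35)) / 35 + p + q ∧ u = b2 (u % 35) + 35 * q := by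
  have hc := b_cong (u % 35) (Nat.mod_lt _ (by norm_num))
  obtain ⟨h1, h2⟩ := h
  obtain ⟨h3, h4⟩ := hc
  refine ⟨n - (b1 (u % 35) + b2 (u % 35)) / 35 - (u - b2 (u % 35)) / 35,
    (u - b2 (u % 35)) / 35, ?_, ?_⟩
  · omega
  · omega

lemma P_corner : ∀ c < 35, P ((b1 c + b2 c) / 35) (b2 c) := by decide +kernel

/-- step: an element of degree `≥ 8` (indeed `≥ 6`) is divisible by one of the two parameters. -/
lemma P_step {n u : ℕ} (hn : 7 ≤ n) (h : P (n + 1) u) :
    P n u ∨ (35 ≤ u ∧ P n (u - 35)) := by
  have hb := b_bound (u % 35) (Nat.mod_lt _ (by norm_num))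
  obtain ⟨h1, h2⟩ := h
  by_cases hc : u + b1 (u % 35) ≤ 35 * n
  · exact Or.inl ⟨h1, hc⟩
  · right
    have hu : 35 ≤ u := by omega
    refine ⟨hu, ?_⟩
    have hm : (u - 35) % 35 = u % 35 := by omega
    constructor
    · rw [hm]; omega
    · rw [hm]; omega

/-- the degree one positions -/
def A : List ℕ := [0, 3, 18, 21, 27, 35]

/-- sums of `n` degree one positions -/
inductive NA : ℕ → ℕ → Prop
  | zero : NA 0 0
  | step {n u a : ℕ} : NA n u → a ∈ A → NA (n + 1) (u + a)

/-- bit mask of the `n`-fold sumset -/
def mask : ℕ → ℕ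
  | 0 => 1
  | n + 1 => (mask n) ||| (mask n <<< 3) ||| (mask n <<< 18) ||| (mask n <<< 21) |||
      (mask n <<< 27) ||| (mask n <<< 35)

lemma NA_mask (n : ℕ) : ∀ u, NA n u ↔ (mask n).testBit u = true := by
  induction n with
  | zero =>
    intro u
    constructor
    · intro h
      cases h
      decide
    · intro h
      have : u = 0 := by
        by_contra hu
        rw [mask, Nat.testBit_one_eq_true_iff_self_eq_zero] at h
        exact hu h
      subst this
      exact NA.zero
  | succ n ih =>
    intro u
    constructor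
    · intro h
      cases h with
      | @step n' v a h1 h2 =>
        have h3 := (ih v).1 h1
        simp only [A, List.mem_cons, List.not_mem_nil, or_false] at h2
        simp only [mask, Nat.testBit_lor, Nat.testBit_shiftLeft, Bool.or_eq_true,
          Bool.and_eq_true, decide_eq_true_eq]
        rcases h2 with rfl | rfl | rfl | rfl | rfl | rfl
        · left; left; left; left; left
          simpa using h3
        · left; left; left; left; right
          exact ⟨by omega, by simpa using h3⟩
        · left; left; left; right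
          exact ⟨by omega, by simpa using h3⟩
        · left; left; right
          exact ⟨by omega, by simpa using h3⟩
        · left; right
          exact ⟨by omega, by simpa using h3⟩
        · right
          exact ⟨by omega, by simpa using h3⟩
    · intro h
      simp only [mask, Nat.testBit_lor, Nat.testBit_shiftLeft, Bool.or_eq_true,
          Bool.and_eq_true, decide_eq_true_eq] at h
      have key : ∀ a ∈ A, a ≤ u → (mask n).testBit (u - a) = true → NA (n + 1) u := by
        intro a ha hau h
        have := NA.step ((ih _).2 h) ha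
        rwa [Nat.sub_add_cancel hau] at this
      rcases h with ((((h | h) | h) | h) | h) | h
      · exact key 0 (by decide) (Nat.zero_le _) (by simpa using h)
      · exact key 3 (by decide) h.1 h.2
      · exact key 18 (by decide) h.1 h.2
      · exact key 21 (by decide) h.1 h.2
      · exact key 27 (by decide) h.1 h.2
      · exact key 35 (by decide) h.1 h.2

lemma NA_P {n u : ℕ} (h : NA n u) : P n u := by
  induction h with
  | zero => exact P_zero
  | @step n u a h ha ih =>
    refine P_add ih ?_
    simp only [A, List.mem_cons, List.not_mem_nil, or_false] at ha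
    rcases ha with rfl | rfl | rfl | rfl | rfl | rfl <;> decide

lemma P_one {u : ℕ} (h : P 1 u) : u ∈ A := by
  have hu : u < 36 := by have := h.2; omega
  have key : ∀ u < 36, P 1 u → u ∈ A := by decide +kernel
  exact key u hu h

lemma P_seven {u : ℕ} (h : P 7 u) : NA 7 u := by
  rw [NA_mask]
  have hu : u < 246 := by have := h.2; omega
  have key : ∀ u < 246, P 7 u → (mask 7).testBit u = true := by decide +kernel
  exact key u hu h

lemma mask_six : mask 6 = mask 5 ||| (mask 5 <<< 35) := by decide +kernel

lemma NA_six {u : ℕ} (h : NA 6 u) : NA 5 u ∨ (35 ≤ u ∧ NA 5 (u - 35)) := by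
  rw [NA_mask, mask_six, Nat.testBit_lor, Nat.testBit_shiftLeft] at h
  simp only [Bool.or_eq_true, Bool.and_eq_true, decide_eq_true_eq] at h
  rcases h with h | h
  · exact Or.inl ((NA_mask 5 u).2 h)
  · exact Or.inr ⟨h.1, (NA_mask 5 _).2 h.2⟩

lemma not_NA_six : ¬ NA 6 85 := by
  rw [NA_mask]; decide +kernel

lemma P_six : P 6 85 := by decide

lemma NA_five : NA 5 15 := by
  rw [NA_mask]; decide +kernel

lemma not_NA_four : ¬ NA 4 15 := by
  rw [NA_mask]; decide +kernel

end Pool.Agent.R695.Dao
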