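import Mathlib

/-!
Definitions for the problem on the third Dao number of minimal reductions of the maximal ideal.
-/

namespace Pool.Agent.R695.Dao

open IsLocalRing

variable {R : Type*} [CommRing R] [IsLocalRing R]

/-- `J` is weakly `𝔪`-full: `(J𝔪 : 𝔪) = J`. -/
def WeaklyMFull (J : Ideal R) : Prop :=
  (J * maximalIdeal R).colon (maximalIdeal R : Set R) = J

/-- `I ⊆ 𝔪` is a reduction of `𝔪`: `I 𝔪 ^ r = 𝔪 ^ (r + 1)` for some `r`. -/
def IsReduction (I : Ideal R) : Prop :=
  I ≤ maximalIdeal R ∧ ∃ r : ℕ, I * maximalIdeal R ^ r = maximalIdeal R ^ (r + 1)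

/-- `I` is minimal under inclusion among the reductions of `𝔪`. -/
def IsMinimalReduction (I : Ideal R) : Prop :=
  IsReduction I ∧ ∀ I' : Ideal R, IsReduction I' → I' ≤ I → I' = I

/-- `n` is the reduction number `r_I(𝔪) = min {n ≥ 0 : I 𝔪 ^ n = 𝔪 ^ (n + 1)}`. -/
def IsReductionNumber (I : Ideal R) (n : ℕ) : Prop :=
  IsLeast {n : ℕ | I * maximalIdeal R ^ n = maximalIdeal R ^ (n + 1)} n

/-- `t` is the third Dao number
`𝔡₃(I) = min {t ≥ 0 : I 𝔪 ^ k is weakly 𝔪-full for every k ≥ t}`. -/
def IsThirdDaoNumber (I : Ideal R) (t : ℕ) : Prop :=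
  IsLeast {t : ℕ | ∀ k ≥ t, WeaklyMFull (I * maximalIdeal R ^ k)} t

variable (R) in
/-- The local ring `R` is Cohen-Macaulay: some regular sequence in `𝔪` has length `dim R`. -/
def IsCMLocal : Prop :=
  ∃ rs : List R, (∀ r ∈ rs, r ∈ maximalIdeal R) ∧ RingTheory.Sequence.IsRegular R rs ∧
    (rs.length : WithBot ℕ∞) = ringKrullDim R

/-- In a Noetherian local ring of dimension two, a two-generated reduction is minimal. -/
theorem isMinimalReduction_of_pair [IsNoetherianRing R] (hd : ringKrullDim R = 2) (x y : R)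
    (hI : IsReduction (Ideal.span {x, y})) : IsMinimalReduction (Ideal.span {x, y}) := by
  refine ⟨hI, fun I' hI' hle => le_antisymm hle ?_⟩
  set m := maximalIdeal R with hm
  set J := Ideal.span {x, y} with hJ
  have hx : x ∈ J := Ideal.subset_span (by simp)
  have hy : y ∈ J := Ideal.subset_span (by simp)
  -- main dichotomy
  have key : (∃ z ∈ m, I' ≤ Ideal.span {z} ⊔ m * J) ∨ J ≤ I' := by
    by_cases hall : ∀ a b : R, a * x + b * y ∈ I' → a ∈ m ∧ b ∈ m
    · left
      refine ⟨0, m.zero_mem, ?_⟩
      intro F hF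
      obtain ⟨a, b, hab⟩ := Ideal.mem_span_pair.1 (hle hF)
      obtain ⟨ha, hb⟩ := hall a b (hab ▸ hF)
      rw [← hab]
      exact Ideal.mem_sup_right (add_mem (Ideal.mul_mem_mul ha hx) (Ideal.mul_mem_mul hb hy))
    · push Not at hall
      obtain ⟨a, b, hF, hab⟩ := hall
      by_cases hdet : ∀ c d : R, c * x + d * y ∈ I' → a * d - c * b ∈ m
      · left
        refine ⟨a * x + b * y, hI.1 (hle hF), ?_⟩
        intro G hG
        obtain ⟨c, d, hcd⟩ := Ideal.mem_span_pair.1 (hle hG)
        have h1 := hdet c d (hcd ▸ hG)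
        rw [← hcd]
        by_cases ha : a ∈ m
        · -- `b` is a unit
          have hb : IsUnit b := by
            by_contra hb
            exact hab ha ((mem_maximalIdeal b).2 hb)
          obtain ⟨v, hv⟩ := hb.exists_left_inv
          have : c * x + d * y = (d * v) * (a * x + b * y) + (-(v * (a * d - c * b))) * x := by
            linear_combination (-(c * x + d * y)) * hv
          rw [this]
          exact add_mem (Ideal.mem_sup_left (Ideal.mul_mem_left _ _ (Ideal.mem_span_singleton_self _)))
            (Ideal.mem_sup_right (Ideal.mul_mem_mul (m.neg_mem (m.mul_mem_left _ h1)) hx))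
        · have ha' : IsUnit a := by
            by_contra ha'
            exact ha ((mem_maximalIdeal a).2 ha')
          obtain ⟨v, hv⟩ := ha'.exists_left_inv
          have : c * x + d * y = (c * v) * (a * x + b * y) + (v * (a * d - c * b)) * y := by
            linear_combination (-(c * x + d * y)) * hv
          rw [this]
          exact add_mem (Ideal.mem_sup_left (Ideal.mul_mem_left _ _ (Ideal.mem_span_singleton_self _)))
            (Ideal.mem_sup_right (Ideal.mul_mem_mul (m.mul_mem_left _ h1) hy))
      · right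
        push Not at hdet
        obtain ⟨c, d, hG, hdt⟩ := hdet
        have hu : IsUnit (a * d - c * b) := by
          by_contra hu
          exact hdt ((mem_maximalIdeal _).2 hu)
        obtain ⟨v, hv⟩ := hu.exists_left_inv
        rw [hJ, Ideal.span_le]
        intro z hz
        simp only [Set.mem_insert_iff, Set.mem_singleton_iff] at hz
        rcases hz with rfl | rfl
        · have : z = (v * d) * (a * z + b * y) + (-(v * b)) * (c * z + d * y) := by
            linear_combination (-z) * hv
          rw [SetLike.mem_coe, this]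
          exact add_mem (I'.mul_mem_left _ hF) (I'.mul_mem_left _ hG)
        · have : z = (-(v * c)) * (a * x + b * z) + (v * a) * (c * x + d * z) := by
            linear_combination (-z) * hv
          rw [SetLike.mem_coe, this]
          exact add_mem (I'.mul_mem_left _ hF) (I'.mul_mem_left _ hG)
  rcases key with ⟨z, hz, hzI⟩ | h
  swap
  · exact h
  exfalso
  obtain ⟨-, n, hn⟩ := hI'
  have h1 : m ^ (n + 1) ≤ Ideal.span {z} ⊔ m • m ^ (n + 1) := by
    calc m ^ (n + 1) = I' * m ^ n := hn.symm
      _ ≤ (Ideal.span {z} ⊔ m * J) * m ^ n := Ideal.mul_mono_left hzI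
      _ = Ideal.span {z} * m ^ n ⊔ m * J * m ^ n := Ideal.sup_mul _ _ _
      _ ≤ Ideal.span {z} ⊔ m * m ^ (n + 1) := by
        apply sup_le_sup
        · exact (Ideal.mul_le_left : Ideal.span {z} * m ^ n ≤ Ideal.span {z})
        · rw [mul_assoc]
          apply Ideal.mul_mono_right
          calc J * m ^ n ≤ m * m ^ n := Ideal.mul_mono_left hI.1
            _ = m ^ (n + 1) := (pow_succ' m n).symm
  have h2 : m ^ (n + 1) ≤ Ideal.span {z} := by
    apply Submodule.le_of_le_smul_of_le_jacobson_bot (I := m)
    · exact IsNoetherian.noetherian _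
    · rw [IsLocalRing.jacobson_eq_maximalIdeal ⊥ bot_ne_top]
    · exact h1
  have h3 : m ∈ (Ideal.span {z}).minimalPrimes := by
    refine ⟨⟨Ideal.IsMaximal.isPrime' m, ?_⟩, ?_⟩
    · rw [Ideal.span_le]; simpa using hz
    · rintro q ⟨hq, hq2⟩ _
      exact hq.le_of_pow_le (h2.trans hq2)
  have h4 := Ideal.height_le_one_of_isPrincipal_of_mem_minimalPrimes (Ideal.span {z}) m h3
  have h5 : ((m.height : ℕ∞) : WithBot ℕ∞) = ((2 : ℕ∞) : WithBot ℕ∞) := by
    rw [hm, IsLocalRing.maximalIdeal_height_eq_ringKrullDim, hd]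
    rfl
  have h6 : m.height = 2 := WithBot.coe_inj.1 h5
  rw [h6] at h4
  exact absurd h4 (by decide)

end Pool.Agent.R695.Dao
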