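import Pool.Agent.R695.DaoAlg
import Pool.Agent.R695.DaoDefs

namespace Pool.Agent.R695.Dao

open AddMonoidAlgebra IsLocalRing

/-- the local ring -/
abbrev Rl := Localization.AtPrime MM

noncomputable instance : CommRing Rl := inferInstance
instance : IsLocalRing Rl := inferInstance
instance : IsNoetherianRing Rl := IsLocalization.isNoetherianRing MM.primeCompl Rl inferInstance

lemma max_eq : maximalIdeal Rl = MM.map (algebraMap B Rl) :=
  Localization.AtPrime.map_eq_maximalIdeal.symm

lemma max_pow (n : ℕ) : maximalIdeal Rl ^ n = (MM ^ n).map (algebraMap B Rl) := by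
  rw [max_eq, Ideal.map_pow]

/-- the parameter ideal -/
noncomputable def J : Ideal Rl := JJ.map (algebraMap B Rl)

lemma J_eq : J = Ideal.span {algebraMap B Rl (single e1 1), algebraMap B Rl (single e2 1)} := by
  rw [J, JJ, Ideal.map_span, Set.image_pair]

lemma J_mul (n : ℕ) : J * maximalIdeal Rl ^ n = (JJ * MM ^ n).map (algebraMap B Rl) := by
  rw [J, max_pow, Ideal.map_mul]

lemma mem_map_iff (I : Ideal B) (f : B) :
    algebraMap B Rl f ∈ I.map (algebraMap B Rl) ↔ ∃ c : B, c.coeff 0 ≠ 0 ∧ c * f ∈ I := by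
  rw [IsLocalization.algebraMap_mem_map_algebraMap_iff MM.primeCompl Rl]
  constructor
  · rintro ⟨c, hc, h⟩
    exact ⟨c, fun h0 => hc (mem_MM.2 h0), h⟩
  · rintro ⟨c, hc, h⟩
    exact ⟨c, fun h0 => hc (mem_MM.1 h0), h⟩

lemma add_left_cancel_S {a b c : S} (h : a + b = a + c) : b = c := add_left_cancel h

lemma coeff_mul_single_self (c : B) (s t : S) :
    (c * single t 1).coeff (s + t) = c.coeff s := by
  rw [AddMonoidAlgebra.coeff_mul_single_eq_coeff_mul s, mul_one]
  intro m _
  exact ⟨fun h => add_right_cancel h, fun h => by rw [h]⟩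

lemma exists_rep (F : Rl) : ∃ f g : B, g.coeff 0 ≠ 0 ∧ F * algebraMap B Rl g = algebraMap B Rl f := by
  obtain ⟨⟨f, g⟩, h⟩ := IsLocalization.surj MM.primeCompl F
  exact ⟨f, g.1, fun h0 => g.2 (mem_MM.2 h0), h⟩

lemma isUnit_map {g : B} (hg : g.coeff 0 ≠ 0) : IsUnit (algebraMap B Rl g) :=
  IsLocalization.map_units Rl (⟨g, fun h => hg (mem_MM.1 h)⟩ : MM.primeCompl)

/-- `J 𝔪^n = 𝔪^(n+1)` for `n ≥ 5` -/
lemma J_mul_pow (n : ℕ) (hn : 5 ≤ n) : J * maximalIdeal Rl ^ n = maximalIdeal Rl ^ (n + 1) := by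
  obtain ⟨k, rfl⟩ := Nat.exists_eq_add_of_le hn
  rw [pow_add, ← mul_assoc]
  have : J * maximalIdeal Rl ^ 5 = maximalIdeal Rl ^ 6 := by
    rw [J_mul, max_pow, MM_six]
  rw [this, ← pow_add]
  congr 1
  omega

/-- a monomial which is not in the ideal `span (of' '' T)` is not in its localisation. -/
lemma not_mem_of (T : Set S) (s : S) (h : ∀ m' ∈ T, ∀ d, s ≠ d + m') :
    algebraMap B Rl (single s 1) ∉ (Ideal.span (of' ℚ S '' T)).map (algebraMap B Rl) := by
  rw [mem_map_iff]
  rintro ⟨c, hc, hm⟩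
  rw [mem_ideal_span_of'_image] at hm
  have h1 : (c * single s 1).coeff s = c.coeff 0 := by
    have := coeff_mul_single_self c 0 s
    rwa [zero_add] at this
  obtain ⟨m', hm', d, hd⟩ := hm s (by rw [Finsupp.mem_support_iff, h1]; exact hc)
  exact h m' hm' d hd

/-- the distinguished element of `𝔪^7 : 𝔪` -/
def u0 : S := mkS 6 85 P_six

lemma u0_not_mem : algebraMap B Rl (single u0 1) ∉ maximalIdeal Rl ^ 6 := by
  rw [max_pow, MM_pow]
  apply not_mem_of
  intro m' hm' d hd
  obtain ⟨h1, h2⟩ := W_deg 6 m' hm'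
  have h3 := congrArg deg hd
  have h4 := congrArg pos hd
  rw [deg_add] at h3
  rw [pos_add] at h4
  have h5 : deg u0 = 6 := rfl
  have h6 : pos u0 = 85 := rfl
  have hd0 : deg d = 0 := by omega
  have := eq_zero_of_deg hd0
  rw [this, pos_zero] at h4
  have h7 := h2 (by omega)
  rw [show pos m' = 85 by omega] at h7
  exact not_NA_six h7

lemma u0_mul (F : Rl) (hF : F ∈ maximalIdeal Rl) :
    algebraMap B Rl (single u0 1) * F ∈ maximalIdeal Rl ^ 7 := by
  rw [max_eq] at hF
  have : algebraMap B Rl (single u0 1) * F ∈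
      Ideal.span {algebraMap B Rl (single u0 1)} * MM.map (algebraMap B Rl) :=
    Ideal.mul_mem_mul (Ideal.mem_span_singleton_self _) hF
  refine (?_ : Ideal.span {algebraMap B Rl (single u0 1)} * MM.map (algebraMap B Rl) ≤ _) this
  rw [max_pow, ← Set.image_singleton, ← Ideal.map_span, ← Ideal.map_mul]
  apply Ideal.map_mono
  rw [MM_eq, Ideal.span_mul_span', Ideal.span_le]
  rintro _ ⟨_, rfl, _, ⟨b, hb, rfl⟩, rfl⟩
  have hb' := deg_pos hb
  have : (single u0 1 : B) * of' ℚ S b = single (u0 + b) 1 := by simp [of']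
  change (single u0 1 : B) * of' ℚ S b ∈ _
  rw [this]
  have h5 : deg u0 = 6 := rfl
  have h8 : (single (u0 + b) 1 : B) ∈ MM ^ 7 :=
    of_mem_pow (s := u0 + b) (k := 7) (by rw [deg_add]; omega) (by rw [deg_add]; omega)
  rw [MM_eq] at h8
  exact h8

lemma colon_le (k : ℕ) (hk : 7 ≤ k) (F : Rl)
    (hF : F * algebraMap B Rl (single e1 1) ∈ maximalIdeal Rl ^ (k + 1)) :
    F ∈ maximalIdeal Rl ^ k := by
  obtain ⟨f, g, hg, hfg⟩ := exists_rep F
  have h1 : algebraMap B Rl (f * single e1 1) ∈ (MM ^ (k + 1)).map (algebraMap B Rl) := by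
    rw [map_mul, ← hfg, ← max_pow,
      show F * algebraMap B Rl g * algebraMap B Rl (single e1 1) =
        algebraMap B Rl g * (F * algebraMap B Rl (single e1 1)) by ring]
    exact Ideal.mul_mem_left _ _ hF
  rw [mem_map_iff] at h1
  obtain ⟨c, hc, hm⟩ := h1
  rw [MM_pow, mem_ideal_span_of'_image] at hm
  have h2 : c * f ∈ MM ^ k := by
    apply mem_of_support
    intro s hs
    rw [Finsupp.mem_support_iff] at hs
    obtain ⟨m', hm', d, hd⟩ := hm (s + e1) (by
      rw [Finsupp.mem_support_iff, ← mul_assoc, coeff_mul_single_self]; exact hs)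
    obtain ⟨h3, -⟩ := W_deg _ m' hm'
    have h4 := congrArg deg hd
    rw [deg_add, deg_add, deg_e1] at h4
    exact of_mem_pow (by omega) (by omega)
  have h3 : algebraMap B Rl (c * f) ∈ maximalIdeal Rl ^ k := by
    rw [max_pow]; exact Ideal.mem_map_of_mem _ h2
  rw [map_mul, ← hfg, mul_comm F, ← mul_assoc] at h3
  have hu : IsUnit (algebraMap B Rl c * algebraMap B Rl g) := (isUnit_map hc).mul (isUnit_map hg)
  exact (Ideal.unit_mul_mem_iff_mem _ hu).1 h3

lemma e1_mem : algebraMap B Rl (single e1 1) ∈ maximalIdeal Rl := by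
  rw [max_eq]
  apply Ideal.mem_map_of_mem
  rw [mem_MM, coeff_single, Finsupp.single_apply, if_neg]
  intro h
  have := congrArg deg h
  simp at this

lemma e2_mem : algebraMap B Rl (single e2 1) ∈ maximalIdeal Rl := by
  rw [max_eq]
  apply Ideal.mem_map_of_mem
  rw [mem_MM, coeff_single, Finsupp.single_apply, if_neg]
  intro h
  have := congrArg deg h
  simp at this

/-- `𝔡₃(J) = 6` -/
lemma dao_six : IsThirdDaoNumber J 6 := by
  constructor
  · intro k hk
    rw [WeaklyMFull, J_mul_pow k (by omega)]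
    apply le_antisymm
    · intro F hF
      rw [Submodule.mem_colon] at hF
      have h1 := hF _ e1_mem
      rw [smul_eq_mul, ← pow_succ] at h1
      exact colon_le (k + 1) (by omega) F h1
    · intro F hF
      rw [Submodule.mem_colon]
      intro G hG
      exact Ideal.mul_mem_mul hF hG
  · intro t ht
    by_contra hc
    have h1 := ht 5 (by omega)
    rw [WeaklyMFull, J_mul_pow 5 le_rfl] at h1
    apply u0_not_mem
    rw [← h1, Submodule.mem_colon]
    intro G hG
    rw [smul_eq_mul, ← pow_succ]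
    exact u0_mul G hG

lemma not_four : J * maximalIdeal Rl ^ 4 ≠ maximalIdeal Rl ^ 5 := by
  intro h
  have h1 : algebraMap B Rl (single (mkS 5 15 (NA_P NA_five)) 1) ∈ maximalIdeal Rl ^ 5 := by
    rw [max_pow]
    exact Ideal.mem_map_of_mem _ (of_mem_pow_of_W le_rfl (W_NA NA_five _ rfl rfl))
  rw [← h, J_mul, JJ_mul] at h1
  refine not_mem_of _ _ ?_ h1
  rintro m' ⟨a, ha, b, hb, rfl⟩ d hd
  obtain ⟨h2, h3⟩ := W_deg 4 b hb
  have h4 := congrArg deg hd
  have h5 := congrArg pos hd
  simp only [deg_add, pos_add, deg_mkS, pos_mkS] at h4 h5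
  simp only [Set.mem_insert_iff, Set.mem_singleton_iff] at ha
  rcases ha with rfl | rfl
  · simp only [deg_e1, pos_e1] at h4 h5
    have hd0 : deg d = 0 := by omega
    have := eq_zero_of_deg hd0
    rw [this, pos_zero] at h5
    have h7 := h3 (by omega)
    rw [show pos b = 15 by omega] at h7
    exact not_NA_four h7
  · simp only [deg_e2, pos_e2] at h4 h5
    omega

/-- the reduction number is 5 -/
lemma red_five : IsReductionNumber J 5 := by
  constructor
  · exact J_mul_pow 5 le_rfl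
  · intro n hn
    by_contra hc
    apply not_four
    have hn' : J * maximalIdeal Rl ^ n = maximalIdeal Rl ^ (n + 1) := hn
    have h4 : 4 = n + (4 - n) := by omega
    calc J * maximalIdeal Rl ^ 4 = J * maximalIdeal Rl ^ (n + (4 - n)) := by rw [← h4]
      _ = maximalIdeal Rl ^ (n + 1) * maximalIdeal Rl ^ (4 - n) := by
        rw [pow_add, ← mul_assoc, hn']
      _ = maximalIdeal Rl ^ 5 := by rw [← pow_add]; congr 1; omega

lemma J_le : J ≤ maximalIdeal Rl := by
  rw [J_eq, Ideal.span_le]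
  intro z hz
  simp only [Set.mem_insert_iff, Set.mem_singleton_iff] at hz
  rcases hz with rfl | rfl
  · exact e1_mem
  · exact e2_mem

lemma J_red : IsReduction J := ⟨J_le, 5, J_mul_pow 5 le_rfl⟩

end Pool.Agent.R695.Dao
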