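import Pool.Agent.R695.DaoLocal

namespace Pool.Agent.R695.Dao

open AddMonoidAlgebra IsLocalRing RingTheory.Sequence

noncomputable def xx : Rl := algebraMap B Rl (single e1 1)
noncomputable def yy : Rl := algebraMap B Rl (single e2 1)

lemma map_eq_iff {f g : B} :
    algebraMap B Rl f = algebraMap B Rl g ↔ ∃ c : B, c.coeff 0 ≠ 0 ∧ c * f = c * g := by
  rw [IsLocalization.eq_iff_exists MM.primeCompl Rl]
  constructor
  · rintro ⟨c, h⟩
    exact ⟨c.1, fun h0 => c.2 (mem_MM.2 h0), h⟩
  · rintro ⟨c, hc, h⟩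
    exact ⟨⟨c, fun h0 => hc (mem_MM.1 h0)⟩, h⟩

lemma xx_reg : IsSMulRegular Rl xx := by
  rw [isSMulRegular_iff_right_eq_zero_of_smul]
  intro F hF
  obtain ⟨f, g, hg, hfg⟩ := exists_rep F
  have h1 : algebraMap B Rl (f * single e1 1) = algebraMap B Rl 0 := by
    rw [map_mul, ← hfg, map_zero,
      show F * algebraMap B Rl g * algebraMap B Rl (single e1 1) =
        algebraMap B Rl g * (xx * F) by rw [xx]; ring]
    rw [smul_eq_mul] at hF
    rw [hF, mul_zero]
  obtain ⟨c, hc, h2⟩ := map_eq_iff.1 h1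
  have h3 : c * f = 0 := by
    ext s
    have := congrArg (fun p : B => p.coeff (s + e1)) h2
    rw [← mul_assoc, coeff_mul_single_self, mul_zero] at this
    simpa using this
  have h4 : algebraMap B Rl c * algebraMap B Rl g * F = 0 := by
    rw [mul_assoc, mul_comm (algebraMap B Rl g), hfg, ← map_mul, h3, map_zero]
  have hu : IsUnit (algebraMap B Rl c * algebraMap B Rl g) := (isUnit_map hc).mul (isUnit_map hg)
  exact (hu.mul_right_eq_zero).1 h4

lemma dvd_of_support {p : B} (h : ∀ s ∈ p.coeff.support, ∃ s' : S, s = s' + e1) :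
    ∃ p' : B, p = single e1 1 * p' := by
  have : p ∈ Ideal.span {(single e1 1 : B)} := by
    apply mem_of_support
    intro s hs
    obtain ⟨s', rfl⟩ := h s hs
    rw [Ideal.mem_span_singleton]
    exact ⟨single s' 1, by simp [add_comm]⟩
  obtain ⟨p', hp'⟩ := Ideal.mem_span_singleton.1 this
  exact ⟨p', hp'⟩

lemma yy_reg : IsSMulRegular (QuotSMulTop xx Rl) yy := by
  refine (isSMulRegular_quotient_iff_mem_of_smul_mem _ _).2 ?_
  intro F hF
  rw [Submodule.mem_smul_pointwise_iff_exists] at hF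
  obtain ⟨G, -, hG⟩ := hF
  rw [smul_eq_mul, smul_eq_mul] at hG
  obtain ⟨f, g1, hg1, hf⟩ := exists_rep F
  obtain ⟨h, g2, hg2, hh⟩ := exists_rep G
  have h1 : algebraMap B Rl (g2 * f * single e2 1) = algebraMap B Rl (g1 * h * single e1 1) := by
    rw [map_mul, map_mul, map_mul, map_mul, ← hf, ← hh]
    have e1' : algebraMap B Rl (single e2 1) = yy := rfl
    have e2' : algebraMap B Rl (single e1 1) = xx := rfl
    rw [e1', e2']
    linear_combination (-(algebraMap B Rl g1 * algebraMap B Rl g2)) * hG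
  obtain ⟨c, hc, h2⟩ := map_eq_iff.1 h1
  -- `p * y = q * x`
  have h3 : ∃ p' : B, c * (g2 * f) = single e1 1 * p' := by
    apply dvd_of_support
    intro s hs
    rw [Finsupp.mem_support_iff] at hs
    have h4 : (c * (g2 * f) * single e2 1).coeff (s + e2) ≠ 0 := by
      rw [coeff_mul_single_self]; exact hs
    have h5 : c * (g2 * f) * single e2 1 = c * (g1 * h) * single e1 1 := by
      rw [mul_assoc, h2, ← mul_assoc]
    rw [h5] at h4
    have h6 : ∃ t : S, t + e1 = s + e2 := by
      by_contra hcon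
      push Not at hcon
      exact h4 (coeff_mul_single_of_forall_add_ne 1 _ hcon)
    obtain ⟨t, ht⟩ := h6
    have h7 := congrArg deg ht
    have h8 := congrArg pos ht
    rw [deg_add, deg_add, deg_e1, deg_e2] at h7
    rw [pos_add, pos_add, pos_e1, pos_e2] at h8
    have hP := P_S s
    have hP' := P_S t
    rw [show deg t = deg s by omega, show pos t = pos s + 35 by omega] at hP'
    obtain ⟨h9, h10⟩ := P_cm hP hP'
    refine ⟨mkS (deg s - 1) (pos s) h10, ext_S ?_ ?_⟩
    · rw [deg_add, deg_mkS, deg_e1]; omega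
    · rw [pos_add, pos_mkS, pos_e1]; omega
  obtain ⟨p', hp'⟩ := h3
  rw [Submodule.mem_smul_pointwise_iff_exists]
  have hu : IsUnit (algebraMap B Rl c * algebraMap B Rl g2 * algebraMap B Rl g1) :=
    ((isUnit_map hc).mul (isUnit_map hg2)).mul (isUnit_map hg1)
  obtain ⟨v, hv⟩ := hu.exists_left_inv
  refine ⟨v * algebraMap B Rl p', trivial, ?_⟩
  rw [smul_eq_mul]
  have h4 : algebraMap B Rl c * algebraMap B Rl g2 * algebraMap B Rl g1 * F =
      xx * algebraMap B Rl p' := by
    have : xx * algebraMap B Rl p' = algebraMap B Rl (c * (g2 * f)) := by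
      rw [hp', map_mul]; rfl
    rw [this, map_mul, map_mul, ← hf]
    ring
  calc xx * (v * algebraMap B Rl p') = v * (xx * algebraMap B Rl p') := by ring
    _ = v * (algebraMap B Rl c * algebraMap B Rl g2 * algebraMap B Rl g1) * F := by
      rw [← h4]; ring
    _ = F := by rw [hv, one_mul]

lemma reg : IsRegular Rl [xx, yy] := by
  rw [isRegular_iff_isWeaklyRegular_of_subset_maximalIdeal (M := Rl)]
  · rw [isWeaklyRegular_cons_iff, isWeaklyRegular_cons_iff]
    exact ⟨xx_reg, yy_reg, IsWeaklyRegular.nil _ _⟩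
  · intro r hr
    simp only [List.mem_cons, List.not_mem_nil, or_false] at hr
    rcases hr with rfl | rfl
    · exact e1_mem
    · exact e2_mem

lemma ofList_eq : Ideal.ofList [xx, yy] = J := by
  rw [J_eq, Ideal.ofList]
  congr 1
  ext z
  simp [xx, yy]

lemma dim_zero : ringKrullDim (Rl ⧸ Ideal.ofList [xx, yy]) = 0 := by
  rw [ofList_eq]
  have hne : J ≠ ⊤ := fun h => (maximalIdeal.isMaximal Rl).ne_top (top_le_iff.1 (h ▸ J_le))
  have : Nontrivial (Rl ⧸ J) := Ideal.Quotient.nontrivial_iff.2 hne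
  rw [← ringKrullDimZero_iff_ringKrullDim_eq_zero]
  apply Ring.KrullDimLE.mk₀
  intro I hI
  have h1 : (I.comap (Ideal.Quotient.mk J)).IsPrime := Ideal.comap_isPrime _ _
  have h2 : maximalIdeal Rl ≤ I.comap (Ideal.Quotient.mk J) := by
    apply h1.le_of_pow_le (n := 6)
    calc maximalIdeal Rl ^ 6 = J * maximalIdeal Rl ^ 5 := (J_mul_pow 5 le_rfl).symm
      _ ≤ J := Ideal.mul_le_left
      _ ≤ I.comap (Ideal.Quotient.mk J) := by
        intro z hz
        rw [Ideal.mem_comap, Ideal.Quotient.eq_zero_iff_mem.2 hz]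
        exact I.zero_mem
  have h3 : I.comap (Ideal.Quotient.mk J) = maximalIdeal Rl :=
    ((maximalIdeal.isMaximal Rl).eq_of_le h1.ne_top h2).symm
  have h4 : (I.comap (Ideal.Quotient.mk J)).IsMaximal := h3 ▸ maximalIdeal.isMaximal Rl
  have h5 := Ideal.map_eq_top_or_isMaximal_of_surjective (Ideal.Quotient.mk J)
    Ideal.Quotient.mk_surjective h4
  rw [Ideal.map_comap_of_surjective _ Ideal.Quotient.mk_surjective] at h5
  exact h5.resolve_left hI.ne_top

lemma dim_two : ringKrullDim Rl = 2 := by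
  have h := ringKrullDim_add_length_eq_ringKrullDim_of_isRegular [xx, yy] reg
  rw [dim_zero] at h
  rw [← h]
  rfl

lemma inf_res : Infinite (ResidueField Rl) := by
  let φ : ℚ →+* ResidueField Rl :=
    (residue Rl).comp ((algebraMap B Rl).comp (algebraMap ℚ B))
  exact Infinite.of_injective φ φ.injective

lemma cm : IsCMLocal Rl := by
  refine ⟨[xx, yy], ?_, reg, ?_⟩
  · intro r hr
    simp only [List.mem_cons, List.not_mem_nil, or_false] at hr
    rcases hr with rfl | rfl
    · exact e1_mem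
    · exact e2_mem
  · rw [dim_two]; rfl

lemma min_red : IsMinimalReduction J := by
  have := J_red
  rw [J_eq] at this ⊢
  exact isMinimalReduction_of_pair dim_two _ _ this

end Pool.Agent.R695.Dao
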