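import Pool.Agent.R695.Basic
import Pool.Agent.R695.B

/-! Trace functions and words: function spaces `TF` and `PP`. -/

set_option autoImplicit false
set_option linter.unusedSectionVars false

namespace Pool.Agent.R695
open Equiv

variable {k : ℕ}

abbrev MM (k : ℕ) := Matrix (Fin k) (Fin k) ℝ

/-- evaluation of a tensor at a tuple of matrices -/
noncomputable def ev (k : ℕ) (ι : Type) [Fintype ι] [DecidableEq ι] :
    ((ι → Fin k × Fin k) → ℝ) →ₗ[ℝ] ((ι → MM k) → ℝ) where
  toFun a := fun x => ∑ u : ι → Fin k × Fin k, a u * ∏ i, x i (u i).1 (u i).2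
  map_add' := by
    intro a b
    funext x
    simp [add_mul, Finset.sum_add_distrib]
  map_smul' := by
    intro c a
    funext x
    simp [mul_assoc, Finset.mul_sum]

theorem ev_apply {ι : Type} [Fintype ι] [DecidableEq ι] (a : (ι → Fin k × Fin k) → ℝ)
    (x : ι → MM k) : ev k ι a x = ∑ u : ι → Fin k × Fin k, a u * ∏ i, x i (u i).1 (u i).2 := rfl

theorem ev_inj (ι : Type) [Fintype ι] [DecidableEq ι] : Function.Injective (ev k ι) := by
  intro a b h
  funext w
  have h1 : ∀ a : (ι → Fin k × Fin k) → ℝ,
      ev k ι a (fun i => Matrix.single (w i).1 (w i).2 1) = a w := by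
    intro a
    rw [ev_apply, Finset.sum_eq_single w]
    · simp
    · intro u _ hu
      obtain ⟨i, hi⟩ : ∃ i, u i ≠ w i := by
        by_contra hc
        push Not at hc
        exact hu (funext hc)
      rw [Finset.prod_eq_zero (Finset.mem_univ i), mul_zero]
      rw [Matrix.single_apply_of_ne]
      intro hc
      exact hi (Prod.ext hc.1.symm hc.2.symm)
    · intro h; exact absurd (Finset.mem_univ _) h
  rw [← h1 a, ← h1 b, h]

/-- the trace function of a permutation -/
def tt {ι : Type} [Fintype ι] [DecidableEq ι] (τ : Perm ι) : (ι → MM k) → ℝ :=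
  fun x => ∑ a : ι → Fin k, ∏ i, x i (a i) (a (τ i))

theorem ev_Pm {ι : Type} [Fintype ι] [DecidableEq ι] (τ : Perm ι) :
    ev k ι (Pm ℝ k τ) = tt τ := by
  funext x
  rw [ev_apply]
  simp only [Pm, ite_mul, one_mul, zero_mul]
  rw [← Finset.sum_filter]
  unfold tt
  refine Finset.sum_nbij' (fun u i => (u i).1) (fun a i => (a i, a (τ i))) ?_ ?_ ?_ ?_ ?_
  · intro u _; exact Finset.mem_univ _
  · intro a _
    simp
  · intro u hu
    rw [Finset.mem_filter] at hu
    funext i
    exact Prod.ext rfl (hu.2 i).symm
  · intro a _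
    rfl
  · intro u hu
    rw [Finset.mem_filter] at hu
    refine Finset.prod_congr rfl fun i _ => ?_
    rw [hu.2 i]

/-- the span of the trace functions -/
noncomputable def TF (k : ℕ) (ι : Type) [Fintype ι] [DecidableEq ι] :
    Submodule ℝ ((ι → MM k) → ℝ) :=
  (AA ℝ k ι).map (ev k ι)

theorem TF_eq_span (ι : Type) [Fintype ι] [DecidableEq ι] :
    TF k ι = Submodule.span ℝ (Set.range (fun τ : Perm ι => tt (k := k) τ)) := by
  unfold TF AA
  rw [Submodule.map_span, ← Set.range_comp]
  congr 1
  congr 1
  funext τ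
  exact ev_Pm τ

theorem tt_mem {ι : Type} [Fintype ι] [DecidableEq ι] (τ : Perm ι) : tt τ ∈ TF k ι := by
  rw [TF_eq_span]
  exact Submodule.subset_span ⟨τ, rfl⟩

theorem TF_map_mem {ι : Type} [Fintype ι] [DecidableEq ι] {W : Type*} [AddCommGroup W] [Module ℝ W]
    (Φ : ((ι → MM k) → ℝ) →ₗ[ℝ] W) {T : Submodule ℝ W}
    (h : ∀ τ : Perm ι, Φ (tt τ) ∈ T) {v : (ι → MM k) → ℝ}
    (hv : v ∈ TF k ι) : Φ v ∈ T := by
  rw [TF_eq_span] at hv
  exact span_map_mem Φ (by rintro _ ⟨τ, rfl⟩; exact h τ) hv

theorem finrank_TF (ι : Type) [Fintype ι] [DecidableEq ι] :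
    Module.finrank ℝ (TF k ι) = Module.finrank ℝ (AA ℝ k ι) :=
  (Submodule.equivMapOfInjective _ (ev_inj ι) _).finrank_eq.symm

theorem TF_relabel {ι κ : Type} [Fintype ι] [Fintype κ] [DecidableEq ι] [DecidableEq κ] (e : ι ≃ κ)
    {f : (ι → MM k) → ℝ} (hf : f ∈ TF k ι) :
    (fun x : κ → MM k => f (fun i => x (e i))) ∈ TF k κ := by
  refine TF_map_mem (LinearMap.funLeft ℝ ℝ
    (fun x : κ → MM k => (fun i => x (e i)))) ?_ hf
  intro τ
  have : LinearMap.funLeft ℝ ℝ (fun x : κ → MM k => (fun i => x (e i)))
      (tt τ) = tt (e.permCongr τ) := by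
    funext x
    simp only [LinearMap.funLeft_apply, tt]
    refine Fintype.sum_equiv (e.arrowCongr (Equiv.refl (Fin k))) _ _ ?_
    intro a
    refine Fintype.prod_equiv e _ _ ?_
    intro i
    simp [Equiv.permCongr_apply, Equiv.arrowCongr]
  rw [this]
  exact tt_mem _

/-- substitution of `x i * x none` for `x i`. -/
def sub {κ : Type} [DecidableEq κ] (i : κ) (x : Option κ → MM k) : κ → MM k :=
  Function.update (fun j => x (some j)) i (x (some i) * x none)

theorem tt_sub {κ : Type} [Fintype κ] [DecidableEq κ] (τ : Perm κ) (i : κ) (x : Option κ → MM k) :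
    tt τ (sub i x) = tt (optionCongr τ * swap (some i) none) x := by
  unfold tt
  rw [sum_option_fun, Finset.sum_comm]
  refine Finset.sum_congr rfl fun a _ => ?_
  have h1 : ∀ c : Fin k, (∏ o : Option κ, x o ((fun o : Option κ => o.elim c a) o)
      ((fun o : Option κ => o.elim c a) ((optionCongr τ * swap (some i) none) o))) =
      (x (some i) (a i) c * x none c (a (τ i))) *
        ∏ j ∈ Finset.univ.erase i, x (some j) (a j) (a (τ j)) := by
    intro c
    rw [Fintype.prod_option, ← Finset.mul_prod_erase _ _ (Finset.mem_univ i), ← mul_assoc]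
    congr 1
    · simp [Perm.mul_apply]
      ring
    · refine Finset.prod_congr rfl fun j hj => ?_
      have hj' : j ≠ i := (Finset.mem_erase.mp hj).1
      simp [Perm.mul_apply, swap_apply_of_ne_of_ne, hj']
  simp only [h1]
  rw [← Finset.sum_mul, ← Finset.mul_prod_erase _ _ (Finset.mem_univ i)]
  congr 1
  · simp [sub, Matrix.mul_apply]
  · refine Finset.prod_congr rfl fun j hj => ?_
    have hj' : j ≠ i := (Finset.mem_erase.mp hj).1
    simp [sub, Function.update_of_ne hj']

theorem tt_optionCongr {κ : Type} [Fintype κ] [DecidableEq κ] (τ : Perm κ) (x : Option κ → MM k) :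
    tt (optionCongr τ) x = (x none).trace * tt τ (fun j => x (some j)) := by
  unfold tt
  rw [sum_option_fun, Matrix.trace, Finset.sum_mul]
  refine Finset.sum_congr rfl fun c _ => ?_
  rw [Finset.mul_sum]
  refine Finset.sum_congr rfl fun a _ => ?_
  rw [Fintype.prod_option]
  rfl

theorem TF_sub {κ : Type} [Fintype κ] [DecidableEq κ] (i : κ) {f : (κ → MM k) → ℝ}
    (hf : f ∈ TF k κ) : (fun x : Option κ → MM k => f (sub i x)) ∈ TF k (Option κ) := by
  refine TF_map_mem (LinearMap.funLeft ℝ ℝ (sub (k := k) i)) ?_ hf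
  intro τ
  have : LinearMap.funLeft ℝ ℝ (sub (k := k) i) (tt τ) =
      tt (optionCongr τ * swap (some i) none) := by
    funext x
    exact tt_sub τ i x
  rw [this]
  exact tt_mem _

/-- the span of the multilinear words -/
def PP (k : ℕ) (ι : Type) : Submodule ℝ ((ι → MM k) → MM k) :=
  Submodule.span ℝ {f | ∃ l : List ι, l.Nodup ∧ (∀ i, i ∈ l) ∧ f = fun x => (l.map x).prod}

theorem PP_map_mem {ι : Type} {W : Type*} [AddCommGroup W] [Module ℝ W]
    (Φ : ((ι → MM k) → MM k) →ₗ[ℝ] W) {T : Submodule ℝ W}
    (h : ∀ l : List ι, l.Nodup → (∀ i, i ∈ l) → Φ (fun x => (l.map x).prod) ∈ T)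
    {v : (ι → MM k) → MM k} (hv : v ∈ PP k ι) : Φ v ∈ T :=
  span_map_mem Φ (by rintro _ ⟨l, h1, h2, rfl⟩; exact h l h1 h2) hv

theorem word_mem {ι : Type} {l : List ι} (h1 : l.Nodup) (h2 : ∀ i, i ∈ l) :
    (fun x : ι → MM k => (l.map x).prod) ∈ PP k ι :=
  Submodule.subset_span ⟨l, h1, h2, rfl⟩

theorem PP_relabel {ι κ : Type} (e : ι ≃ κ) {f : (ι → MM k) → MM k} (hf : f ∈ PP k ι) :
    (fun x : κ → MM k => f (fun i => x (e i))) ∈ PP k κ := by
  refine PP_map_mem (LinearMap.funLeft ℝ (MM k)
    (fun x : κ → MM k => (fun i => x (e i)))) ?_ hf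
  intro l h1 h2
  have : LinearMap.funLeft ℝ (MM k) (fun x : κ → MM k => (fun i => x (e i)))
      (fun x => (l.map x).prod) = (fun x => ((l.map e).map x).prod) := by
    funext x
    simp [LinearMap.funLeft_apply, List.map_map, Function.comp_def]
  rw [this]
  refine word_mem (h1.map e.injective) ?_
  intro j
  rw [List.mem_map]
  exact ⟨e.symm j, h2 _, by simp⟩

theorem PP_sub {κ : Type} [DecidableEq κ] (i : κ) {f : (κ → MM k) → MM k}
    (hf : f ∈ PP k κ) : (fun x : Option κ → MM k => f (sub i x)) ∈ PP k (Option κ) := by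
  refine PP_map_mem (LinearMap.funLeft ℝ (MM k) (sub (k := k) i)) ?_ hf
  intro l h1 h2
  obtain ⟨l1, l2, rfl⟩ := List.mem_iff_append.mp (h2 i)
  have h3 := List.nodup_middle.mp h1
  rw [List.nodup_cons, List.mem_append, not_or] at h3
  obtain ⟨⟨h4, h5⟩, h6⟩ := h3
  have : LinearMap.funLeft ℝ (MM k) (sub (k := k) i)
      (fun x => ((l1 ++ i :: l2).map x).prod) =
      (fun x => ((l1.map some ++ some i :: none :: l2.map some).map x).prod) := by
    funext x
    simp only [LinearMap.funLeft_apply, List.map_append, List.map_cons, List.prod_append,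
      List.prod_cons, List.map_map]
    have h7 : ∀ l : List κ, i ∉ l → l.map (sub i x) = l.map (x ∘ some) := by
      intro l hl
      refine List.map_congr_left fun j hj => ?_
      have : j ≠ i := by rintro rfl; exact hl hj
      simp [sub, Function.update_of_ne this]
    rw [h7 l1 h4, h7 l2 h5]
    simp [sub, mul_assoc]
  rw [this]
  refine word_mem ?_ ?_
  · have h8 : (l1.map some ++ some i :: l2.map some : List (Option κ)).Nodup := by
      have := h1.map (Option.some_injective κ)
      simpa using this
    have h9 : (l1.map some ++ none :: some i :: l2.map some : List (Option κ)).Nodup := by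
      rw [List.nodup_middle, List.nodup_cons]
      refine ⟨?_, h8⟩
      simp
    refine (List.Perm.nodup_iff ?_).mp h9
    exact List.Perm.append_left _ (List.Perm.swap _ _ _)
  · rintro (_ | j)
    · simp
    · have := h2 j
      simp only [List.mem_append, List.mem_cons] at this
      simp only [List.mem_append, List.mem_cons, List.mem_map, Option.some.injEq]
      rcases this with h | h | h
      · left; exact ⟨j, h, rfl⟩
      · right; left; exact h
      · right; right; right; exact ⟨j, h, rfl⟩

theorem exists_map_some {κ : Type} (l : List (Option κ)) (h : none ∉ l) :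
    ∃ l' : List κ, l = l'.map some := by
  induction l with
  | nil => exact ⟨[], rfl⟩
  | cons a l ih =>
    rw [List.mem_cons, not_or] at h
    obtain ⟨l', rfl⟩ := ih h.2
    rcases a with _ | a
    · exact absurd rfl h.1
    · exact ⟨a :: l', rfl⟩

/-- the last variable of a trace can be moved to the end -/
theorem trace_last {κ : Type} {f : (Option κ → MM k) → MM k} (hf : f ∈ PP k (Option κ)) :
    ∃ h ∈ PP k κ, ∀ x : Option κ → MM k,
      (f x).trace = (h (fun j => x (some j)) * x none).trace := by
  unfold PP at hf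
  induction hf using Submodule.span_induction with
  | mem f hf =>
    obtain ⟨l, h1, h2, rfl⟩ := hf
    obtain ⟨l1, l2, rfl⟩ := List.mem_iff_append.mp (h2 none)
    have h3 := List.nodup_middle.mp h1
    rw [List.nodup_cons, List.mem_append, not_or] at h3
    obtain ⟨⟨h4, h5⟩, h6⟩ := h3
    obtain ⟨l1, rfl⟩ := exists_map_some l1 h4
    obtain ⟨l2, rfl⟩ := exists_map_some l2 h5
    refine ⟨_, word_mem (l := l2 ++ l1) ?_ ?_, ?_⟩
    · rw [← List.map_append] at h6
      have := List.Nodup.of_map _ h6
      exact List.nodup_append_comm.mp this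
    · intro j
      have := h2 (some j)
      simp at this
      simp
      tauto
    · intro x
      simp only [List.map_append, List.map_cons, List.prod_append, List.prod_cons, List.map_map]
      rw [Matrix.trace_mul_comm, mul_assoc, Matrix.trace_mul_comm]
      rfl
  | zero => exact ⟨0, Submodule.zero_mem _, fun x => by simp⟩
  | add f g _ _ ihf ihg =>
    obtain ⟨hf, hf1, hf2⟩ := ihf
    obtain ⟨hg, hg1, hg2⟩ := ihg
    refine ⟨hf + hg, Submodule.add_mem _ hf1 hg1, fun x => ?_⟩
    simp [hf2, hg2, add_mul]
  | smul c f _ ihf =>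
    obtain ⟨hf, hf1, hf2⟩ := ihf
    refine ⟨c • hf, Submodule.smul_mem _ c hf1, fun x => ?_⟩
    simp [hf2]

theorem word_trace_mem : ∀ (n : ℕ) (κ : Type) [Fintype κ] [DecidableEq κ] (l : List κ),
    l.length = n → l.Nodup → (∀ i, i ∈ l) →
    (fun x : Option κ → MM k => ((l.map (fun j => x (some j))).prod * x none).trace) ∈
      TF k (Option κ) := by
  intro n
  induction n with
  | zero =>
    intro κ _ _ l hl h1 h2
    rw [List.length_eq_zero_iff] at hl
    subst hl
    have : (fun x : Option κ → MM k => ((([] : List κ).map (fun j => x (some j))).prod *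
        x none).trace) = tt 1 := by
      have hE : IsEmpty κ := ⟨fun i => by simpa using h2 i⟩
      funext x
      simp only [List.map_nil, List.prod_nil, one_mul, tt]
      rw [sum_option_fun, Matrix.trace]
      refine Finset.sum_congr rfl fun c _ => ?_
      rw [Fintype.sum_unique, Fintype.prod_option, Fintype.prod_empty, mul_one]
      rfl
    rw [this]
    exact tt_mem _
  | succ n ih =>
    intro κ _ _ l hl h1 h2
    rcases l with _ | ⟨i, l⟩
    · simp at hl
    rw [List.nodup_cons] at h1
    let κ' := {j : κ // j ≠ i}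
    have hne : ∀ j ∈ l, j ≠ i := by
      rintro j hj rfl
      exact h1.1 hj
    let l' : List κ' := l.attachWith (fun j => j ≠ i) hne
    have hl' : l'.map Subtype.val = l := List.attachWith_map_subtype_val _
    have h3 := ih κ' l' (by
        have := congrArg List.length hl'
        rw [List.length_map] at this
        rw [this]
        simpa using hl) (by
        apply List.Nodup.of_map Subtype.val
        rw [hl']
        exact h1.2) (by
        intro j
        have : j.1 ∈ l := by
          have := h2 j.1
          rw [List.mem_cons] at this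
          exact this.resolve_left j.2
        rw [← hl', List.mem_map] at this
        obtain ⟨a, ha, hb⟩ := this
        rwa [← Subtype.ext hb])
    have h4 := TF_sub none h3
    let e0 : Option κ' ≃ κ := Equiv.optionSubtypeNe i
    let e : Option (Option κ') ≃ Option κ :=
      (swap none (some none)).trans e0.optionCongr
    have h5 := TF_relabel e h4
    convert h5 using 1
    funext x
    have e1 : e none = some i := by
      simp only [e, e0, Equiv.trans_apply, swap_apply_left, Equiv.optionCongr_apply,
        Option.map_some]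
      rw [Equiv.optionSubtypeNe_none]
    have e2 : e (some none) = none := by
      simp [e]
    have e3 : ∀ j : κ', e (some (some j)) = some j.1 := by
      intro j
      simp only [e, e0, Equiv.trans_apply]
      rw [swap_apply_of_ne_of_ne (by simp) (by simp)]
      simp only [Equiv.optionCongr_apply, Option.map_some]
      rw [Equiv.optionSubtypeNe_some]
    simp only [sub, Function.update_self, e1, e2]
    rw [List.map_cons, List.prod_cons, mul_assoc, Matrix.trace_mul_comm, mul_assoc]
    congr 3
    conv_lhs => rw [← hl']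
    rw [List.map_map]
    congr 1

theorem trace_mul_mem {κ : Type} [Fintype κ] [DecidableEq κ] {f : (κ → MM k) → MM k}
    (hf : f ∈ PP k κ) :
    (fun x : Option κ → MM k => (f (fun j => x (some j)) * x none).trace) ∈ TF k (Option κ) := by
  let Φ : ((κ → MM k) → MM k) →ₗ[ℝ] ((Option κ → MM k) → ℝ) :=
    { toFun := fun f x => (f (fun j => x (some j)) * x none).trace
      map_add' := by
        intro f g
        funext x
        simp [add_mul]
      map_smul' := by
        intro c f
        funext x
        simp }
  refine PP_map_mem Φ ?_ hf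
  intro l h1 h2
  exact word_trace_mem _ κ l rfl h1 h2

theorem trace_mem {κ : Type} [Fintype κ] [DecidableEq κ] {f : (Option κ → MM k) → MM k}
    (hf : f ∈ PP k (Option κ)) : (fun x => (f x).trace) ∈ TF k (Option κ) := by
  obtain ⟨h, hh, hx⟩ := trace_last hf
  have := trace_mul_mem hh
  convert this using 1
  funext x
  exact hx x

end Pool.Agent.R695
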