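import Mathlib

/-!
# The derivation identity for alternating forms on matrices
-/

set_option autoImplicit false

namespace Pool.Agent.R695

open Matrix Finset

/-- the derivation identity for a general alternating form of top degree -/
theorem alt_trace {ι V : Type*} [Fintype ι] [DecidableEq ι] [AddCommGroup V] [Module ℝ V]
    (b : Module.Basis ι ℝ V) (f : V [⋀^ι]→ₗ[ℝ] ℝ) (v : ι → V) (g : V →ₗ[ℝ] V) :
    ∑ i, f (Function.update v i (g (v i))) = (LinearMap.toMatrix b b g).trace * f v := by
  rw [f.eq_smul_basis_det b]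
  simp only [AlternatingMap.smul_apply, Module.Basis.det_apply, smul_eq_mul]
  set G := LinearMap.toMatrix b b g with hG
  set A := b.toMatrix v with hA
  have h1 : ∀ i, (b.toMatrix (Function.update v i (g (v i)))).det =
      (A.adjugate * (G * A)) i i := by
    intro i
    rw [Module.Basis.toMatrix_update, ← cramer_apply, cramer_eq_adjugate_mulVec]
    have h2 : (⇑(b.repr (g (v i))) : ι → ℝ) = fun j => (G * A) j i := by
      rw [← LinearMap.toMatrix_mulVec_repr b b g (v i)]
      rfl
    rw [h2]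
    rfl
  rw [← Finset.mul_sum, Finset.sum_congr rfl fun i _ => h1 i]
  have h2 : ∑ i, (A.adjugate * (G * A)) i i = (A.adjugate * (G * A)).trace := rfl
  rw [h2, Matrix.trace_mul_comm, Matrix.mul_assoc, Matrix.mul_adjugate, Matrix.mul_smul,
    Matrix.mul_one, Matrix.trace_smul, smul_eq_mul]
  ring

theorem alt_derivation (k : ℕ) (f : Matrix (Fin k) (Fin k) ℝ [⋀^Fin k × Fin k]→ₗ[ℝ] ℝ)
    (z : Fin k × Fin k → Matrix (Fin k) (Fin k) ℝ) (B : Matrix (Fin k) (Fin k) ℝ) :
    ∑ i, f (Function.update z i (z i * B)) = (k : ℝ) * B.trace * f z := by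
  have h := alt_trace (Matrix.stdBasis ℝ (Fin k) (Fin k)) f z (LinearMap.mulRight ℝ B)
  simp only [LinearMap.mulRight_apply] at h
  rw [h]
  congr 1
  have h1 : ∀ p : Fin k × Fin k, LinearMap.toMatrix (Matrix.stdBasis ℝ (Fin k) (Fin k))
      (Matrix.stdBasis ℝ (Fin k) (Fin k)) (LinearMap.mulRight ℝ B) p p = B p.2 p.2 := by
    rintro ⟨i, j⟩
    rw [LinearMap.toMatrix_apply, Matrix.stdBasis_eq_single, LinearMap.mulRight_apply]
    have h2 : ∀ M : Matrix (Fin k) (Fin k) ℝ,
        (Matrix.stdBasis ℝ (Fin k) (Fin k)).repr M (i, j) = M i j := by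
      intro M
      rfl
    rw [h2, Matrix.single_mul_apply_same, one_mul]
  unfold Matrix.trace
  rw [Fintype.sum_prod_type]
  simp only [Matrix.diag_apply, h1]
  rw [Finset.sum_const, card_univ, Fintype.card_fin, nsmul_eq_mul]

end Pool.Agent.R695
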