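import Mathlib

/-!
# Codimensions of matrix algebras do not depend on the field of characteristic zero
-/

set_option autoImplicit false

namespace Pool.Agent.R695

open Module

/-- The dimension of the span of a finite family of vectors does not change under extension of
the field. -/
theorem finrank_span_algebraMap {K L : Type*} [Field K] [Field L] [Algebra K L] {S I : Type*}
    [Finite S] [Finite I] (v : S → I → K) :
    finrank L (Submodule.span L (Set.range fun s => algebraMap K L ∘ v s)) =
      finrank K (Submodule.span K (Set.range v)) := by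
  obtain ⟨κ, a, hinj, hspan, hli⟩ := exists_linearIndependent' K v
  have : Finite κ := Finite.of_injective a hinj
  cases nonempty_fintype κ
  have hli' : LinearIndependent L (fun j => algebraMap K L ∘ v (a j)) :=
    linearIndependent_algebraMap_comp_iff.2 hli
  have hspan' : Submodule.span L (Set.range fun j => algebraMap K L ∘ v (a j)) =
      Submodule.span L (Set.range fun s => algebraMap K L ∘ v s) := by
    apply le_antisymm
    · rw [Submodule.span_le]
      rintro _ ⟨j, rfl⟩
      exact Submodule.subset_span ⟨a j, rfl⟩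
    · rw [Submodule.span_le]
      rintro _ ⟨s, rfl⟩
      have h1 : v s ∈ Submodule.span K (Set.range (v ∘ a)) := by
        rw [hspan]; exact Submodule.subset_span ⟨s, rfl⟩
      have h2 : ∀ w ∈ Submodule.span K (Set.range (v ∘ a)), algebraMap K L ∘ w ∈
          Submodule.span L (Set.range fun j => algebraMap K L ∘ v (a j)) := by
        intro w hw
        induction hw using Submodule.span_induction with
        | mem x hx =>
          obtain ⟨j, rfl⟩ := hx
          exact Submodule.subset_span ⟨j, rfl⟩
        | zero =>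
          have : algebraMap K L ∘ (0 : I → K) = 0 := by funext i; simp
          rw [this]; exact Submodule.zero_mem _
        | add x y _ _ hx hy =>
          have : algebraMap K L ∘ (x + y) = algebraMap K L ∘ x + algebraMap K L ∘ y := by
            funext i; simp
          rw [this]; exact Submodule.add_mem _ hx hy
        | smul c x _ hx =>
          have : algebraMap K L ∘ (c • x) = algebraMap K L c • (algebraMap K L ∘ x) := by
            funext i; simp
          rw [this]; exact Submodule.smul_mem _ _ hx
      exact h2 _ h1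
  rw [← hspan', ← hspan, finrank_span_eq_card hli', finrank_span_eq_card hli]

/-- Tuples of pairs of indices. -/
abbrev TT (k n : ℕ) : Type := Fin n → Fin k × Fin k

/-- The product of matrix units. -/
def uprod (R : Type) [Ring R] (k n : ℕ) (σ : Equiv.Perm (Fin n)) (u : TT k n) :
    Matrix (Fin k) (Fin k) R :=
  (List.ofFn (fun i => Matrix.single (u (σ i)).1 (u (σ i)).2 (1 : R))).prod

theorem uprod_map (R : Type) [Ring R] (k n : ℕ) (σ : Equiv.Perm (Fin n)) (u : TT k n) :
    (uprod ℤ k n σ u).map (fun z : ℤ => (z : R)) = uprod R k n σ u := by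
  have h := map_list_prod ((Int.castRingHom R).mapMatrix (m := Fin k))
    (List.ofFn (fun i => Matrix.single (u (σ i)).1 (u (σ i)).2 (1 : ℤ)))
  refine h.trans ?_
  rw [uprod, List.map_ofFn]
  congr 2
  funext i
  ext a b
  simp [Matrix.single, Matrix.of_apply]

section

variable (F : Type) [Field F] (k n : ℕ)

/-- The multilinear map given by a permutation. -/
noncomputable def phi (D : Matrix (Fin k) (Fin k) F →ₗ[F] Matrix (Fin k) (Fin k) F)
    (σ : Equiv.Perm (Fin n)) :
    MultilinearMap F (fun _ : Fin n => Matrix (Fin k) (Fin k) F) (Matrix (Fin k) (Fin k) F) :=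
  D.compMultilinearMap ((MultilinearMap.mkPiAlgebraFin F n (Matrix (Fin k) (Fin k) F)).domDomCongr σ)

theorem phi_apply (D : Matrix (Fin k) (Fin k) F →ₗ[F] Matrix (Fin k) (Fin k) F)
    (σ : Equiv.Perm (Fin n)) (x : Fin n → Matrix (Fin k) (Fin k) F) :
    phi F k n D σ x = D (List.ofFn (fun i => x (σ i))).prod := rfl

/-- The coercion to functions. -/
def toFn : MultilinearMap F (fun _ : Fin n => Matrix (Fin k) (Fin k) F)
    (Matrix (Fin k) (Fin k) F) →ₗ[F]
      ((Fin n → Matrix (Fin k) (Fin k) F) → Matrix (Fin k) (Fin k) F) where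
  toFun f := f
  map_add' _ _ := rfl
  map_smul' _ _ := rfl

/-- The values on matrix units. -/
def vals : MultilinearMap F (fun _ : Fin n => Matrix (Fin k) (Fin k) F)
    (Matrix (Fin k) (Fin k) F) →ₗ[F] (TT k n × Fin k × Fin k → F) where
  toFun f := fun p => f (fun i => Matrix.single (p.1 i).1 (p.1 i).2 (1 : F)) p.2.1 p.2.2
  map_add' _ _ := rfl
  map_smul' _ _ := rfl

theorem vals_injective : Function.Injective (vals F k n) := by
  intro f g h
  refine Module.Basis.ext_multilinear
    (fun _ => Matrix.stdBasis F (Fin k) (Fin k)) fun v => ?_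
  have h1 : (fun i => Matrix.stdBasis F (Fin k) (Fin k) (v i)) =
      fun i => Matrix.single (v i).1 (v i).2 (1 : F) := by
    funext i
    exact Matrix.stdBasis_eq_single F _ _
  rw [h1]
  ext a b
  exact congrFun h (v, a, b)

theorem key [CharZero F] (D : Matrix (Fin k) (Fin k) F →ₗ[F] Matrix (Fin k) (Fin k) F)
    (DZ : Matrix (Fin k) (Fin k) ℤ → Matrix (Fin k) (Fin k) ℤ)
    (hD : ∀ M : Matrix (Fin k) (Fin k) ℤ, D (M.map fun z : ℤ => (z : F)) =
      (DZ M).map fun z : ℤ => (z : F)) :
    finrank F (Submodule.span F (Set.range (fun σ : Equiv.Perm (Fin n) =>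
        fun x : Fin n → Matrix (Fin k) (Fin k) F => D (List.ofFn (fun i => x (σ i))).prod))) =
      finrank ℚ (Submodule.span ℚ (Set.range (fun σ : Equiv.Perm (Fin n) =>
        fun p : TT k n × Fin k × Fin k => ((DZ (uprod ℤ k n σ p.1) p.2.1 p.2.2 : ℤ) : ℚ)))) := by
  have h1 : (Set.range (fun σ : Equiv.Perm (Fin n) =>
        fun x : Fin n → Matrix (Fin k) (Fin k) F => D (List.ofFn (fun i => x (σ i))).prod)) =
      (toFn F k n) '' (Set.range (phi F k n D)) := by
    rw [← Set.range_comp]
    rfl
  have hinj : Function.Injective (toFn F k n) := fun f g h => DFunLike.coe_injective h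
  have hfr : ∀ {V W : Type} [AddCommGroup V] [Module F V] [AddCommGroup W] [Module F W]
      (f : V →ₗ[F] W), Function.Injective f → ∀ p : Submodule F V,
      finrank F (p.map f) = finrank F p := fun f hf p =>
    (Submodule.equivMapOfInjective f hf p).finrank_eq.symm
  have h2 : (vals F k n) '' (Set.range (phi F k n D)) =
      Set.range (fun σ : Equiv.Perm (Fin n) => algebraMap ℚ F ∘
        fun p : TT k n × Fin k × Fin k => ((DZ (uprod ℤ k n σ p.1) p.2.1 p.2.2 : ℤ) : ℚ)) := by
    rw [← Set.range_comp]
    congr 1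
    funext σ
    funext p
    show D (uprod F k n σ p.1) p.2.1 p.2.2 = algebraMap ℚ F _
    rw [← uprod_map, hD]
    simp
  rw [h1, ← Submodule.map_span, hfr _ hinj, ← hfr (vals F k n) (vals_injective F k n),
    Submodule.map_span, h2]
  exact finrank_span_algebraMap _

end

/-- The codimensions of matrices do not depend on the field of characteristic zero. -/
theorem finrank_codim (F : Type) [Field F] [CharZero F] (k n : ℕ) :
    Module.finrank F (Submodule.span F (Set.range (fun σ : Equiv.Perm (Fin n) =>
        fun x : Fin n → Matrix (Fin k) (Fin k) F => (List.ofFn (fun i => x (σ i))).prod))) =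
      Module.finrank ℝ (Submodule.span ℝ (Set.range (fun σ : Equiv.Perm (Fin n) =>
        fun x : Fin n → Matrix (Fin k) (Fin k) ℝ => (List.ofFn (fun i => x (σ i))).prod))) := by
  have h1 := key F k n LinearMap.id id fun M => rfl
  have h2 := key ℝ k n LinearMap.id id fun M => rfl
  exact h1.trans h2.symm

section

variable (F : Type) [Field F] (k : ℕ) (hk : 1 ≤ k)

/-- `X ↦ X - X₀₀`. -/
def DD (R : Type) [CommRing R] : Matrix (Fin k) (Fin k) R →ₗ[R] Matrix (Fin k) (Fin k) R where
  toFun X := X - (X ⟨0, hk⟩ ⟨0, hk⟩) • (1 : Matrix (Fin k) (Fin k) R)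
  map_add' X Y := by
    rw [Matrix.add_apply, add_smul]; abel
  map_smul' c X := by
    rw [Matrix.smul_apply, smul_assoc, ← smul_sub]; rfl

theorem DD_apply (R : Type) [CommRing R] (X : Matrix (Fin k) (Fin k) R) :
    DD k hk R X = X - (X ⟨0, hk⟩ ⟨0, hk⟩) • (1 : Matrix (Fin k) (Fin k) R) := rfl

theorem ker_DD : LinearMap.ker (DD k hk F) =
    Subalgebra.toSubmodule (Subalgebra.center F (Matrix (Fin k) (Fin k) F)) := by
  ext X
  rw [LinearMap.mem_ker, DD_apply, Subalgebra.mem_toSubmodule, Subalgebra.mem_center_iff]
  constructor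
  · intro h Y
    rw [sub_eq_zero] at h
    rw [h, mul_smul_comm, smul_mul_assoc, mul_one, one_mul]
  · intro h
    have h1 : X ∈ Set.center (Matrix (Fin k) (Fin k) F) := by
      rw [Semigroup.mem_center_iff]
      exact h
    have h2 := (Matrix.mem_range_scalar_iff_commute_single (M := X)).2 ?_
    · obtain ⟨r, rfl⟩ := h2
      rw [sub_eq_zero]
      ext a b
      simp [Matrix.scalar_apply, Matrix.diagonal_apply, Matrix.one_apply]
    · intro i j _
      exact h _

theorem central_aux (n : ℕ) :
    finrank F (Submodule.span F (Set.range (fun σ : Equiv.Perm (Fin n) =>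
        fun x : Fin n → Matrix (Fin k) (Fin k) F =>
          Submodule.mkQ (Subalgebra.toSubmodule (Subalgebra.center F (Matrix (Fin k) (Fin k) F)))
            (List.ofFn (fun i => x (σ i))).prod))) =
      finrank F (Submodule.span F (Set.range (fun σ : Equiv.Perm (Fin n) =>
        fun x : Fin n → Matrix (Fin k) (Fin k) F => DD k hk F (List.ofFn (fun i => x (σ i))).prod))) := by
  have hle : Subalgebra.toSubmodule (Subalgebra.center F (Matrix (Fin k) (Fin k) F)) ≤
      LinearMap.ker (DD k hk F) := (ker_DD F k hk).ge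
  let q : (Matrix (Fin k) (Fin k) F ⧸
      Subalgebra.toSubmodule (Subalgebra.center F (Matrix (Fin k) (Fin k) F))) →ₗ[F]
        Matrix (Fin k) (Fin k) F := Submodule.liftQ _ (DD k hk F) hle
  have hq : Function.Injective q := by
    rw [← LinearMap.ker_eq_bot]
    exact Submodule.ker_liftQ_eq_bot _ _ hle (ker_DD F k hk).le
  let Q : ((Fin n → Matrix (Fin k) (Fin k) F) → (Matrix (Fin k) (Fin k) F ⧸
      Subalgebra.toSubmodule (Subalgebra.center F (Matrix (Fin k) (Fin k) F)))) →ₗ[F]
      ((Fin n → Matrix (Fin k) (Fin k) F) → Matrix (Fin k) (Fin k) F) :=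
    LinearMap.compLeft q _
  have hQ : Function.Injective Q := by
    intro f g h
    funext x
    exact hq (congrFun h x)
  refine (Submodule.equivMapOfInjective Q hQ _).finrank_eq.trans ?_
  rw [Submodule.map_span, ← Set.range_comp]
  rfl

end

/-- The central codimensions of matrices do not depend on the field of characteristic zero. -/
theorem finrank_central_codim (F : Type) [Field F] [CharZero F] (k : ℕ) (hk : 1 ≤ k) (n : ℕ) :
    Module.finrank F (Submodule.span F (Set.range (fun σ : Equiv.Perm (Fin n) =>
        fun x : Fin n → Matrix (Fin k) (Fin k) F =>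
          Submodule.mkQ (Subalgebra.toSubmodule (Subalgebra.center F (Matrix (Fin k) (Fin k) F)))
            (List.ofFn (fun i => x (σ i))).prod))) =
      Module.finrank ℝ (Submodule.span ℝ (Set.range (fun σ : Equiv.Perm (Fin n) =>
        fun x : Fin n → Matrix (Fin k) (Fin k) ℝ =>
          Submodule.mkQ (Subalgebra.toSubmodule (Subalgebra.center ℝ (Matrix (Fin k) (Fin k) ℝ)))
            (List.ofFn (fun i => x (σ i))).prod))) := by
  rw [central_aux F k hk n, central_aux ℝ k hk n]
  have hD : ∀ (R : Type) [Field R] [CharZero R] (M : Matrix (Fin k) (Fin k) ℤ),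
      DD k hk R (M.map fun z : ℤ => (z : R)) = (DD k hk ℤ M).map fun z : ℤ => (z : R) := by
    intro R _ _ M
    ext a b
    show ((M a b : ℤ) : R) - ((M ⟨0, hk⟩ ⟨0, hk⟩ : ℤ) : R) * (1 : Matrix (Fin k) (Fin k) R) a b =
      ((M a b - M ⟨0, hk⟩ ⟨0, hk⟩ * (1 : Matrix (Fin k) (Fin k) ℤ) a b : ℤ) : R)
    rw [Matrix.one_apply, Matrix.one_apply]
    split_ifs
    · push_cast; ring
    · push_cast; ring
  have h1 := key F k n (DD k hk F) (DD k hk ℤ) (hD F)
  have h2 := key ℝ k n (DD k hk ℝ) (DD k hk ℤ) (hD ℝ)
  exact h1.trans h2.symm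

end Pool.Agent.R695
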