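import Pool.Agent.R695.G
import Pool.Agent.R695.C
import Pool.Agent.R695.D2
import Pool.Agent.R695.F

/-! The inequalities between codimensions, and the limit. -/

set_option autoImplicit false
set_option linter.unusedSectionVars false

namespace Pool.Agent.R695
open Equiv

variable {k : ℕ}

/-- words as in the frozen statement -/
def wd (k n : ℕ) (σ : Perm (Fin n)) : (Fin n → MM k) → MM k :=
  fun x => (List.ofFn (fun i => x (σ i))).prod

theorem PP_fin (n : ℕ) : PP k (Fin n) = Submodule.span ℝ (Set.range (wd k n)) := by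
  unfold PP
  congr 1
  ext f
  constructor
  · rintro ⟨l, h1, h2, rfl⟩
    have hlen : l.length = n := by
      have := (h1.getEquivOfForallMemList l h2)
      simpa using Fintype.card_congr this
    refine ⟨(finCongr hlen.symm).trans (h1.getEquivOfForallMemList l h2), ?_⟩
    funext x
    unfold wd
    congr 1
    apply List.ext_getElem
    · simp [hlen]
    · intro i h3 h4
      simp [List.getElem_ofFn]
  · rintro ⟨σ, rfl⟩
    refine ⟨List.ofFn σ, ?_, ?_, ?_⟩
    · exact List.nodup_ofFn.mpr σ.injective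
    · intro i
      rw [List.mem_ofFn]
      exact σ.surjective i
    · funext x
      unfold wd
      rw [List.map_ofFn]
      rfl

instance (n : ℕ) : Module.Finite ℝ (PP k (Fin n)) := by
  rw [PP_fin]
  exact FiniteDimensional.span_of_finite ℝ (Set.finite_range _)

/-- central valued functions -/
def Sc (k : ℕ) (κ : Type) : Submodule ℝ ((κ → MM k) → MM k) where
  carrier := {f | ∀ x, ∃ c : ℝ, f x = c • (1 : MM k)}
  add_mem' := by
    intro f g hf hg x
    obtain ⟨a, ha⟩ := hf x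
    obtain ⟨b, hb⟩ := hg x
    exact ⟨a + b, by simp [ha, hb, add_smul]⟩
  zero_mem' := fun x => ⟨0, by simp⟩
  smul_mem' := by
    intro c f hf x
    obtain ⟨a, ha⟩ := hf x
    exact ⟨c * a, by simp [ha, smul_smul]⟩

def Cen (k : ℕ) (κ : Type) : Submodule ℝ ((κ → MM k) → MM k) := PP k κ ⊓ Sc k κ

theorem mkQ_eq_zero_iff (A : MM k) :
    Submodule.mkQ (Subalgebra.toSubmodule (Subalgebra.center ℝ (MM k))) A = 0 ↔
      ∃ c : ℝ, A = c • (1 : MM k) := by
  rw [Submodule.mkQ_apply, Submodule.Quotient.mk_eq_zero, Subalgebra.mem_toSubmodule]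
  have : Subalgebra.center ℝ (MM k) = ⊥ := Algebra.IsCentral.center_eq_bot ℝ (MM k)
  rw [this, Algebra.mem_bot]
  constructor
  · rintro ⟨c, rfl⟩
    exact ⟨c, Algebra.algebraMap_eq_smul_one c⟩
  · rintro ⟨c, rfl⟩
    exact ⟨c, Algebra.algebraMap_eq_smul_one c⟩

theorem finrank_central_add (k n : ℕ) :
    Module.finrank ℝ (Submodule.span ℝ (Set.range (fun σ : Equiv.Perm (Fin n) =>
        fun x : Fin n → Matrix (Fin k) (Fin k) ℝ =>
          Submodule.mkQ (Subalgebra.toSubmodule (Subalgebra.center ℝ (Matrix (Fin k) (Fin k) ℝ)))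
            (List.ofFn (fun i => x (σ i))).prod))) + Module.finrank ℝ (Cen k (Fin n)) =
      Module.finrank ℝ (PP k (Fin n)) := by
  let Λ := (Submodule.mkQ (Subalgebra.toSubmodule
    (Subalgebra.center ℝ (MM k)))).compLeft (Fin n → MM k)
  have h1 := LinearMap.finrank_range_add_finrank_ker (Λ.domRestrict (PP k (Fin n)))
  have h2 : LinearMap.range (Λ.domRestrict (PP k (Fin n))) =
      Submodule.span ℝ (Set.range (fun σ : Equiv.Perm (Fin n) =>
        fun x : Fin n → Matrix (Fin k) (Fin k) ℝ =>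
          Submodule.mkQ (Subalgebra.toSubmodule (Subalgebra.center ℝ (Matrix (Fin k) (Fin k) ℝ)))
            (List.ofFn (fun i => x (σ i))).prod)) := by
    rw [LinearMap.range_domRestrict, PP_fin, Submodule.map_span, ← Set.range_comp]
    rfl
  have h3 : Module.finrank ℝ (LinearMap.ker (Λ.domRestrict (PP k (Fin n)))) =
      Module.finrank ℝ (Cen k (Fin n)) := by
    rw [← Submodule.finrank_map_subtype_eq]
    suffices h : Submodule.map (PP k (Fin n)).subtype
      (LinearMap.ker (Λ.domRestrict (PP k (Fin n)))) = Cen k (Fin n) by rw [h]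
    ext f
    constructor
    · rintro ⟨v, hv, rfl⟩
      refine ⟨v.2, fun x => ?_⟩
      have h4 : Λ v.1 = 0 := LinearMap.mem_ker.mp hv
      exact (mkQ_eq_zero_iff _).mp (congrFun h4 x)
    · rintro ⟨hf, hx⟩
      refine ⟨⟨f, hf⟩, ?_, rfl⟩
      rw [SetLike.mem_coe, LinearMap.mem_ker]
      funext x
      exact (mkQ_eq_zero_iff _).mpr (hx x)
  rw [h2, h3] at h1
  exact h1

instance (n : ℕ) : Module.Finite ℝ (Cen k (Fin n)) :=
  Submodule.finiteDimensional_of_le (inf_le_left : Cen k (Fin n) ≤ PP k (Fin n))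

theorem TF_finite (ι : Type) [Fintype ι] [DecidableEq ι] : Module.Finite ℝ (TF k ι) := by
  unfold TF
  infer_instance

/-- (F1) -/
theorem codim_le (n : ℕ) : Module.finrank ℝ (PP k (Fin n)) ≤
    Module.finrank ℝ (AA ℝ k (Fin (n + 1))) := by
  let Ψ : ((Fin n → MM k) → MM k) →ₗ[ℝ] ((Option (Fin n) → MM k) → ℝ) :=
    { toFun := fun f x => (f (fun j => x (some j)) * x none).trace
      map_add' := by
        intro f g
        funext x
        simp [add_mul]
      map_smul' := by
        intro c f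
        funext x
        simp }
  have hΨ : Function.Injective Ψ := by
    intro f g h
    funext x
    ext i j
    have h1 := congrFun h (fun o => o.elim (Matrix.single j i 1) x)
    change (f x * Matrix.single j i 1).trace = (g x * Matrix.single j i 1).trace at h1
    simpa [Matrix.trace_mul_single] using h1
  have h1 := (Submodule.equivMapOfInjective Ψ hΨ (PP k (Fin n))).finrank_eq
  rw [h1, finrank_AA_congr (finSuccEquiv n), ← finrank_TF]
  have := TF_finite (k := k) (Option (Fin n))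
  refine Submodule.finrank_mono ?_
  rintro _ ⟨f, hf, rfl⟩
  exact trace_mul_mem hf

/-- trace as a linear map on functions -/
noncomputable def trL (k : ℕ) (κ : Type) : ((κ → MM k) → MM k) →ₗ[ℝ] ((κ → MM k) → ℝ) where
  toFun f x := (f x).trace
  map_add' := by
    intro f g
    funext x
    simp
  map_smul' := by
    intro c f
    funext x
    simp

theorem trL_inj (hk : k ≠ 0) (κ : Type) :
    Function.Injective ((trL k κ).domRestrict (Cen k κ)) := by
  rw [injective_iff_map_eq_zero]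
  rintro ⟨f, hf1, hf2⟩ h
  ext1
  funext x
  obtain ⟨c, hc⟩ := hf2 x
  have h1 : (f x).trace = 0 := congrFun h x
  rw [hc] at h1
  have hk' : (k : ℝ) ≠ 0 := Nat.cast_ne_zero.mpr hk
  simp [hk'] at h1
  change f x = 0
  rw [hc, h1, zero_smul]

theorem finrank_Cen (hk : k ≠ 0) (κ : Type) : Module.finrank ℝ (Cen k κ) =
    Module.finrank ℝ ((Cen k κ).map (trL k κ)) := by
  rw [← LinearMap.range_domRestrict]
  exact (LinearEquiv.ofInjective _ (trL_inj hk κ)).finrank_eq

/-- (F3) -/
theorem cen_le_t (hk : k ≠ 0) (n : ℕ) : Module.finrank ℝ (Cen k (Fin (n + 1))) ≤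
    Module.finrank ℝ (AA ℝ k (Fin (n + 1))) := by
  rw [finrank_Cen hk, ← finrank_TF]
  have := TF_finite (k := k) (Fin (n + 1))
  refine Submodule.finrank_mono ?_
  rintro _ ⟨f, hf, rfl⟩
  exact trace_mem' (finSuccEquiv n) hf.1

/-- (F2) -/
theorem cen_succ_le (hk : k ≠ 0) (n : ℕ) : Module.finrank ℝ (Cen k (Fin (n + 1))) ≤
    Module.finrank ℝ (PP k (Fin n)) := by
  rw [finrank_Cen hk]
  let Ψ : ((Fin n → MM k) → MM k) →ₗ[ℝ] ((Fin (n + 1) → MM k) → ℝ) :=
    { toFun := fun f x => (f (fun j => x ((finSuccEquiv n).symm (some j))) *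
        x ((finSuccEquiv n).symm none)).trace
      map_add' := by
        intro f g
        funext x
        simp [add_mul]
      map_smul' := by
        intro c f
        funext x
        simp }
  refine le_trans ?_ (Submodule.finrank_map_le Ψ (PP k (Fin n)))
  refine Submodule.finrank_mono ?_
  rintro _ ⟨f, hf, rfl⟩
  obtain ⟨h, hh, hx⟩ := trace_last (PP_relabel (finSuccEquiv n) hf.1)
  refine ⟨h, hh, ?_⟩
  funext x
  have := hx (fun o => x ((finSuccEquiv n).symm o))
  simp only [Equiv.symm_apply_apply] at this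
  exact this.symm

theorem ev_prod {ι κ : Type} [Fintype ι] [DecidableEq ι] [Fintype κ] [DecidableEq κ]
    (g : (ι → Fin k × Fin k) → ℝ) (b : (κ → Fin k × Fin k) → ℝ) (x : ι ⊕ κ → MM k) :
    ev k (ι ⊕ κ) (fun u => g (fun i => u (Sum.inl i)) * b (fun i => u (Sum.inr i))) x =
      ev k ι g (fun i => x (Sum.inl i)) * ev k κ b (fun i => x (Sum.inr i)) := by
  rw [ev_apply, ev_apply, ev_apply, Finset.sum_mul_sum, ← Fintype.sum_prod_type']
  refine Fintype.sum_equiv (Equiv.sumArrowEquivProdArrow ι κ _) _ _ ?_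
  intro u
  rw [Fintype.prod_sum_type]
  simp only [Equiv.sumArrowEquivProdArrow, Equiv.coe_fn_mk, Function.comp_def]
  ring

theorem ev_relabel {ι κ : Type} [Fintype ι] [DecidableEq ι] [Fintype κ] [DecidableEq κ]
    (e : ι ≃ κ) (a : (ι → Fin k × Fin k) → ℝ) (x : κ → MM k) :
    ev k κ (fun u => a (fun i => u (e i))) x = ev k ι a (fun i => x (e i)) := by
  rw [ev_apply, ev_apply]
  refine Fintype.sum_equiv (e.symm.arrowCongr (Equiv.refl _)) _ _ ?_
  intro u
  congr 1
  refine Fintype.prod_equiv e.symm _ _ ?_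
  intro i
  simp [Equiv.arrowCongr]

/-- (F4) -/
theorem II_le_cen {N : ℕ} {g : (Fin N → Fin k × Fin k) → ℝ} (hk : k ≠ 0)
    (hg : ∀ (m : ℕ) (b : (Fin m → Fin k × Fin k) → ℝ), b ∈ AA ℝ k (Fin m) →
      (fun x : Fin N ⊕ Fin m → MM k => (ev k (Fin N) g (fun i => x (Sum.inl i)) *
        ev k (Fin m) b (fun i => x (Sum.inr i))) • (1 : MM k)) ∈ PP k (Fin N ⊕ Fin m)) (n : ℕ) :
    Module.finrank ℝ (II k g n) ≤ Module.finrank ℝ (Cen k (Fin n)) := by
  let Ψ : ((Fin n → Fin k × Fin k) → ℝ) →ₗ[ℝ] ((Fin n → MM k) → MM k) :=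
    { toFun := fun a x => ev k (Fin n) a x • (1 : MM k)
      map_add' := by
        intro f g
        funext x
        simp [add_smul]
      map_smul' := by
        intro c f
        funext x
        simp [smul_smul] }
  have hΨ : Function.Injective Ψ := by
    intro a b h
    apply ev_inj
    funext x
    have h1 : ev k (Fin n) a x • (1 : MM k) = ev k (Fin n) b x • (1 : MM k) := congrFun h x
    have h2 := congrFun (congrFun h1 ⟨0, Nat.pos_of_ne_zero hk⟩) ⟨0, Nat.pos_of_ne_zero hk⟩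
    simpa using h2
  rw [(Submodule.equivMapOfInjective Ψ hΨ (II k g n)).finrank_eq]
  refine Submodule.finrank_mono ?_
  rw [II, Submodule.map_span, Submodule.span_le]
  rintro _ ⟨_, ⟨m, e, b, hb, rfl⟩, rfl⟩
  constructor
  · have h1 := PP_relabel e (hg m b hb)
    rw [SetLike.mem_coe]
    convert h1 using 1
    funext x
    have h3 := ev_prod g b (fun i => x (e i))
    have h4 := ev_relabel e (fun u : Fin N ⊕ Fin m → Fin k × Fin k =>
      g (fun i => u (Sum.inl i)) * b (fun i => u (Sum.inr i))) x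
    exact congrArg (fun r : ℝ => r • (1 : MM k)) (h4.trans h3)
  · intro x
    exact ⟨_, rfl⟩

open Filter Topology

/-- the real analysis part -/
theorem tendsto_ratio (t E c δ : ℕ → ℝ) (ht : ∀ n, 0 < t n)
    (hlc : ∀ n, t (n + 1) ^ 2 ≤ t (n + 2) * t n) (hE : Tendsto (fun n => E n / t n) atTop (𝓝 0))
    (h1 : ∀ n, c n ≤ t (n + 1)) (h2 : ∀ n, δ (n + 1) ≤ c n) (h3 : ∀ n, δ (n + 1) ≤ t (n + 1))
    (h4 : ∀ n, t n - E n ≤ δ n) :
    ∃ L : ℝ, Tendsto (fun n => δ n / c n) atTop (𝓝 L) := by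
  -- the ratio of consecutive `t` is decreasing
  have hanti : Antitone (fun n => t n / t (n + 1)) := by
    apply antitone_nat_of_succ_le
    intro n
    rw [div_le_div_iff₀ (ht _) (ht _)]
    have := hlc n
    nlinarith
  obtain ⟨L, hL⟩ : ∃ L, Tendsto (fun n => t n / t (n + 1)) atTop (𝓝 L) :=
    ⟨_, tendsto_atTop_ciInf hanti ⟨0, by
      rintro _ ⟨n, rfl⟩
      exact (div_pos (ht _) (ht _)).le⟩⟩
  refine ⟨L, ?_⟩
  -- c n / t (n+1) → 1
  have hE1 : Tendsto (fun n => E (n + 1) / t (n + 1)) atTop (𝓝 0) :=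
    (tendsto_add_atTop_iff_nat (f := fun n => E n / t n) 1).mpr hE
  have hc : Tendsto (fun n => c n / t (n + 1)) atTop (𝓝 1) := by
    have hl : Tendsto (fun n => 1 - E (n + 1) / t (n + 1)) atTop (𝓝 1) := by
      simpa using hE1.const_sub 1
    refine tendsto_of_tendsto_of_tendsto_of_le_of_le hl tendsto_const_nhds ?_ ?_
    · intro n
      change 1 - E (n + 1) / t (n + 1) ≤ c n / t (n + 1)
      rw [le_div_iff₀ (ht _), sub_mul, one_mul, div_mul_cancel₀ _ (ht _).ne']
      linarith [h4 (n + 1), h2 n]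
    · intro n
      change c n / t (n + 1) ≤ 1
      rw [div_le_one (ht _)]
      exact h1 n
  have hd : Tendsto (fun n => δ (n + 1) / t (n + 1)) atTop (𝓝 1) := by
    have hl : Tendsto (fun n => 1 - E (n + 1) / t (n + 1)) atTop (𝓝 1) := by
      simpa using hE1.const_sub 1
    refine tendsto_of_tendsto_of_tendsto_of_le_of_le hl tendsto_const_nhds ?_ ?_
    · intro n
      change 1 - E (n + 1) / t (n + 1) ≤ δ (n + 1) / t (n + 1)
      rw [le_div_iff₀ (ht _), sub_mul, one_mul, div_mul_cancel₀ _ (ht _).ne']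
      linarith [h4 (n + 1)]
    · intro n
      change δ (n + 1) / t (n + 1) ≤ 1
      rw [div_le_one (ht _)]
      exact h3 n
  have hd' : Tendsto (fun n => δ n / t n) atTop (𝓝 1) :=
    (tendsto_add_atTop_iff_nat (f := fun n => δ n / t n) 1).mp hd
  have := (hd'.mul hL).div hc one_ne_zero
  rw [one_mul, div_one] at this
  refine this.congr fun n => ?_
  have a1 := (ht n).ne'
  have a2 := (ht (n + 1)).ne'
  simp only [Pi.div_apply]
  by_cases hcn : c n = 0
  · simp [hcn]
  · field_simp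

theorem main_real (hk : 2 ≤ k) : ∃ L : ℝ, Tendsto (fun n =>
    (Module.finrank ℝ (Cen k (Fin n)) : ℝ) / (Module.finrank ℝ (PP k (Fin n)) : ℝ))
    atTop (𝓝 L) := by
  have hk0 : k ≠ 0 := by omega
  obtain ⟨N, g, hg, hg0, hcon⟩ := exists_conductor (k := k) hk0
  let t : ℕ → ℝ := fun n => (Module.finrank ℝ (AA ℝ k (Fin n)) : ℝ)
  let E : ℕ → ℝ := fun n => ((n : ℝ) + 1) ^ N * ((k : ℝ) ^ 2 - 1) ^ n
  have hkR : (2 : ℝ) ≤ k := by exact_mod_cast hk
  have hlow : ∀ n, ((k : ℝ) ^ 2) ^ n ≤ t n * ((n : ℝ) + 1) ^ (k ^ 2) := by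
    intro n
    have := dimLower k n
    rw [← pow_mul]
    change _ ≤ (Module.finrank ℝ (AA ℝ k (Fin n)) : ℝ) * _
    exact_mod_cast this
  have ht : ∀ n, 0 < t n := by
    intro n
    have h1 := hlow n
    have h2 : (0 : ℝ) < ((k : ℝ) ^ 2) ^ n := by positivity
    have h3 : (0 : ℝ) < ((n : ℝ) + 1) ^ (k ^ 2) := by positivity
    by_contra hc
    push Not at hc
    nlinarith
  refine tendsto_ratio t E (fun n => (Module.finrank ℝ (PP k (Fin n)) : ℝ))
    (fun n => (Module.finrank ℝ (Cen k (Fin n)) : ℝ)) ht ?_ ?_ ?_ ?_ ?_ ?_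
  · intro n
    have := logconvex_fin hk0 n
    change (Module.finrank ℝ (AA ℝ k (Fin (n + 1))) : ℝ) ^ 2 ≤
      (Module.finrank ℝ (AA ℝ k (Fin (n + 2))) : ℝ) * (Module.finrank ℝ (AA ℝ k (Fin n)) : ℝ)
    exact_mod_cast this
  · -- `E n / t n → 0`
    set r : ℝ := ((k : ℝ) ^ 2 - 1) / (k : ℝ) ^ 2 with hr
    have hk2 : (0 : ℝ) < (k : ℝ) ^ 2 := by positivity
    have hr0 : 0 < r := div_pos (by nlinarith) hk2
    have hr1 : r < 1 := by rw [hr, div_lt_one hk2]; linarith
    have h5 : Tendsto (fun n : ℕ => (1 / r) * (((n + 1 : ℕ) : ℝ) ^ (N + k ^ 2) * r ^ (n + 1)))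
        atTop (𝓝 0) := by
      have h6 := tendsto_pow_const_mul_const_pow_of_abs_lt_one (N + k ^ 2)
        (r := r) (by rw [abs_of_pos hr0]; exact hr1)
      have h7 := (tendsto_add_atTop_iff_nat
        (f := fun n : ℕ => ((n : ℝ)) ^ (N + k ^ 2) * r ^ n) 1).mpr h6
      simpa using h7.const_mul (1 / r)
    refine tendsto_of_tendsto_of_tendsto_of_le_of_le tendsto_const_nhds h5 ?_ ?_
    · intro n
      change 0 ≤ E n / t n
      refine div_nonneg ?_ (ht n).le
      change 0 ≤ ((n : ℝ) + 1) ^ N * ((k : ℝ) ^ 2 - 1) ^ n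
      have : (0 : ℝ) ≤ (k : ℝ) ^ 2 - 1 := by nlinarith
      positivity
    · intro n
      change E n / t n ≤ (1 / r) * (((n + 1 : ℕ) : ℝ) ^ (N + k ^ 2) * r ^ (n + 1))
      rw [div_le_iff₀ (ht n)]
      have h8 := hlow n
      have h9 : (1 / r) * (((n + 1 : ℕ) : ℝ) ^ (N + k ^ 2) * r ^ (n + 1)) * t n =
          (((n : ℝ) + 1) ^ N * r ^ n) * (t n * ((n : ℝ) + 1) ^ (k ^ 2)) := by
        push_cast
        rw [pow_add, pow_succ]
        field_simp
        ring
      rw [h9]
      have h10 : E n = (((n : ℝ) + 1) ^ N * r ^ n) * ((k : ℝ) ^ 2) ^ n := by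
        change ((n : ℝ) + 1) ^ N * ((k : ℝ) ^ 2 - 1) ^ n = _
        rw [mul_assoc, ← mul_pow, hr, div_mul_cancel₀ _ hk2.ne']
      rw [h10]
      refine mul_le_mul_of_nonneg_left h8 ?_
      positivity
  · intro n
    have := codim_le (k := k) n
    change (Module.finrank ℝ (PP k (Fin n)) : ℝ) ≤
      (Module.finrank ℝ (AA ℝ k (Fin (n + 1))) : ℝ)
    exact_mod_cast this
  · intro n
    have := cen_succ_le hk0 n
    exact_mod_cast this
  · intro n
    have := cen_le_t hk0 n
    change (Module.finrank ℝ (Cen k (Fin (n + 1))) : ℝ) ≤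
      (Module.finrank ℝ (AA ℝ k (Fin (n + 1))) : ℝ)
    exact_mod_cast this
  · intro n
    have h1 := finrank_AA_le hg hg0 hk n
    have h2 := II_le_cen hk0 hcon n
    have h3 : Module.finrank ℝ (AA ℝ k (Fin n)) ≤ Module.finrank ℝ (Cen k (Fin n)) +
      (n + 1) ^ N * (k ^ 2 - 1) ^ n := by omega
    have h4 : (1 : ℕ) ≤ k ^ 2 := Nat.one_le_pow _ _ (by omega)
    have h5 : (Module.finrank ℝ (AA ℝ k (Fin n)) : ℝ) ≤ Module.finrank ℝ (Cen k (Fin n)) +
      ((n : ℝ) + 1) ^ N * ((k : ℝ) ^ 2 - 1) ^ n := by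
      have := (Nat.cast_le (α := ℝ)).mpr h3
      push_cast [Nat.cast_sub h4] at this
      exact this
    change (Module.finrank ℝ (AA ℝ k (Fin n)) : ℝ) - ((n : ℝ) + 1) ^ N * ((k : ℝ) ^ 2 - 1) ^ n ≤ _
    linarith

/-- the span whose dimension is the central codimension -/
noncomputable def CZ (k n : ℕ) : Submodule ℝ ((Fin n → MM k) →
    MM k ⧸ Subalgebra.toSubmodule (Subalgebra.center ℝ (MM k))) :=
  Submodule.span ℝ (Set.range (fun σ : Equiv.Perm (Fin n) =>
        fun x : Fin n → MM k =>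
          Submodule.mkQ (Subalgebra.toSubmodule (Subalgebra.center ℝ (MM k))) (wd k n σ x)))

/-- the result over the reals -/
theorem real_case (k : ℕ) (hk : 1 ≤ k) :
      ∃ α : ℝ, 0 ≤ α ∧ α ≤ 1 ∧
        Filter.Tendsto (fun n : ℕ =>
          (Module.finrank ℝ (Submodule.span ℝ (Set.range (fun σ : Equiv.Perm (Fin n) =>
              fun x : Fin n → Matrix (Fin k) (Fin k) ℝ =>
                Submodule.mkQ (Subalgebra.toSubmodule (Subalgebra.center ℝ (Matrix (Fin k) (Fin k) ℝ)))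
                  (List.ofFn (fun i => x (σ i))).prod))) : ℝ) /
          (Module.finrank ℝ (Submodule.span ℝ (Set.range (fun σ : Equiv.Perm (Fin n) =>
              fun x : Fin n → Matrix (Fin k) (Fin k) ℝ =>
                (List.ofFn (fun i => x (σ i))).prod))) : ℝ))
          Filter.atTop (nhds α) := by
  change ∃ α : ℝ, 0 ≤ α ∧ α ≤ 1 ∧ Tendsto (fun n : ℕ => (Module.finrank ℝ (CZ k n) : ℝ) /
    (Module.finrank ℝ (Submodule.span ℝ (Set.range (wd k n))) : ℝ)) atTop (𝓝 α)
  have hPP : ∀ n, (Module.finrank ℝ (Submodule.span ℝ (Set.range (wd k n))) : ℝ) =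
      (Module.finrank ℝ (PP k (Fin n)) : ℝ) := by
    intro n
    rw [PP_fin]
  simp only [hPP]
  have hadd : ∀ n, (Module.finrank ℝ (CZ k n) : ℝ) + (Module.finrank ℝ (Cen k (Fin n)) : ℝ) =
      (Module.finrank ℝ (PP k (Fin n)) : ℝ) := by
    intro n
    have : Module.finrank ℝ (CZ k n) + _ = _ := finrank_central_add k n
    exact_mod_cast this
  have hPpos : ∀ n, (0 : ℝ) < (Module.finrank ℝ (PP k (Fin n)) : ℝ) := by
    intro n
    have h : Module.finrank ℝ (PP k (Fin n)) ≠ 0 := by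
      intro h0
      rw [Submodule.finrank_eq_zero] at h0
      have h1 : wd k n 1 ∈ PP k (Fin n) := by
        rw [PP_fin]
        exact Submodule.subset_span ⟨1, rfl⟩
      rw [h0, Submodule.mem_bot] at h1
      have h2 := congrFun h1 (fun _ => 1)
      have h3 : wd k n 1 (fun _ => (1 : MM k)) = 1 := by
        unfold wd
        simp
      rw [h3] at h2
      have h4 := congrFun (congrFun h2 ⟨0, hk⟩) ⟨0, hk⟩
      simp at h4
    exact_mod_cast Nat.pos_of_ne_zero h
  rcases Nat.eq_or_lt_of_le hk with h1 | h2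
  · -- `k = 1`
    subst h1
    refine ⟨0, le_refl _, zero_le_one, ?_⟩
    have h0 : ∀ n, (Module.finrank ℝ (CZ 1 n) : ℝ) = 0 := by
      intro n
      have h5 : ∀ A : MM 1, ∃ c : ℝ, A = c • (1 : MM 1) := by
        intro A
        refine ⟨A 0 0, ?_⟩
        ext i j
        rw [Subsingleton.elim i 0, Subsingleton.elim j 0]
        simp
      have h6 : CZ 1 n = ⊥ := by
        unfold CZ
        rw [Submodule.span_eq_bot]
        rintro _ ⟨σ, rfl⟩
        funext x
        exact (mkQ_eq_zero_iff (k := 1) _).mpr (h5 _)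
      rw [h6, finrank_bot, Nat.cast_zero]
    simp only [h0, zero_div]
    exact tendsto_const_nhds
  · obtain ⟨L, hL⟩ := main_real (k := k) h2
    have h7 : Tendsto (fun n => (Module.finrank ℝ (CZ k n) : ℝ) / (Module.finrank ℝ (PP k (Fin n)) : ℝ)) atTop (𝓝 (1 - L)) := by
      refine (hL.const_sub 1).congr fun n => ?_
      rw [eq_div_iff (hPpos n).ne', sub_mul, one_mul, div_mul_cancel₀ _ (hPpos n).ne', ← hadd n]
      ring
    refine ⟨1 - L, ?_, ?_, h7⟩
    · refine ge_of_tendsto' h7 fun n => ?_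
      exact div_nonneg (Nat.cast_nonneg _) (Nat.cast_nonneg _)
    · refine le_of_tendsto' h7 fun n => ?_
      rw [div_le_one (hPpos n), ← hadd n]
      linarith [(Nat.cast_nonneg (Module.finrank ℝ (Cen k (Fin n))) : (0 : ℝ) ≤ _)]

end Pool.Agent.R695
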