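import Pool.Agent.R695.E
import Pool.Agent.R695.E1

/-! The conductor element. -/

set_option autoImplicit false
set_option linter.unusedSectionVars false

namespace Pool.Agent.R695
open Equiv

variable {k : ℕ}

/-- index type of the matrix units -/
abbrev DI (k : ℕ) := Fin k × Fin k

/-- the word `y_none * ∏ z_j y_j` -/
noncomputable def W0 (k : ℕ) : List (DI k ⊕ Option (DI k)) :=
  Sum.inr none :: (Finset.univ : Finset (DI k)).toList.flatMap
    (fun j => [Sum.inl j, Sum.inr (some j)])

theorem W0_nodup : (W0 k).Nodup := by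
  unfold W0
  rw [List.nodup_cons]
  constructor
  · simp
  · rw [List.nodup_flatMap]
    constructor
    · intro j _
      simp
    · have := Finset.nodup_toList (Finset.univ : Finset (DI k))
      refine List.Pairwise.imp ?_ this
      intro a b hab
      simp [Function.onFun]
      exact fun h => hab h.symm

theorem W0_complete (i : DI k ⊕ Option (DI k)) : i ∈ W0 k := by
  unfold W0
  rcases i with j | _ | j
  · simp
  · simp
  · simp

/-- evaluated word -/
noncomputable def w0 (x : DI k ⊕ Option (DI k) → MM k) : MM k := ((W0 k).map x).prod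

theorem w0_mem : (w0 : (DI k ⊕ Option (DI k) → MM k) → MM k) ∈ PP k (DI k ⊕ Option (DI k)) :=
  word_mem W0_nodup W0_complete

theorem w0_eq (x : DI k ⊕ Option (DI k) → MM k) : w0 x = x (Sum.inr none) *
    ((Finset.univ : Finset (DI k)).toList.map
      (fun j => x (Sum.inl j) * x (Sum.inr (some j)))).prod := by
  unfold w0 W0
  rw [List.map_cons, List.prod_cons]
  congr 1
  generalize (Finset.univ : Finset (DI k)).toList = l
  induction l with
  | nil => simp
  | cons j l ih => simp [ih, mul_assoc]

theorem trace_mem' {ι κ : Type} [Fintype ι] [DecidableEq ι] [Fintype κ] [DecidableEq κ]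
    (e : ι ≃ Option κ) {f : (ι → MM k) → MM k}
    (hf : f ∈ PP k ι) : (fun x => (f x).trace) ∈ TF k ι := by
  have h1 := trace_mem (PP_relabel e hf)
  have h2 := TF_relabel e.symm h1
  simpa using h2

def esum (κ κ' : Type) : κ ⊕ Option κ' ≃ Option (κ ⊕ κ') where
  toFun := Sum.elim (fun i => some (Sum.inl i)) (fun o => o.elim none (fun i => some (Sum.inr i)))
  invFun := fun o => o.elim (Sum.inr none) (Sum.elim Sum.inl (fun j => Sum.inr (some j)))
  left_inv := by rintro (i | _ | j) <;> rfl
  right_inv := by rintro (_ | i | j) <;> rfl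

theorem exists_T0 : ∃ a ∈ AA ℝ k (DI k ⊕ Option (DI k)),
    ∀ x, ev k (DI k ⊕ Option (DI k)) a x = (w0 x).trace := by
  obtain ⟨a, ha, hx⟩ := trace_mem' (k := k) (esum (DI k) (DI k)) w0_mem
  exact ⟨a, ha, fun x => congrFun hx x⟩

/-- `ev a` as a multilinear map -/
noncomputable def evM {ι : Type} [Fintype ι] [DecidableEq ι] (a : (ι → Fin k × Fin k) → ℝ) :
    MultilinearMap ℝ (fun _ : ι => MM k) ℝ :=
  ∑ u : ι → Fin k × Fin k, a u • (MultilinearMap.mkPiAlgebra ℝ ι ℝ).compLinearMap
    (fun i => Matrix.entryLinearMap ℝ ℝ (u i).1 (u i).2)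

theorem evM_apply {ι : Type} [Fintype ι] [DecidableEq ι] (a : (ι → Fin k × Fin k) → ℝ)
    (x : ι → MM k) : evM a x = ev k ι a x := by
  simp [evM, ev_apply]

/-- the multilinear map `z ↦ ev a (z, y)` -/
noncomputable def mz {ι κ : Type} [Fintype ι] [DecidableEq ι] [Fintype κ] [DecidableEq κ]
    (a : (ι ⊕ κ → Fin k × Fin k) → ℝ) (y : κ → MM k) :
    MultilinearMap ℝ (fun _ : ι => MM k) ℝ where
  toFun z := evM a (Sum.elim z y)
  map_update_add' := by
    intro _ z i v w
    have h : ∀ v, (Sum.elim (Function.update z i v) y) =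
        Function.update (Sum.elim z y) (Sum.inl i) v := by
      intro v
      convert (Sum.update_elim_inl (f := z) (g := y) (i := i) (x := v)).symm
    rw [h, h, h]
    convert (evM a).map_update_add (Sum.elim z y) (Sum.inl i) v w
  map_update_smul' := by
    intro _ z i c w
    have h : ∀ v, (Sum.elim (Function.update z i v) y) =
        Function.update (Sum.elim z y) (Sum.inl i) v := by
      intro v
      convert (Sum.update_elim_inl (f := z) (g := y) (i := i) (x := v)).symm
    rw [h, h]
    convert (evM a).map_update_smul (Sum.elim z y) (Sum.inl i) c w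

def es (σ : Perm (DI k)) : Perm (DI k ⊕ Option (DI k)) := Equiv.sumCongr σ (Equiv.refl _)

noncomputable def gam (x : DI k ⊕ Option (DI k) → MM k) : ℝ :=
  ∑ σ : Perm (DI k), ((Perm.sign σ : ℤ) : ℝ) * (w0 (fun i => x (es σ i))).trace

theorem gam_mem : (gam : (DI k ⊕ Option (DI k) → MM k) → ℝ) ∈ TF k (DI k ⊕ Option (DI k)) := by
  have : (gam : (DI k ⊕ Option (DI k) → MM k) → ℝ) = ∑ σ : Perm (DI k),
      ((Perm.sign σ : ℤ) : ℝ) • (fun x => (w0 (fun i => x (es σ i))).trace) := by
    funext x
    simp [gam, Finset.sum_apply]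
  rw [this]
  refine Submodule.sum_mem _ fun σ _ => Submodule.smul_mem _ _ ?_
  exact TF_relabel (es σ) (trace_mem' (esum (DI k) (DI k)) w0_mem)

theorem gam_alt : ∃ f : (Option (DI k) → MM k) → MM k [⋀^DI k]→ₗ[ℝ] ℝ,
    ∀ x, gam x = f (fun o => x (Sum.inr o)) (fun j => x (Sum.inl j)) := by
  obtain ⟨a, ha, hx⟩ := exists_T0 (k := k)
  refine ⟨fun y => MultilinearMap.alternatization (mz a y), fun x => ?_⟩
  rw [MultilinearMap.alternatization_apply]
  unfold gam
  refine Finset.sum_congr rfl fun σ _ => ?_
  rw [MultilinearMap.domDomCongr_apply]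
  change _ = Perm.sign σ • (evM a (Sum.elim (fun j => x (Sum.inl (σ j))) (fun o => x (Sum.inr o))))
  rw [evM_apply, hx]
  have : (Sum.elim (fun j => x (Sum.inl (σ j))) (fun o => x (Sum.inr o))) =
      fun i => x (es σ i) := by
    funext i
    rcases i with j | o <;> rfl
  rw [this, Units.smul_def, zsmul_eq_mul]

theorem gam_sub (x : Option (DI k ⊕ Option (DI k)) → MM k) :
    ∑ j : DI k, gam (sub (Sum.inl j) x) = (k : ℝ) * (x none).trace * gam (fun i => x (some i)) := by
  obtain ⟨f, hf⟩ := gam_alt (k := k)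
  simp only [hf]
  rw [← alt_derivation]
  refine Finset.sum_congr rfl fun j _ => ?_
  have h1 : (fun o => sub (Sum.inl j) x (Sum.inr o)) = fun o : Option (DI k) =>
      x (some (Sum.inr o)) := by
    funext o
    simp [sub]
  have h2 : (fun i => sub (Sum.inl j) x (Sum.inl i)) =
      Function.update (fun i : DI k => x (some (Sum.inl i))) j
        (x (some (Sum.inl j)) * x none) := by
    funext i
    by_cases hij : i = j
    · subst hij; simp [sub]
    · rw [Function.update_of_ne hij, sub, Function.update_of_ne (by simpa using hij)]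
  rw [h1, h2]

theorem gam_one_mem (hk : k ≠ 0) : (fun x : DI k ⊕ Option (DI k) → MM k => gam x • (1 : MM k)) ∈
    PP k (DI k ⊕ Option (DI k)) := by
  let F : (Option (DI k ⊕ Option (DI k)) → MM k) → MM k :=
    ∑ j : DI k, ∑ σ : Perm (DI k), ((Perm.sign σ : ℤ) : ℝ) •
      (fun x : Option (DI k ⊕ Option (DI k)) → MM k => w0 (fun i => sub (Sum.inl j) x (es σ i)))
  have hF : F ∈ PP k (Option (DI k ⊕ Option (DI k))) := by
    refine Submodule.sum_mem _ fun j _ => Submodule.sum_mem _ fun σ _ =>
      Submodule.smul_mem _ _ ?_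
    exact PP_sub (Sum.inl j) (PP_relabel (es σ) w0_mem)
  obtain ⟨h, hh, hx⟩ := trace_last hF
  have h1 : ∀ x : Option (DI k ⊕ Option (DI k)) → MM k, (F x).trace =
      (k : ℝ) * (x none).trace * gam (fun i => x (some i)) := by
    intro x
    rw [← gam_sub]
    simp only [F, Finset.sum_apply, Matrix.trace_sum, Pi.smul_apply, Matrix.trace_smul, gam,
      smul_eq_mul]
  have h2 : ∀ x : DI k ⊕ Option (DI k) → MM k, h x = ((k : ℝ) * gam x) • (1 : MM k) := by
    intro x
    ext i j
    have h3 := hx (fun o => o.elim (Matrix.single j i 1) x)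
    rw [h1] at h3
    simp only [Option.elim] at h3
    rw [Matrix.trace_mul_single] at h3
    rw [Matrix.smul_apply, Matrix.one_apply]
    have h4 : h (fun j => x j) i j = h x i j := rfl
    by_cases hij : i = j
    · subst hij
      simp [Matrix.trace_single_eq_same] at h3 ⊢
      linarith
    · rw [Matrix.trace_single_eq_of_ne _ _ _ (fun h => hij h.symm)] at h3
      simp [hij] at h3 ⊢
      linarith
  have hk' : (k : ℝ) ≠ 0 := Nat.cast_ne_zero.mpr hk
  have h5 : (fun x : DI k ⊕ Option (DI k) → MM k => gam x • (1 : MM k)) = (1 / (k : ℝ)) • h := by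
    funext x
    rw [Pi.smul_apply, h2, smul_smul]
    congr 1
    field_simp
  rw [h5]
  exact Submodule.smul_mem _ _ hh

theorem exists_word_ne (c : Fin k) (l : List (DI k)) (hl : l.Nodup) :
    ∃ (a : Fin k) (y : DI k → MM k), ∀ z : DI k → MM k,
      Matrix.single c a (1 : ℝ) * (l.map (fun j => z j * y j)).prod =
        (l.map (fun j => z j j.1 j.2)).prod • Matrix.single c c (1 : ℝ) := by
  induction l with
  | nil => exact ⟨c, fun _ => 0, fun z => by simp⟩
  | cons j l ih =>
    rw [List.nodup_cons] at hl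
    obtain ⟨a', y', h⟩ := ih hl.2
    refine ⟨j.1, Function.update y' j (Matrix.single j.2 a' 1), fun z => ?_⟩
    have h1 : l.map (fun i => z i * Function.update y' j (Matrix.single j.2 a' 1) i) =
        l.map (fun i => z i * y' i) := by
      refine List.map_congr_left fun i hi => ?_
      rw [Function.update_of_ne]
      rintro rfl
      exact hl.1 hi
    rw [List.map_cons, List.prod_cons, h1, List.map_cons, List.prod_cons, mul_smul, ← h z,
      Function.update_self, ← mul_assoc, ← mul_assoc, ← smul_mul_assoc]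
    congr 1
    rw [Matrix.single_mul_mul_single, Matrix.smul_single]
    simp

theorem gam_ne (hk : k ≠ 0) : ∃ x : DI k ⊕ Option (DI k) → MM k, gam x ≠ 0 := by
  obtain ⟨c⟩ : Nonempty (Fin k) := ⟨⟨0, Nat.pos_of_ne_zero hk⟩⟩
  obtain ⟨a, y, h⟩ := exists_word_ne c _ (Finset.nodup_toList (Finset.univ : Finset (DI k)))
  refine ⟨Sum.elim (fun j => Matrix.single j.1 j.2 1) (fun o => o.elim (Matrix.single c a 1) y), ?_⟩
  have h1 : ∀ σ : Perm (DI k), (w0 (fun i => (Sum.elim (fun j : DI k => Matrix.single j.1 j.2 1)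
      (fun o : Option (DI k) => o.elim (Matrix.single c a 1) y) :
        DI k ⊕ Option (DI k) → MM k) (es σ i))).trace = if σ = 1 then 1 else 0 := by
    intro σ
    rw [w0_eq]
    simp only [es, Equiv.sumCongr_apply, Sum.map_inr, Sum.map_inl, Sum.elim_inr, Sum.elim_inl,
      Equiv.refl_apply, Option.elim]
    rw [h (fun j => Matrix.single (σ j).1 (σ j).2 1), Matrix.trace_smul,
      Matrix.trace_single_eq_same, smul_eq_mul, mul_one]
    rw [Finset.prod_map_toList]
    split_ifs with hσ
    · subst hσ
      simp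
    · obtain ⟨j, hj⟩ : ∃ j, σ j ≠ j := by
        by_contra hc
        push Not at hc
        exact hσ (Equiv.ext hc)
      rw [Finset.prod_eq_zero (Finset.mem_univ j)]
      rw [Matrix.single_apply_of_ne]
      intro hc
      exact hj (Prod.ext hc.1 hc.2)
  unfold gam
  simp only [h1]
  simp

/-- multiplication by `gam` sends trace functions to central polynomials. -/
noncomputable def Phi (k : ℕ) (κ : Type) : ((κ → MM k) → ℝ) →ₗ[ℝ]
    (((DI k ⊕ Option (DI k)) ⊕ κ → MM k) → MM k) where
  toFun f x := (gam (fun i => x (Sum.inl i)) * f (fun i => x (Sum.inr i))) • (1 : MM k)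
  map_add' := by
    intro f g
    funext x
    simp [mul_add, add_smul]
  map_smul' := by
    intro c f
    funext x
    simp [smul_smul, mul_left_comm]

theorem Phi_apply {κ : Type} (f : (κ → MM k) → ℝ) (x : (DI k ⊕ Option (DI k)) ⊕ κ → MM k) :
    Phi k κ f x = (gam (fun i => x (Sum.inl i)) * f (fun i => x (Sum.inr i))) • (1 : MM k) := rfl

theorem conductor (hk : k ≠ 0) (κ : Type) [Fintype κ] :
    ∀ [DecidableEq κ] (f : (κ → MM k) → ℝ) (_ : f ∈ TF k κ),
      Phi k κ f ∈ PP k ((DI k ⊕ Option (DI k)) ⊕ κ) := by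
  refine Fintype.induction_empty_option (P := fun κ _ => ∀ [DecidableEq κ] (f : (κ → MM k) → ℝ)
    (_ : f ∈ TF k κ), Phi k κ f ∈ PP k ((DI k ⊕ Option (DI k)) ⊕ κ)) ?_ ?_ ?_ κ
  · intro α β _ e ih _ f hf
    let _ : Fintype α := Fintype.ofEquiv β e.symm
    let _ : DecidableEq α := e.decidableEq
    have h1 := ih _ (TF_relabel e.symm hf)
    have h2 := PP_relabel (Equiv.sumCongr (Equiv.refl (DI k ⊕ Option (DI k))) e) h1
    convert h2 using 1
    funext x
    simp [Phi_apply]
  · intro _ f hf
    have h1 := PP_relabel (Equiv.sumEmpty (DI k ⊕ Option (DI k)) PEmpty).symm (gam_one_mem hk)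
    have h2 := Submodule.smul_mem _ (f (fun i => i.elim)) h1
    convert h2 using 1
    funext x
    rw [Phi_apply, Pi.smul_apply, smul_smul, mul_comm]
    congr 2
    congr 1
    funext i
    exact i.elim
  · intro α _ ih _ f hf
    classical
    refine TF_map_mem (Phi k (Option α)) ?_ hf
    intro τ
    have hdec : ∀ (τ : Perm (Option α)), @tt k (Option α) _ _ τ = @tt k (Option α) _
        (fun a b => a.instDecidableEq b) τ := by
      intro τ
      funext x
      unfold tt
      congr!
    rw [hdec]
    obtain ⟨τ', h | ⟨j, h⟩⟩ := perm_option_cases' τ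
    · have h1 := ih _ (tt_mem (k := k) τ')
      have h2 : (1 / (k : ℝ)) • ∑ j : DI k, (fun x : (DI k ⊕ Option (DI k)) ⊕ Option α → MM k =>
          Phi k α (tt τ') (sub (Sum.inl (Sum.inl j))
            (fun i => x ((esum (DI k ⊕ Option (DI k)) α).symm i)))) ∈
          PP k ((DI k ⊕ Option (DI k)) ⊕ Option α) := by
        refine Submodule.smul_mem _ _ (Submodule.sum_mem _ fun j _ => ?_)
        exact PP_relabel (esum (DI k ⊕ Option (DI k)) α).symm (PP_sub (Sum.inl (Sum.inl j)) h1)
      convert h2 using 1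
      funext x
      rw [h, Phi_apply, tt_optionCongr, Pi.smul_apply, Finset.sum_apply]
      have h3 : ∀ j : DI k, Phi k α (tt τ') (sub (Sum.inl (Sum.inl j))
            (fun i => x ((esum (DI k ⊕ Option (DI k)) α).symm i))) =
          (gam (sub (Sum.inl j) (fun o => o.elim (x (Sum.inr none)) (fun i => x (Sum.inl i)))) *
            tt τ' (fun i => x (Sum.inr (some i)))) • (1 : MM k) := by
        intro j
        rw [Phi_apply]
        congr 2
        · congr 1
          funext i
          by_cases hi : i = Sum.inl j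
          · subst hi
            simp [sub, esum]
          · rw [sub, sub, Function.update_of_ne hi, Function.update_of_ne (by simpa using hi)]
            rfl
      simp only [h3]
      rw [← Finset.sum_smul, ← Finset.sum_mul, gam_sub, smul_smul]
      congr 1
      have hk' : (k : ℝ) ≠ 0 := Nat.cast_ne_zero.mpr hk
      simp only [Option.elim]
      field_simp
    · have h1 := ih _ (tt_mem (k := k) τ')
      have h2 := PP_relabel (esum (DI k ⊕ Option (DI k)) α).symm (PP_sub (Sum.inr j) h1)
      convert h2 using 1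
      funext x
      rw [h, Phi_apply, Phi_apply, ← tt_sub]
      congr 3
      · funext i
        by_cases hi : i = j
        · subst hi
          simp [sub, esum]
        · rw [sub, sub, Function.update_of_ne hi, Function.update_of_ne (by simpa using hi)]
          rfl

/-- summary: the conductor tensor. -/
theorem exists_conductor (hk : k ≠ 0) : ∃ (N : ℕ) (g : (Fin N → Fin k × Fin k) → ℝ),
    g ∈ AA ℝ k (Fin N) ∧ g ≠ 0 ∧
    ∀ (m : ℕ) (b : (Fin m → Fin k × Fin k) → ℝ), b ∈ AA ℝ k (Fin m) →
      (fun x : Fin N ⊕ Fin m → MM k => (ev k (Fin N) g (fun i => x (Sum.inl i)) *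
        ev k (Fin m) b (fun i => x (Sum.inr i))) • (1 : MM k)) ∈ PP k (Fin N ⊕ Fin m) := by
  let e := Fintype.equivFin (DI k ⊕ Option (DI k))
  obtain ⟨g, hg, hgx⟩ := TF_relabel e (gam_mem (k := k))
  refine ⟨_, g, hg, ?_, ?_⟩
  · rintro rfl
    obtain ⟨x, hx⟩ := gam_ne hk
    apply hx
    have := congrFun hgx (fun i => x (e.symm i))
    simpa using this.symm
  · intro m b hb
    have h1 := conductor hk (Fin m) _ ⟨b, hb, rfl⟩
    have h2 := PP_relabel (Equiv.sumCongr e (Equiv.refl (Fin m))) h1
    convert h2 using 1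
    funext x
    rw [Phi_apply, hgx]
    rfl

end Pool.Agent.R695
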